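import Pool.Agent.P.MP_657a03_nt.Iface

set_option autoImplicit false

open NumberField Module Real UniqueFactorizationMonoid

namespace Pool.Agent.P.MP_657a03_nt

namespace Ideals

variable {K : Type} [Field K] [NumberField K]

/-- The weight `N(I)^(-2)`. -/
noncomputable def wt (I : Ideal (𝓞 K)) : ℝ := (((Ideal.absNorm I : ℕ) : ℝ) ^ 2)⁻¹

lemma wt_nonneg (I : Ideal (𝓞 K)) : 0 ≤ wt I := by unfold wt; positivity

lemma wt_prod {ι : Type} (s : Finset ι) (p : ι → Ideal (𝓞 K)) (e : ι → ℕ) :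
    wt (∏ i ∈ s, p i ^ e i) = ∏ i ∈ s, wt (p i) ^ e i := by
  unfold wt
  rw [map_prod, Nat.cast_prod, ← Finset.prod_pow, ← Finset.prod_inv_distrib]
  refine Finset.prod_congr rfl fun i _ => ?_
  rw [map_pow, Nat.cast_pow, inv_pow, ← pow_mul, ← pow_mul, mul_comm]

lemma geom_le (x : ℝ) (h0 : 0 ≤ x) (h1 : x ≤ 1 / 4) (n : ℕ) :
    ∑ k ∈ Finset.range n, x ^ k ≤ exp (4 / 3 * x) := by
  have h : ∀ n : ℕ, ∑ k ∈ Finset.range n, x ^ k ≤ 1 + 4 / 3 * x := by
    intro n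
    induction n with
    | zero => simp; positivity
    | succ n ih =>
      rw [Finset.sum_range_succ']
      simp only [pow_succ, pow_zero]
      rw [← Finset.sum_mul]
      nlinarith [mul_le_mul_of_nonneg_right ih h0]
  have := add_one_le_exp (4 / 3 * x)
  linarith [h n]

lemma sum_wt_le (P F : Finset (Ideal (𝓞 K))) (hP : ∀ p ∈ P, wt p ≤ 1 / 4)
    (hF : ∀ I ∈ F, I ≠ ⊥ ∧ ∀ p ∈ normalizedFactors I, p ∈ P) :
    ∑ I ∈ F, wt I ≤ exp (4 / 3 * ∑ p ∈ P, wt p) := by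
  classical
  set e0 : ℕ := F.sup fun I => (normalizedFactors I).card with he0
  set g : (P → ℕ) → Ideal (𝓞 K) := fun e => ∏ p : P, p.1 ^ e p with hg
  set T : Finset (P → ℕ) := Fintype.piFinset fun _ : P => Finset.range (e0 + 1) with hT
  have hsub : F ⊆ T.image g := by
    intro I hI
    obtain ⟨h0, h1⟩ := hF I hI
    refine Finset.mem_image.2 ⟨fun p => (normalizedFactors I).count p.1, ?_, ?_⟩
    · refine Fintype.mem_piFinset.2 fun p => Finset.mem_range.2 (Nat.lt_succ_of_le ?_)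
      exact (Multiset.count_le_card _ _).trans
        (Finset.le_sup (f := fun I => (normalizedFactors I).card) hI)
    · have h2 := Finset.prod_multiset_count_of_subset (normalizedFactors I) P
        (fun p hp => h1 p (Multiset.mem_toFinset.1 hp))
      rw [Ideal.prod_normalizedFactors_eq_self h0] at h2
      simp only [hg]
      rw [Finset.prod_coe_sort P fun p => p ^ (normalizedFactors I).count p]
      exact h2.symm
  calc ∑ I ∈ F, wt I ≤ ∑ I ∈ T.image g, wt I :=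
        Finset.sum_le_sum_of_subset_of_nonneg hsub fun I _ _ => wt_nonneg I
    _ ≤ ∑ e ∈ T, wt (g e) := Finset.sum_image_le_of_nonneg fun I _ => wt_nonneg I
    _ = ∑ e ∈ T, ∏ p : P, wt p.1 ^ e p := Finset.sum_congr rfl fun e _ => wt_prod _ _ _
    _ = ∏ p : P, ∑ k ∈ Finset.range (e0 + 1), wt p.1 ^ k :=
        (Finset.prod_univ_sum (fun _ : P => Finset.range (e0 + 1))
          fun p k => wt p.1 ^ k).symm
    _ ≤ ∏ p : P, exp (4 / 3 * wt p.1) := by
        refine Finset.prod_le_prod (fun p _ => Finset.sum_nonneg fun k _ => ?_) fun p _ => ?_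
        · exact pow_nonneg (wt_nonneg _) _
        · exact geom_le _ (wt_nonneg _) (hP _ p.2) _
    _ = exp (4 / 3 * ∑ p ∈ P, wt p) := by
        rw [← exp_sum, Finset.mul_sum, Finset.sum_coe_sort P fun p => 4 / 3 * wt p]

/-- The rational prime below. -/
noncomputable def bl (p : Ideal (𝓞 K)) : ℕ := Ideal.absNorm (Ideal.under ℤ p)

lemma bl_prime {p : Ideal (𝓞 K)} (hp : p.IsPrime) (h0 : p ≠ ⊥) : (bl p).Prime := by
  have : NeZero p := ⟨h0⟩
  exact Nat.absNorm_under_prime p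

lemma wt_le_bl {p : Ideal (𝓞 K)} (hp : p.IsPrime) (h0 : p ≠ ⊥) :
    wt p ≤ (((bl p : ℕ) : ℝ) ^ 2)⁻¹ := by
  have h1 : 0 < Ideal.absNorm p := Nat.pos_of_ne_zero (Ideal.absNorm_eq_zero_iff.not.2 h0)
  have h2 : bl p ≤ Ideal.absNorm p := Nat.le_of_dvd h1 (Int.absNorm_under_dvd_absNorm p)
  have h3 : (0 : ℝ) < bl p := by exact_mod_cast (bl_prime hp h0).pos
  have h4 : (bl p : ℝ) ≤ Ideal.absNorm p := by exact_mod_cast h2
  unfold wt
  gcongr

lemma fiber_card (P : Finset (Ideal (𝓞 K))) (hP : ∀ p ∈ P, p.IsPrime ∧ p ≠ ⊥) (q : ℕ) :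
    (P.filter fun p => bl p = q).card ≤ finrank ℚ K := by
  classical
  rcases (P.filter fun p => bl p = q).eq_empty_or_nonempty with h | ⟨p, hp⟩
  · simp [h]
  obtain ⟨hp1, hp2⟩ := Finset.mem_filter.1 hp
  have hq : q.Prime := hp2 ▸ bl_prime (hP p hp1).1 (hP p hp1).2
  have hq' : Prime (q : ℤ) := Nat.prime_iff_prime_int.1 hq
  have h0 : Ideal.span {(q : ℤ)} ≠ ⊥ := by
    rw [Ne, Ideal.span_singleton_eq_bot]; exact hq'.ne_zero
  have : (Ideal.span {(q : ℤ)}).IsPrime := (Ideal.span_singleton_prime hq'.ne_zero).2 hq'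
  have : (Ideal.span {(q : ℤ)}).IsMaximal := Ideal.IsPrime.isMaximal inferInstance h0
  refine le_trans (Finset.card_le_card ?_)
    (Ideal.card_primesOverFinset_le_finrank (𝓞 K) ℚ K h0)
  intro r hr
  obtain ⟨hr1, hr2⟩ := Finset.mem_filter.1 hr
  refine (IsDedekindDomain.mem_primesOverFinset_iff h0 _).2 ⟨(hP r hr1).1, ?_⟩
  rw [← hr2]
  exact Int.liesOver_span_absNorm r

lemma sum_primes_le (P : Finset (Ideal (𝓞 K))) (hP : ∀ p ∈ P, p.IsPrime ∧ p ≠ ⊥) :
    ∑ p ∈ P, wt p ≤ finrank ℚ K := by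
  classical
  set n : ℕ := P.sup bl + 1 with hn
  have hmap : ∀ p ∈ P, bl p ∈ Finset.Ioo 1 n := fun p hp =>
    Finset.mem_Ioo.2 ⟨(bl_prime (hP p hp).1 (hP p hp).2).one_lt,
      Nat.lt_succ_of_le (Finset.le_sup (f := bl) hp)⟩
  have h1 : ∑ i ∈ Finset.Ioo 1 n, ((i : ℝ) ^ 2)⁻¹ ≤ 1 := by
    have := sum_Ioo_inv_sq_le (α := ℝ) 1 n
    norm_num at this ⊢
    exact this
  calc ∑ p ∈ P, wt p = ∑ q ∈ Finset.Ioo 1 n, ∑ p ∈ P with bl p = q, wt p :=
        (Finset.sum_fiberwise_of_maps_to hmap _).symm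
    _ ≤ ∑ q ∈ Finset.Ioo 1 n, (finrank ℚ K : ℝ) * ((q : ℝ) ^ 2)⁻¹ := by
        refine Finset.sum_le_sum fun q _ => ?_
        have h2 : ∑ p ∈ P with bl p = q, wt p ≤
            (P.filter fun p => bl p = q).card • ((q : ℝ) ^ 2)⁻¹ := by
          refine Finset.sum_le_card_nsmul _ _ _ fun p hp => ?_
          obtain ⟨hp1, hp2⟩ := Finset.mem_filter.1 hp
          rw [← hp2]
          exact wt_le_bl (hP p hp1).1 (hP p hp1).2
        rw [nsmul_eq_mul] at h2
        refine h2.trans (mul_le_mul_of_nonneg_right ?_ (by positivity))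
        exact_mod_cast fiber_card P hP q
    _ ≤ finrank ℚ K := by
        rw [← Finset.mul_sum]
        exact mul_le_of_le_one_right (by positivity) h1

lemma exp_le_four : exp (4 / 3) ≤ 4 := by
  have h1 : exp (4 / 3) ^ 3 = exp 1 ^ 4 := by
    rw [← exp_nat_mul, ← exp_nat_mul]; norm_num
  have h2 : exp 1 ^ 4 ≤ 2.7182818286 ^ 4 :=
    pow_le_pow_left₀ (exp_pos 1).le exp_one_lt_d9.le 4
  refine le_of_pow_le_pow_left₀ (n := 3) (by norm_num) (by norm_num) ?_
  rw [h1]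
  refine h2.trans (by norm_num)

end Ideals

open Ideals in
theorem ideals : S_IDEALS := by
  intro K _ _ M F hF
  classical
  set P : Finset (Ideal (𝓞 K)) := F.biUnion fun I => (normalizedFactors I).toFinset with hPd
  have hP : ∀ p ∈ P, p.IsPrime ∧ p ≠ ⊥ := by
    intro p hp
    obtain ⟨I, _, hI⟩ := Finset.mem_biUnion.1 hp
    have h := prime_of_normalized_factor p (Multiset.mem_toFinset.1 hI)
    exact ⟨Ideal.isPrime_of_prime h, h.ne_zero⟩
  have h1 : ∑ I ∈ F, wt I ≤ exp (4 / 3 * ∑ p ∈ P, wt p) := by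
    refine sum_wt_le P F (fun p hp => ?_) fun I hI => ⟨(hF I hI).1, fun p hp => ?_⟩
    · refine (wt_le_bl (hP p hp).1 (hP p hp).2).trans ?_
      have h2 : (2 : ℝ) ≤ bl p := by exact_mod_cast (bl_prime (hP p hp).1 (hP p hp).2).two_le
      rw [one_div]
      exact inv_anti₀ (by norm_num) (by nlinarith)
    · exact Finset.mem_biUnion.2 ⟨I, hI, Multiset.mem_toFinset.2 hp⟩
  have h2 : exp (4 / 3 * ∑ p ∈ P, wt p) ≤ 4 ^ finrank ℚ K := by
    calc exp (4 / 3 * ∑ p ∈ P, wt p) ≤ exp ((finrank ℚ K : ℕ) * (4 / 3)) := by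
          refine exp_le_exp.2 ?_
          have := sum_primes_le P hP
          linarith
      _ = exp (4 / 3) ^ finrank ℚ K := exp_nat_mul _ _
      _ ≤ 4 ^ finrank ℚ K := pow_le_pow_left₀ (exp_pos _).le exp_le_four _
  have h3 : (F.card : ℝ) ≤ M ^ 2 * ∑ I ∈ F, wt I := by
    rw [Finset.mul_sum, Finset.card_eq_sum_ones, Nat.cast_sum]
    refine Finset.sum_le_sum fun I hI => ?_
    obtain ⟨h0, hM⟩ := hF I hI
    have h4 : (0 : ℝ) < Ideal.absNorm I := by
      exact_mod_cast Nat.pos_of_ne_zero (Ideal.absNorm_eq_zero_iff.not.2 h0)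
    unfold wt
    rw [Nat.cast_one, ← div_eq_mul_inv, le_div_iff₀ (by positivity), one_mul]
    gcongr
  exact h3.trans (mul_le_mul_of_nonneg_left (h1.trans h2) (sq_nonneg M))

end Pool.Agent.P.MP_657a03_nt
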