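import Pool.Agent.P.MP_657a03_nt.Iface

/-! Many small integers of bounded norm, from Minkowski's theorem for boxes. -/

set_option autoImplicit false

open NumberField NumberField.Units NumberField.InfinitePlace NumberField.mixedEmbedding Module
  Real Finset

namespace Pool.Agent.P.MP_657a03_nt

namespace MinkB

lemma card_pi {ι : Type} [Fintype ι] [DecidableEq ι] (r n : ℕ) (hr : Fintype.card ι = r + 1) :
    (piAntidiag (univ : Finset ι) n).card = (n + r).choose r := by
  have h := card_finsuppAntidiag_nat_eq_choose (s := (univ : Finset ι)) n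
  rw [finsuppAntidiag, card_map, card_attach, card_univ, hr] at h
  rw [h, show r + 1 + n - 1 = n + r by omega, Nat.choose_symm_add]

variable (K : Type) [Field K] [NumberField K]

lemma box (m : ℕ) (hd : |(discr K : ℝ)| < exp (2 * m)) (g : InfinitePlace K → ℝ)
    (hg : ∑ w, g w = m) : ∃ β : 𝓞 K, β ≠ 0 ∧ ∀ w : InfinitePlace K, mult w * log (w β) < g w := by
  classical
  set f : InfinitePlace K → NNReal := fun w => ⟨exp (g w / mult w), (exp_pos _).le⟩ with hf
  have hm : ∀ w : InfinitePlace K, (0 : ℝ) < mult w := fun w => by exact_mod_cast mult_pos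
  have hp : ((∏ w, f w ^ mult w : NNReal) : ℝ) = exp m := by
    rw [← hg, exp_sum, NNReal.coe_prod]
    refine prod_congr rfl fun w _ => ?_
    rw [NNReal.coe_pow, show (f w : ℝ) = exp (g w / mult w) from rfl, ← exp_nat_mul,
      mul_div_cancel₀ _ (hm w).ne']
  have hs : √|(discr K : ℝ)| < exp m := by
    rw [sqrt_lt' (exp_pos _), ← exp_nat_mul]
    exact_mod_cast hd
  obtain ⟨β, h0, hβ⟩ := exists_ne_zero_mem_ringOfIntegers_lt K (f := f) (by
    rw [convexBodyLT_volume, ← ENNReal.coe_mul,
      ← ENNReal.toReal_lt_toReal (minkowskiBound_lt_top K _).ne ENNReal.coe_ne_top,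
      minkowskiBound, volume_fundamentalDomain_fractionalIdealLatticeBasis, Units.val_one,
      FractionalIdeal.absNorm_one, Rat.cast_one, ENNReal.ofReal_one, one_mul,
      mixedEmbedding.finrank, volume_fundamentalDomain_latticeBasis, ENNReal.coe_toReal,
      NNReal.coe_mul, hp, ← card_add_two_mul_card_eq_rank]
    simp only [ENNReal.toReal_mul, ENNReal.toReal_pow, ENNReal.toReal_inv, ENNReal.toReal_ofNat,
      ENNReal.coe_toReal, Real.coe_sqrt, coe_nnnorm, Int.norm_eq_abs, NNReal.coe_mul,
      NNReal.coe_pow, NNReal.coe_ofNat, NNReal.coe_real_pi]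
    calc (2 : ℝ)⁻¹ ^ nrComplexPlaces K * √|(discr K : ℝ)| *
          2 ^ (nrRealPlaces K + 2 * nrComplexPlaces K)
        = 2 ^ nrRealPlaces K * 2 ^ nrComplexPlaces K * √|(discr K : ℝ)| := by
          rw [pow_add, two_mul, pow_add, inv_pow]
          field_simp
      _ < 2 ^ nrRealPlaces K * 2 ^ nrComplexPlaces K * exp m := by gcongr
      _ ≤ _ := by gcongr; exact two_le_pi)
  refine ⟨β, h0, fun w => ?_⟩
  have h1 : 0 < w (β : K) := pos_iff.mpr (by simpa using h0)
  rw [mul_comm, ← lt_div_iff₀ (hm w), log_lt_iff_lt_exp h1]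
  exact hβ w

lemma sum_log (β : 𝓞 K) (h0 : β ≠ 0) :
    ∑ w : InfinitePlace K, mult w * log (w β) = log |((Algebra.norm ℤ β : ℤ) : ℝ)| := by
  have h1 : ∀ w : InfinitePlace K, 0 < w (β : K) := fun w => pos_iff.mpr (by simpa using h0)
  have h2 := prod_eq_abs_norm (β : K)
  rw [← Algebra.coe_norm_int] at h2
  simp only [Rat.cast_abs, Rat.cast_intCast] at h2
  rw [← h2, log_prod fun w _ => (pow_pos (h1 w) _).ne']
  simp only [log_pow]

end MinkB

open MinkB

theorem minkB : S_MINK := by
  intro K _ _ m S τ hd hτ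
  classical
  have hr : Fintype.card (InfinitePlace K) = rank K + 1 := by
    have : 0 < Fintype.card (InfinitePlace K) := Fintype.card_pos
    rw [rank]
    omega
  have hτ' : ∑ _w : InfinitePlace K, (τ : ℝ) = S + m := by
    rw [sum_const, card_univ, hr, nsmul_eq_mul]
    exact_mod_cast hτ
  have hex : ∀ s : InfinitePlace K → ℕ, ∃ β : 𝓞 K, ∑ w, s w = S →
      β ≠ 0 ∧ ∀ w : InfinitePlace K, mult w * log (w β) < τ - s w := by
    intro s
    by_cases hs : ∑ w, s w = S
    · obtain ⟨β, h⟩ := box K m hd (fun w => τ - s w) (by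
        rw [sum_sub_distrib, hτ', ← Nat.cast_sum, hs]; ring)
      exact ⟨β, fun _ => h⟩
    · exact ⟨0, fun h => absurd h hs⟩
  choose β hβ using hex
  set P := piAntidiag (univ : Finset (InfinitePlace K)) S with hP
  have hPs : ∀ s ∈ P, ∑ w, s w = S := fun s hs => (mem_piAntidiag.mp hs).1
  have hN : ∀ x : 𝓞 K, x ≠ 0 → (1 : ℝ) ≤ |((Algebra.norm ℤ x : ℤ) : ℝ)| := fun x hx => by
    exact_mod_cast Int.one_le_abs (Algebra.norm_ne_zero_iff.mpr hx)
  refine ⟨P.image β, fun x hx => ?_, ?_⟩
  · obtain ⟨s, hs, rfl⟩ := mem_image.mp hx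
    obtain ⟨h0, h1⟩ := hβ s (hPs s hs)
    refine ⟨h0, fun φ => ?_, ?_⟩
    · have h2 := h1 (InfinitePlace.mk φ)
      have h3 := one_le_mult (w := InfinitePlace.mk φ)
      have h4 : (0 : ℝ) ≤ s (InfinitePlace.mk φ) := Nat.cast_nonneg _
      have h5 : (0 : ℝ) ≤ τ := Nat.cast_nonneg _
      rw [InfinitePlace.apply] at h2
      rw [← log_le_iff_le_exp (by simpa using h0)]
      by_contra h6
      nlinarith
    · rw [← log_le_iff_le_exp (by linarith [hN _ h0]), ← sum_log K _ h0]
      refine (sum_le_sum fun w _ => (h1 w).le).trans ?_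
      rw [sum_sub_distrib, hτ', ← Nat.cast_sum, hPs s hs]
      linarith
  · rw [← card_pi (rank K) S hr]
    refine card_le_mul_card_image P _ fun x hx => ?_
    obtain ⟨s0, hs0, rfl⟩ := mem_image.mp hx
    obtain ⟨h0, h1⟩ := hβ s0 (hPs s0 hs0)
    set k : InfinitePlace K → ℕ := fun w => ⌊τ - mult w * log (w (β s0))⌋₊ with hk
    have hle : ∀ s ∈ P, β s = β s0 → ∀ w, s w ≤ k w := fun s hs h w => by
      refine Nat.le_floor ?_
      have := (hβ s (hPs s hs)).2 w
      rw [h] at this
      linarith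
    have hk1 : ∑ w, k w ≤ S + m := by
      have h2 : ∑ w, (k w : ℝ) ≤ ∑ w : InfinitePlace K, (τ - mult w * log (w (β s0))) :=
        sum_le_sum fun w _ => Nat.floor_le (by
          have : (0 : ℝ) ≤ s0 w := Nat.cast_nonneg _
          linarith [h1 w])
      rw [sum_sub_distrib, hτ', sum_log K _ h0] at h2
      have h3 := log_nonneg (hN _ h0)
      have h4 : ∑ w, (k w : ℝ) ≤ S + m := by linarith
      exact_mod_cast h4
    calc _ ≤ (piAntidiag (univ : Finset (InfinitePlace K)) (∑ w, k w - S)).card := by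
          refine card_le_card_of_injOn (fun s w => k w - s w) (fun s hs => ?_)
            fun s hs s' hs' h => ?_
          · obtain ⟨h2, h3⟩ := mem_filter.mp (mem_coe.mp hs)
            refine mem_coe.mpr (mem_piAntidiag.mpr ⟨?_, fun _ _ => mem_univ _⟩)
            rw [← hPs s h2, sum_tsub_distrib _ fun w _ => hle s h2 h3 w]
          · obtain ⟨h2, h3⟩ := mem_filter.mp (mem_coe.mp hs)
            obtain ⟨h4, h5⟩ := mem_filter.mp (mem_coe.mp hs')
            funext w
            have h6 : k w - s w = k w - s' w := congrFun h w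
            have := hle s h2 h3 w
            have := hle s' h4 h5 w
            omega
      _ ≤ 2 ^ (∑ w, k w - S + rank K) := by
          rw [card_pi (rank K) _ hr]
          exact Nat.choose_le_two_pow _ _
      _ ≤ _ := Nat.pow_le_pow_right two_pos (by omega)

end Pool.Agent.P.MP_657a03_nt
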