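import Pool.Agent.P.MP_657a03_nt.Iface

/-!
Lattice coordinates with a bounded index.
-/

set_option autoImplicit false

open Module Matrix

namespace Pool.Agent.P.MP_657a03_nt

namespace Lat

/-- The matrix whose columns are the vectors `z (v j)`. -/
def cols {ι : Type} {s : ℕ} (z : ι → Fin s → ℤ) (v : Fin s → ι) : Matrix (Fin s) (Fin s) ℤ :=
  Matrix.of fun i j => z (v j) i

theorem det_cols {ι : Type} {s : ℕ} (z : ι → Fin s → ℤ) (v : Fin s → ι) :
    (cols z v).det = Matrix.detRowAlternating (fun j => z (v j)) := by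
  rw [← Matrix.det_transpose]
  rfl

theorem cols_mulVec {ι : Type} {s : ℕ} (z : ι → Fin s → ℤ) (v : Fin s → ι) (c : Fin s → ℤ) :
    cols z v *ᵥ c = ∑ j, c j • z (v j) := by
  ext i
  simp [cols, Matrix.mulVec, dotProduct, Finset.sum_apply, mul_comm]

theorem cols_update {ι : Type} {s : ℕ} (z : ι → Fin s → ℤ) (v : Fin s → ι) (j : Fin s) (l : ι) :
    (cols z v).updateCol j (z l) = cols z (Function.update v j l) := by
  ext i k
  by_cases h : k = j
  · subst h
    simp [cols]
  · simp [cols, Matrix.updateCol_ne h, Function.update_of_ne h]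

theorem exists_det_ne {ι : Type} {s : ℕ} (L : Finset ι) (z : ι → Fin s → ℤ)
    (h : ∀ j : Fin s, ∃ m : ℤ, m ≠ 0 ∧ ∃ c : ι → ℤ,
      ∑ l ∈ L, c l • z l = m • (Pi.single j 1 : Fin s → ℤ)) :
    ∃ v ∈ Fintype.piFinset (fun _ : Fin s => L), (cols z v).det ≠ 0 := by
  classical
  choose m hm c hc using h
  by_contra hcon
  push Not at hcon
  have h1 : (Matrix.detRowAlternating (n := Fin s) (R := ℤ)).toMultilinearMap
      (fun j => ∑ l ∈ L, c j l • z l) = 0 := by
    rw [MultilinearMap.map_sum_finset]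
    refine Finset.sum_eq_zero fun v hv => ?_
    rw [MultilinearMap.map_smul_univ]
    have := hcon v hv
    rw [det_cols] at this
    change _ • Matrix.detRowAlternating (fun j => z (v j)) = 0
    rw [this, smul_zero]
  simp only [hc] at h1
  rw [MultilinearMap.map_smul_univ] at h1
  have h2 : (Matrix.detRowAlternating (n := Fin s) (R := ℤ)).toMultilinearMap
      (fun j => (Pi.single j 1 : Fin s → ℤ)) = 1 := by
    have : (fun j => (Pi.single j 1 : Fin s → ℤ)) = (1 : Matrix (Fin s) (Fin s) ℤ) := by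
      ext i k
      simp [Matrix.one_apply, Pi.single_apply, eq_comm]
    rw [this]
    exact Matrix.det_one
  rw [h2, smul_eq_mul, mul_one] at h1
  exact Finset.prod_ne_zero_iff.2 (fun j _ => hm j) h1

theorem card_quot {s : ℕ} (V : Matrix (Fin s) (Fin s) ℤ) (hV : V.det ≠ 0) :
    Nat.card ((Fin s → ℤ) ⧸ LinearMap.range (Matrix.toLin' V)) = V.det.natAbs := by
  have hinj : Function.Injective (Matrix.toLin' V) := by
    rw [← LinearMap.ker_eq_bot, LinearMap.ker_eq_bot']
    intro x hx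
    rw [Matrix.toLin'_apply] at hx
    exact Matrix.eq_zero_of_mulVec_eq_zero hV hx
  rw [← Submodule.natAbs_det_equiv (LinearMap.range (Matrix.toLin' V))
    (LinearEquiv.ofInjective _ hinj)]
  congr 1
  rw [← LinearMap.det_toLin' V]
  congr 1

theorem card_box (κ : Type) [Fintype κ] [DecidableEq κ] (a : ℝ) (ha : 0 ≤ a) :
    ((Fintype.piFinset fun _ : κ => Finset.Icc ⌊-a⌋ ⌊a⌋).card : ℝ) ≤
      (2 * a + 2) ^ Fintype.card κ := by
  rw [Fintype.card_piFinset, Finset.prod_const, Finset.card_univ, Nat.cast_pow]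
  refine pow_le_pow_left₀ (Nat.cast_nonneg _) ?_ _
  rw [Int.card_Icc]
  have h1 : ⌊-a⌋ ≤ ⌊a⌋ := Int.floor_le_floor (by linarith)
  have h2 : (((⌊a⌋ + 1 - ⌊-a⌋).toNat : ℤ) : ℝ) = (⌊a⌋ : ℝ) + 1 - ⌊-a⌋ := by
    rw [Int.toNat_of_nonneg (by omega)]
    push_cast
    ring
  have h3 := Int.floor_le a
  have h4 := Int.lt_floor_add_one (-a)
  have h5 : (((⌊a⌋ + 1 - ⌊-a⌋).toNat : ℕ) : ℝ) = (((⌊a⌋ + 1 - ⌊-a⌋).toNat : ℤ) : ℝ) := by
    push_cast
    rfl
  rw [h5, h2]
  linarith

/-- The determinant is bounded by the number of lattice points in a box. -/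
theorem det_le {s : ℕ} {κ : Type} [Fintype κ] (V : Matrix (Fin s) (Fin s) ℤ) (hV : V.det ≠ 0)
    (f : (Fin s → ℤ) →+ (κ → ℝ)) (μ R : ℝ) (hμ : 0 < μ) (hR : 0 ≤ R)
    (hsep : ∀ x, x ≠ 0 → μ ≤ ‖f x‖) (hcol : ∀ j, ‖f (fun i => V i j)‖ ≤ R) :
    (|V.det| : ℝ) ≤ (2 * (s * R / μ) + 2) ^ Fintype.card κ := by
  classical
  set Δ := V.det with hΔ
  let red : (Fin s → ℤ) → Fin s → ℤ := fun x => x - V *ᵥ fun j => (V.adjugate *ᵥ x) j / Δ
  have hred : ∀ x, ‖f (red x)‖ ≤ s * R := by
    intro x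
    have h1 : Δ • red x = ∑ j, ((V.adjugate *ᵥ x) j % Δ) • fun i => V i j := by
      have h2 : Δ • x = V *ᵥ (V.adjugate *ᵥ x) := by
        rw [Matrix.mulVec_mulVec, Matrix.mul_adjugate, Matrix.smul_mulVec, Matrix.one_mulVec]
      have h3 : Δ • red x = V *ᵥ fun j => (V.adjugate *ᵥ x) j % Δ := by
        simp only [red]
        rw [smul_sub, h2, ← Matrix.mulVec_smul, ← Matrix.mulVec_sub]
        congr 1
        ext j
        simp [Int.emod_def]
      rw [h3]
      ext i
      simp [Matrix.mulVec, dotProduct, Finset.sum_apply, mul_comm]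
    have h4 : (Δ : ℝ) • f (red x) = ∑ j, (((V.adjugate *ᵥ x) j % Δ : ℤ) : ℝ) • f fun i => V i j := by
      rw [Int.cast_smul_eq_zsmul, ← map_zsmul, h1, map_sum]
      refine Finset.sum_congr rfl fun j _ => ?_
      rw [map_zsmul, Int.cast_smul_eq_zsmul]
    have hpos : (0 : ℝ) < |(Δ : ℝ)| := abs_pos.2 (by exact_mod_cast hV)
    have h5 : |(Δ : ℝ)| * ‖f (red x)‖ ≤ |(Δ : ℝ)| * (s * R) := by
      rw [← Real.norm_eq_abs, ← norm_smul, h4]
      refine (norm_sum_le _ _).trans ?_
      have h6 : ∀ j ∈ (Finset.univ : Finset (Fin s)),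
          ‖(((V.adjugate *ᵥ x) j % Δ : ℤ) : ℝ) • f fun i => V i j‖ ≤ ‖(Δ : ℝ)‖ * R := by
        intro j _
        rw [norm_smul]
        refine mul_le_mul ?_ (hcol j) (norm_nonneg _) (norm_nonneg _)
        rw [Real.norm_eq_abs, Real.norm_eq_abs, ← Int.cast_abs, ← Int.cast_abs, Int.cast_le,
          abs_of_nonneg (Int.emod_nonneg _ hV)]
        exact (Int.emod_lt_abs _ hV).le
      refine (Finset.sum_le_sum h6).trans (le_of_eq ?_)
      rw [Finset.sum_const, Finset.card_univ, Fintype.card_fin, nsmul_eq_mul]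
      ring
    exact le_of_mul_le_mul_left h5 hpos
  let N := LinearMap.range (Matrix.toLin' V)
  have hmk : ∀ x, N.mkQ (red x) = N.mkQ x := by
    intro x
    rw [Submodule.mkQ_apply, Submodule.mkQ_apply, Submodule.Quotient.eq]
    refine ⟨-fun j => (V.adjugate *ᵥ x) j / Δ, ?_⟩
    simp only [red]
    rw [map_neg, Matrix.toLin'_apply]
    abel
  have ha : 0 ≤ s * R / μ := by positivity
  let B := Fintype.piFinset fun _ : κ => Finset.Icc ⌊-(s * R / μ)⌋ ⌊s * R / μ⌋
  have hsurj := N.mkQ_surjective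
  choose out hout using hsurj
  let F : ((Fin s → ℤ) ⧸ N) → B := fun q => ⟨fun k => ⌊f (red (out q)) k / μ⌋, by
    rw [Fintype.mem_piFinset]
    intro k
    have h1 : |f (red (out q)) k| ≤ s * R :=
      ((Real.norm_eq_abs _).symm.le.trans (norm_le_pi_norm _ k)).trans (hred _)
    rw [abs_le] at h1
    rw [Finset.mem_Icc]
    refine ⟨Int.floor_le_floor ?_, Int.floor_le_floor ?_⟩
    · rw [← neg_div]
      exact div_le_div_of_nonneg_right h1.1 hμ.le
    · exact div_le_div_of_nonneg_right h1.2 hμ.le⟩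
  have hF : Function.Injective F := by
    intro q q' hq
    have h1 : ∀ k, ⌊f (red (out q)) k / μ⌋ = ⌊f (red (out q')) k / μ⌋ := fun k =>
      congrFun (congrArg Subtype.val hq) k
    have h2 : ‖f (red (out q) - red (out q'))‖ < μ := by
      rw [pi_norm_lt_iff hμ]
      intro k
      have h3 := Int.abs_sub_lt_one_of_floor_eq_floor (h1 k)
      rw [← sub_div, abs_div, abs_of_pos hμ, div_lt_one hμ] at h3
      rw [map_sub, Real.norm_eq_abs]
      exact h3
    have h4 : red (out q) - red (out q') = 0 := by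
      by_contra h
      exact absurd (hsep _ h) (not_le.2 h2)
    rw [← hout q, ← hout q', ← hmk (out q), ← hmk (out q'), sub_eq_zero.1 h4]
  have h1 := Nat.card_le_card_of_injective F hF
  rw [card_quot V hV, Nat.card_eq_fintype_card, Fintype.card_coe] at h1
  refine le_trans ?_ (card_box κ _ ha)
  rw [← Int.cast_abs, ← Int.natCast_natAbs, Int.cast_natCast]
  exact_mod_cast h1

end Lat

open _root_.Pool.Agent.P.MP_657a03_nt.Lat in
theorem lat : S_LAT := by
  classical
  intro G _ r κ _ θ ℓ ι L g μ R hμ hR h0 hsep hg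
  let N : Submodule ℤ (Fin r → ℤ) := Submodule.span ℤ ((fun l => θ (g l)) '' (L : Set ι))
  let M : Submodule ℤ (Fin r → ℤ) :=
    { carrier := {v | (∃ y, θ y = v) ∧ ∃ m : ℤ, m ≠ 0 ∧ m • v ∈ N}
      add_mem' := by
        rintro v w ⟨⟨y, rfl⟩, m, hm, hv⟩ ⟨⟨y', rfl⟩, m', hm', hw⟩
        refine ⟨⟨y + y', map_add _ _ _⟩, m * m', mul_ne_zero hm hm', ?_⟩
        rw [smul_add]
        refine N.add_mem ?_ ?_
        · rw [mul_comm, mul_smul]
          exact N.smul_mem _ hv
        · rw [mul_smul]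
          exact N.smul_mem _ hw
      zero_mem' := ⟨⟨0, map_zero _⟩, 1, one_ne_zero, by simp⟩
      smul_mem' := by
        rintro c v ⟨⟨y, rfl⟩, m, hm, hv⟩
        refine ⟨⟨c • y, map_zsmul _ _ _⟩, m, hm, ?_⟩
        rw [smul_comm]
        exact N.smul_mem _ hv }
  let s := finrank ℤ M
  let b : Basis (Fin s) ℤ M := Module.finBasis ℤ M
  have hs : s ≤ r := by
    have := Submodule.finrank_le M
    simpa using this
  have hγ : ∀ j, ∃ y, θ y = (b j : Fin r → ℤ) := fun j => (b j).2.1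
  choose γ hγ using hγ
  let Y : (Fin s → ℤ) →+ G :=
    { toFun := fun x => ∑ j, x j • γ j
      map_zero' := by simp
      map_add' := fun x x' => by simp [add_smul, Finset.sum_add_distrib] }
  have hY : ∀ x, θ (Y x) = ∑ j, x j • θ (γ j) := by
    intro x
    change θ (∑ j, x j • γ j) = _
    rw [map_sum]
    exact Finset.sum_congr rfl fun j _ => map_zsmul _ _ _
  have hinj : ∀ x, θ (Y x) = 0 → x = 0 := by
    intro x hx
    rw [hY] at hx
    have h1 : ∑ j, x j • b j = 0 := by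
      apply Subtype.ext
      rw [Submodule.coe_sum]
      simpa [hγ] using hx
    ext j
    exact Fintype.linearIndependent_iff.1 b.linearIndependent x h1 j
  have hco : ∀ v, v ∈ M → ∃ x, θ (Y x) = v := by
    intro v hv
    refine ⟨b.repr ⟨v, hv⟩, ?_⟩
    have h1 := congrArg Subtype.val (b.sum_repr ⟨v, hv⟩)
    rw [Submodule.coe_sum] at h1
    rw [hY]
    simpa [hγ] using h1
  have hgN : ∀ l ∈ L, θ (g l) ∈ N := fun l hl => Submodule.subset_span ⟨l, hl, rfl⟩
  have hz : ∀ l, ∃ x, l ∈ L → θ (Y x) = θ (g l) := by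
    intro l
    by_cases hl : l ∈ L
    · obtain ⟨x, hx⟩ := hco (θ (g l)) ⟨⟨g l, rfl⟩, 1, one_ne_zero, by simpa using hgN l hl⟩
      exact ⟨x, fun _ => hx⟩
    · exact ⟨0, fun h => absurd h hl⟩
  choose z hz using hz
  have hspan : ∀ j : Fin s, ∃ m : ℤ, m ≠ 0 ∧ ∃ c : ι → ℤ,
      ∑ l ∈ L, c l • z l = m • (Pi.single j 1 : Fin s → ℤ) := by
    intro j
    obtain ⟨m, hm, hb⟩ := (b j).2.2
    obtain ⟨c, hc⟩ := (Submodule.mem_span_image_finset_iff_exists_fun' ℤ).1 hb
    refine ⟨m, hm, c, ?_⟩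
    rw [← sub_eq_zero]
    apply hinj
    rw [map_sub, map_sub, map_sum, map_sum, map_zsmul, map_zsmul, sub_eq_zero]
    have h1 : θ (Y (Pi.single j 1)) = b j := by
      rw [hY, Finset.sum_eq_single j]
      · simp [hγ]
      · intro k _ hk
        simp [Pi.single_eq_of_ne hk]
      · simp
    rw [h1, ← hc]
    refine Finset.sum_congr rfl fun l hl => ?_
    rw [map_zsmul, map_zsmul, hz l hl]
  obtain ⟨v0, hv0, hd0⟩ := exists_det_ne L z hspan
  obtain ⟨v, hv, hmax⟩ := Finset.exists_max_image (Fintype.piFinset fun _ : Fin s => L)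
    (fun v => |(cols z v).det|) ⟨v0, hv0⟩
  have hd : (cols z v).det ≠ 0 := by
    intro h
    have h1 := hmax v0 hv0
    rw [h, abs_zero] at h1
    exact hd0 (abs_nonpos_iff.1 h1)
  have hvL : ∀ j, v j ∈ L := Fintype.mem_piFinset.1 hv
  have hbound := det_le (cols z v) hd (ℓ.comp Y) μ R hμ hR
    (fun x hx => hsep _ fun h => hx (hinj x h)) (fun j => by
      have h1 : ℓ (Y (z (v j)) - g (v j)) = 0 := h0 _ (by rw [map_sub, hz _ (hvL j), sub_self])
      rw [map_sub, sub_eq_zero] at h1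
      change ‖ℓ (Y (z (v j)))‖ ≤ R
      rw [h1]
      exact hg _ (hvL j))
  refine ⟨s, γ, z, (cols z v).adjugate, cols z v, (cols z v).det, hs, hd,
    Matrix.mul_adjugate _, fun l hl j => ?_, fun l hl => by rw [← hY, hz l hl], ?_⟩
  · rw [← Matrix.cramer_eq_adjugate_mulVec, Matrix.cramer_apply, cols_update]
    have h1 := hmax (Function.update v j l) (by
      rw [Fintype.mem_piFinset]
      intro k
      by_cases hk : k = j
      · subst hk
        simpa using hl
      · simpa [Function.update_of_ne hk] using hvL k)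
    have h2 : (|((cols z (Function.update v j l)).det : ℝ)|) ≤ |((cols z v).det : ℝ)| := by
      exact_mod_cast h1
    refine h2.trans (hbound.trans (pow_le_pow_left₀ (by positivity) ?_ _))
    have h3 : (s : ℝ) * R / μ ≤ r * R / μ :=
      div_le_div_of_nonneg_right (mul_le_mul_of_nonneg_right (by exact_mod_cast hs) hR) hμ.le
    have h4 : 2 * (r : ℝ) * R / μ = 2 * (r * R / μ) := by ring
    linarith
  · intro k y hk l hl l' hl' h
    obtain ⟨x, hx⟩ := hco (θ y) ⟨⟨y, rfl⟩, k, by exact_mod_cast hk, by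
      rw [natCast_zsmul, ← map_nsmul, h, map_sub]
      exact N.sub_mem (hgN l hl) (hgN l' hl')⟩
    refine ⟨x, ?_, by rw [← hY, hx]⟩
    rw [← sub_eq_zero]
    apply hinj
    rw [map_sub, map_sub, map_sub, map_sub, map_nsmul, map_nsmul, hx, hz l hl, hz l' hl',
      ← map_nsmul, h, map_sub, sub_self]

end Pool.Agent.P.MP_657a03_nt
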