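import Pool.Agent.P.MP_657a03_nt.Iface

set_option autoImplicit false

open NumberField NumberField.Units Module

namespace Pool.Agent.P.MP_657a03_nt

namespace FieldK

/-- A product of integer powers is a product of a subset of the generators times a square. -/
theorem split_sq {G : Type} [CommGroup G] {σ : Type} [Fintype σ] (g : σ → G) (n : σ → ℤ) :
    ∃ (s : σ → Fin 2) (v : G), ∏ i, g i ^ n i = (∏ i, g i ^ (s i : ℕ)) * v ^ 2 := by
  refine ⟨fun i => ⟨(n i % 2).toNat, by omega⟩, ∏ i, g i ^ (n i / 2), ?_⟩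
  rw [← Finset.prod_pow, ← Finset.prod_mul_distrib]
  refine Finset.prod_congr rfl fun i _ => ?_
  rw [← zpow_natCast, ← zpow_natCast, ← zpow_mul, ← zpow_add]
  congr 1
  push_cast
  omega

variable {K : Type} [Field K] [NumberField K]

/-- The map from units of the ring of integers to units of the field. -/
noncomputable def um (K : Type) [Field K] : (𝓞 K)ˣ →* Kˣ :=
  Units.map (algebraMap (𝓞 K) K : 𝓞 K →* K)

theorem um_val (u : (𝓞 K)ˣ) : ((um K u : Kˣ) : K) = ((u : 𝓞 K) : K) := rfl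

theorem unit_of_pow (y : Kˣ) (e : ℕ) (he : e ≠ 0) (u : (𝓞 K)ˣ) (h : y ^ e = um K u) :
    ∃ w : (𝓞 K)ˣ, y = um K w := by
  have key : ∀ (y : Kˣ) (u : (𝓞 K)ˣ), y ^ e = um K u → IsIntegral ℤ (y : K) := by
    intro y u h
    have h1 : (y : K) ^ e = ((u : 𝓞 K) : K) := by
      rw [← um_val, ← h, Units.val_pow_eq_pow_val]
    refine IsIntegral.of_pow (Nat.pos_of_ne_zero he) ?_
    rw [h1]
    exact (u : 𝓞 K).isIntegral_coe
  have h1 := key y u h
  have h2 := key y⁻¹ u⁻¹ (by rw [inv_pow, h, map_inv])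
  refine ⟨⟨⟨y, h1⟩, ⟨(y⁻¹ : Kˣ), h2⟩, ?_, ?_⟩, ?_⟩
  · apply RingOfIntegers.ext
    change (y : K) * ((y⁻¹ : Kˣ) : K) = 1
    simp
  · apply RingOfIntegers.ext
    change ((y⁻¹ : Kˣ) : K) * (y : K) = 1
    simp
  · ext
    rfl

theorem gens (η : Kˣ) (e : ℕ) (he : e ≠ 0) :
    ∃ g : Option (Option (Fin (rank K))) → Kˣ, ∀ (y : Kˣ) (u : (𝓞 K)ˣ) (l : ℤ),
      y ^ e = um K u * η ^ l → ∃ n : Option (Option (Fin (rank K))) → ℤ, y = ∏ i, g i ^ n i := by
  let H : AddSubgroup ℤ :=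
    { carrier := {l | ∃ (y : Kˣ) (u : (𝓞 K)ˣ), y ^ e = um K u * η ^ l}
      zero_mem' := ⟨1, 1, by simp⟩
      add_mem' := by
        rintro a b ⟨y, u, h⟩ ⟨y', u', h'⟩
        refine ⟨y * y', u * u', ?_⟩
        rw [mul_pow, h, h', map_mul, zpow_add]
        simp only [mul_assoc, mul_left_comm]
      neg_mem' := by
        rintro a ⟨y, u, h⟩
        refine ⟨y⁻¹, u⁻¹, ?_⟩
        rw [inv_pow, h, map_inv, zpow_neg, mul_inv] }
  obtain ⟨l0, hl0⟩ := Int.subgroup_cyclic H
  have hmem : l0 ∈ H := by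
    rw [hl0]
    exact AddSubgroup.subset_closure rfl
  obtain ⟨y0, u0, h0⟩ := hmem
  obtain ⟨ζ, hζ⟩ := IsCyclic.exists_generator (α := torsion K)
  refine ⟨fun i => i.elim y0 (fun j => j.elim (um K ζ) (fun k => um K (fundSystem K k))), ?_⟩
  intro y u l h
  have hl : l ∈ H := ⟨y, u, h⟩
  rw [hl0, AddSubgroup.mem_closure_singleton] at hl
  obtain ⟨k, hk⟩ := hl
  have h1 : (y * (y0 ^ k)⁻¹) ^ e = um K (u * (u0 ^ k)⁻¹) := by
    have h2 : (y0 ^ k) ^ e = um K (u0 ^ k) * η ^ l := by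
      rw [← zpow_natCast, ← zpow_mul, mul_comm k, zpow_mul, zpow_natCast, h0, mul_zpow, map_zpow,
        ← zpow_mul, ← hk, smul_eq_mul, mul_comm k]
    rw [mul_pow, inv_pow, h, h2, map_mul, map_inv, mul_inv, mul_mul_mul_comm, mul_inv_cancel,
      mul_one]
  obtain ⟨w, hw⟩ := unit_of_pow _ e he _ h1
  obtain ⟨⟨t, c⟩, hc, -⟩ := exist_unique_eq_mul_prod K w
  obtain ⟨a, ha⟩ := hζ t
  refine ⟨fun i => i.elim k (fun j => j.elim a c), ?_⟩
  have h3 : y = y0 ^ k * um K w := by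
    rw [← hw, mul_comm y, ← mul_assoc, mul_inv_cancel, one_mul]
  have h4 : ((t : torsion K) : (𝓞 K)ˣ) = (ζ : (𝓞 K)ˣ) ^ a := by
    rw [← ha]
    rfl
  rw [Fintype.prod_option, Fintype.prod_option, h3, hc]
  simp only [Option.elim, map_mul, map_prod, map_zpow, h4]

end FieldK

open FieldK in
theorem fieldK : S_FIELD := by
  intro p _ K _ _ ι η e hη he
  letI : Algebra K ℚ_[p] := ι.toAlgebra
  have hι : ∀ y, algebraMap K ℚ_[p] y = ι y := fun _ => rfl
  have hη' : (η : K) ≠ 0 := by exact_mod_cast hη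
  obtain ⟨g, hg⟩ := gens (Units.mk0 (η : K) hη') e he
  let Q : Submonoid ℚ_[p] :=
    { carrier := {q | ∃ (y : K) (u : (𝓞 K)ˣ) (l : ℤ),
        y ^ e = ((u : 𝓞 K) : K) * (η : K) ^ l ∧ q ^ 2 = ι y}
      one_mem' := ⟨1, 1, 0, by simp, by simp⟩
      mul_mem' := by
        rintro a b ⟨y, u, l, h, hq⟩ ⟨y', u', l', h', hq'⟩
        refine ⟨y * y', u * u', l + l', ?_, ?_⟩
        · rw [mul_pow, h, h', zpow_add₀ hη']
          push_cast
          ring
        · rw [mul_pow, hq, hq', map_mul] }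
  let ρ : (Option (Option (Fin (rank K))) → Fin 2) → K :=
    fun s => ((∏ i, g i ^ (s i : ℕ) : Kˣ) : K)
  have ht : ∀ s, ∃ t : ℚ_[p], (∃ q : ℚ_[p], q ^ 2 = ι (ρ s)) → t ^ 2 = ι (ρ s) := by
    intro s
    by_cases h : ∃ q : ℚ_[p], q ^ 2 = ι (ρ s)
    · obtain ⟨q, hq⟩ := h
      exact ⟨q, fun _ => hq⟩
    · exact ⟨0, fun h' => absurd h' h⟩
  choose t ht using ht
  have hQ : (Q : Set ℚ_[p]) ⊆ Submodule.span K (Set.range t) := by
    rintro q ⟨y, u, l, h, hq⟩
    have hy : y ≠ 0 := by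
      intro hy
      rw [hy, zero_pow he] at h
      exact mul_ne_zero (um K u).ne_zero (zpow_ne_zero l hη') h.symm
    obtain ⟨n, hn⟩ := hg (Units.mk0 y hy) u l (by
      ext
      simpa [um_val] using h)
    obtain ⟨s, v, hs⟩ := split_sq g n
    have h1 : y = ρ s * (v : K) ^ 2 := by
      have := congrArg (Units.val) (hn.trans hs)
      simpa [ρ] using this
    have hv : ι v ≠ 0 := (map_ne_zero ι).2 v.ne_zero
    have h2 : (q / ι v) ^ 2 = ι (ρ s) := by
      rw [div_pow, hq, h1, map_mul, map_pow]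
      field_simp
    have h3 := ht s ⟨_, h2⟩
    have h4 : t s ∈ Submodule.span K (Set.range t) := Submodule.subset_span ⟨s, rfl⟩
    rcases sq_eq_sq_iff_eq_or_eq_neg.1 (h2.trans h3.symm) with h5 | h5
    · have : q = (v : K) • t s := by
        rw [Algebra.smul_def, hι, ← h5]
        field_simp
      rw [this]
      exact Submodule.smul_mem _ _ h4
    · have : q = (-(v : K)) • t s := by
        rw [Algebra.smul_def, hι, map_neg, neg_mul, ← mul_neg, ← h5]
        field_simp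
      rw [this]
      exact Submodule.smul_mem _ _ h4
  have halg : ∀ q ∈ (Q : Set ℚ_[p]), IsAlgebraic K q := by
    rintro q ⟨y, u, l, -, hq⟩
    refine IsAlgebraic.of_pow (n := 2) (by norm_num) ?_
    rw [hq, ← hι]
    exact isAlgebraic_algebraMap y
  let E : IntermediateField K ℚ_[p] := IntermediateField.adjoin K (Q : Set ℚ_[p])
  have hE : Subalgebra.toSubmodule E.toSubalgebra ≤ Submodule.span K (Set.range t) := by
    rw [IntermediateField.adjoin_toSubalgebra_of_isAlgebraic halg, Algebra.adjoin_eq_span,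
      Submonoid.closure_eq]
    exact Submodule.span_le.2 hQ
  haveI hfin : Module.Finite K (Submodule.span K (Set.range t)) :=
    Module.Finite.span_of_finite K (Set.finite_range t)
  haveI hfinE : Module.Finite K E :=
    Submodule.finiteDimensional_of_le hE
  have hrank : finrank K E ≤ 2 ^ (rank K + 2) := by
    have h1 : finrank K (Subalgebra.toSubmodule E.toSubalgebra) ≤
        finrank K (Submodule.span K (Set.range t)) := Submodule.finrank_mono hE
    have h2 := finrank_range_le_card (R := K) t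
    rw [Set.finrank] at h2
    have h3 : Fintype.card (Option (Option (Fin (rank K))) → Fin 2) = 2 ^ (rank K + 2) := by
      simp
    exact h1.trans (h3 ▸ h2)
  refine ⟨E, inferInstance, NumberField.of_module_finite K E, inferInstance,
    (E.val : E →+* ℚ_[p]), hrank, fun y => rfl, ?_⟩
  intro y u l q h hq
  exact ⟨⟨q, IntermediateField.subset_adjoin K _ ⟨y, u, l, h, hq⟩⟩, rfl⟩

end Pool.Agent.P.MP_657a03_nt
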