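import Pool.Agent.P.MP_657a03_nt.Iface

/-! Small lemmas for the main induction. -/

set_option autoImplicit false

open NumberField NumberField.Units Module Real Matrix Finset

namespace Pool.Agent.P.MP_657a03_nt.MainA

theorem wd_nil {ι : Type} {s : ℕ} (F : ι → Fin s → ℤ) (x : ι) : wd F [] x = 1 := by simp [wd]

theorem wd_cons {ι : Type} {s : ℕ} (F : ι → Fin s → ℤ) (k : Fin s) (f : List (Fin s)) (x : ι) :
    wd F (k :: f) x = F x k * wd F f x := by simp [wd]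

theorem abs_wd_le {ι : Type} {s : ℕ} (F : ι → Fin s → ℤ) (x : ι) (J : ℕ) (hJ : 1 ≤ J)
    (h : ∀ j, |F x j| ≤ J) (T : ℕ) (f : List (Fin s)) (hf : f.length ≤ T) :
    |wd F f x| ≤ (J : ℤ) ^ T := by
  have h1 : |wd F f x| ≤ (J : ℤ) ^ f.length := by
    clear hf
    induction f with
    | nil => simp [wd_nil]
    | cons k f ih =>
      rw [wd_cons, abs_mul, List.length_cons, pow_succ']
      exact mul_le_mul (h k) ih (abs_nonneg _) (by positivity)
  exact h1.trans (pow_le_pow_right₀ (by exact_mod_cast hJ) hf)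

/-- Change of affine coordinates. -/
theorem trans {ι A : Type} [CommRing A] (𝔍 : Ideal A) {s : ℕ} (L : Finset ι)
    (F G : ι → Fin s → ℤ) (Δ : ℤ) (β0 : Fin s → ℤ) (β : Matrix (Fin s) (Fin s) ℤ)
    (h : ∀ x ∈ L, Δ • G x = β0 + β *ᵥ F x) (g : List (Fin s)) :
    ∀ (T : ℕ) (a : ι → A), (∀ f : List (Fin s), f.length ≤ T →
      ∑ x ∈ L, a x * (wd F f x : ℤ) ∈ 𝔍) → g.length ≤ T →
      (Δ : A) ^ g.length * ∑ x ∈ L, a x * (wd G g x : ℤ) ∈ 𝔍 := by
  induction g with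
  | nil =>
    intro T a ha _
    simpa [wd_nil] using ha [] (Nat.zero_le _)
  | cons k g ih =>
    intro T a ha hT
    obtain ⟨T, rfl⟩ : ∃ T', T = T' + 1 := ⟨T - 1, by simp at hT; omega⟩
    have hT' : g.length ≤ T := by simpa using hT
    have e : (Δ : A) ^ (k :: g).length * ∑ x ∈ L, a x * (wd G (k :: g) x : ℤ) =
        (β0 k : A) * ((Δ : A) ^ g.length * ∑ x ∈ L, a x * (wd G g x : ℤ)) +
        ∑ j, (β k j : A) * ((Δ : A) ^ g.length *
          ∑ x ∈ L, (a x * (F x j : ℤ)) * (wd G g x : ℤ)) := by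
      simp only [mul_sum]
      rw [sum_comm (s := univ), ← sum_add_distrib]
      refine sum_congr rfl fun x hx => ?_
      have h1 := congrFun (h x hx) k
      simp only [Pi.smul_apply, smul_eq_mul, Pi.add_apply, mulVec, dotProduct] at h1
      have h2 : (Δ : A) * (G x k : ℤ) = (β0 k : A) + ∑ j, (β k j : A) * (F x j : ℤ) := by
        exact_mod_cast congrArg (Int.cast : ℤ → A) h1
      have h3 : ∑ j, (β k j : A) * ((Δ : A) ^ g.length * (a x * (F x j : ℤ) * (wd G g x : ℤ))) =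
          (∑ j, (β k j : A) * (F x j : ℤ)) * ((Δ : A) ^ g.length * (a x * (wd G g x : ℤ))) := by
        rw [sum_mul]
        exact sum_congr rfl fun j _ => by ring
      rw [h3, ← add_mul, ← h2, wd_cons, List.length_cons]
      push_cast
      ring
    rw [e]
    refine 𝔍.add_mem (𝔍.mul_mem_left _ (ih (T + 1) a ha (by omega))) (𝔍.sum_mem fun j _ => ?_)
    refine 𝔍.mul_mem_left _ (ih T _ (fun f hf => ?_) hT')
    have := ha (j :: f) (by simpa using hf)
    simpa [wd_cons, mul_assoc] using this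

open Polynomial in
theorem tr0 {K E : Type} [Field K] [Field E] [Algebra K E] [FiniteDimensional K E] {x : E}
    {a : K} (hx : x ^ 2 = algebraMap K E a) (hn : x ∉ (algebraMap K E).range) :
    Algebra.trace K E x = 0 := by
  have ha : ∀ y : K, y ^ 2 ≠ a := by
    intro y hy
    rw [← hy, map_pow, sq_eq_sq_iff_eq_or_eq_neg] at hx
    rcases hx with hx | hx
    · exact hn ⟨y, hx.symm⟩
    · exact hn ⟨-y, by rw [map_neg, hx]⟩
  have e : X ^ 2 - C a = minpoly K x :=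
    minpoly.eq_of_irreducible_of_monic (X_pow_sub_C_irreducible_of_prime Nat.prime_two ha)
      (by simp [hx]) (monic_X_pow_sub_C a two_ne_zero)
  rw [trace_eq_finrank_mul_minpoly_nextCoeff, ← e,
    nextCoeff_of_natDegree_pos (by rw [natDegree_X_pow_sub_C]; omega), natDegree_X_pow_sub_C,
    coeff_sub, coeff_X_pow, coeff_C, if_neg (by omega), if_neg (by omega)]
  simp

open Polynomial in
theorem exists_sqrt {p : ℕ} [Fact p.Prime] (hp : p ≠ 2) (y : ℤ_[p]) (hy : ‖y - 1‖ < 1) :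
    ∃ q : ℤ_[p], q ^ 2 = y ∧ ‖q - 1‖ < 1 := by
  have h2 : ‖(2 : ℤ_[p])‖ = 1 := by
    have : ¬ ‖((2 : ℤ) : ℤ_[p])‖ < 1 := by
      rw [PadicInt.norm_int_lt_one_iff_dvd]
      intro h
      have h' : p ∣ 2 := by exact_mod_cast h
      exact hp ((Nat.prime_dvd_prime_iff_eq Fact.out Nat.prime_two).mp h')
    have h1 := PadicInt.norm_le_one ((2 : ℤ) : ℤ_[p])
    push_cast at this h1
    linarith [not_lt.mp this]
  have hd : (derivative (X ^ 2 - C y : ℤ_[p][X])).aeval (1 : ℤ_[p]) = 2 := by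
    simp; norm_num
  obtain ⟨z, hz, hz1, -⟩ := hensels_lemma (F := (X ^ 2 - C y : ℤ_[p][X])) (a := (1 : ℤ_[p])) (by
    rw [hd, h2]
    simpa [norm_sub_rev] using hy)
  rw [hd, h2] at hz1
  refine ⟨z, ?_, hz1⟩
  simpa [sub_eq_zero] using hz

theorem dvd_red {p : ℕ} [Fact p.Prime] (N : ℕ) (q : ℤ_[p]) (hq : ‖q - 1‖ < 1) :
    (p : ZMod (p ^ N)) ∣ PadicInt.toZModPow N q - 1 := by
  obtain ⟨t, ht⟩ := (PadicInt.norm_lt_one_iff_dvd _).mp hq
  refine ⟨PadicInt.toZModPow N t, ?_⟩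
  have := congrArg (PadicInt.toZModPow N) ht
  simpa using this

theorem norm_le_of_dvd {p : ℕ} [Fact p.Prime] {N M : ℕ} (hM : M ≤ N) (y : ℤ_[p])
    (h : (p : ZMod (p ^ N)) ^ M ∣ PadicInt.toZModPow N y) : ‖y‖ ≤ (p : ℝ) ^ (-(M : ℤ)) := by
  obtain ⟨t, ht⟩ := h
  obtain ⟨t, rfl⟩ := ZMod.natCast_zmod_surjective t
  have h1 : y - (p : ℤ_[p]) ^ M * t ∈ RingHom.ker (PadicInt.toZModPow N) := by
    simp [RingHom.mem_ker, ht]
  rw [PadicInt.ker_toZModPow, Ideal.mem_span_singleton] at h1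
  rw [PadicInt.norm_le_pow_iff_mem_span_pow, Ideal.mem_span_singleton]
  have h2 : (p : ℤ_[p]) ^ M ∣ y - (p : ℤ_[p]) ^ M * t := (pow_dvd_pow _ hM).trans h1
  simpa using dvd_add h2 (dvd_mul_right ((p : ℤ_[p]) ^ M) t)

end Pool.Agent.P.MP_657a03_nt.MainA
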