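import Pool.Agent.P.MP_657a03_nt.Iface

/-!
Divisibility of the norm and the Liouville inequality at one prime of degree one.
-/

set_option autoImplicit false

open NumberField NumberField.Units Module Real Matrix

namespace Pool.Agent.P.MP_657a03_nt

namespace Liou

lemma norm_le_one (p : ℕ) [Fact p.Prime] (K : Type) [Field K] [NumberField K] (ι : K →+* ℚ_[p])
    (x : 𝓞 K) : ‖ι (x : K)‖ ≤ 1 := by
  have h1 : IsIntegral ℤ (ι (x : K)) := x.isIntegral_coe.map ι.toIntAlgHom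
  have h2 : IsIntegral ℤ_[p] (ι (x : K)) := h1.tower_top
  obtain ⟨y, hy⟩ := IsIntegrallyClosed.isIntegral_iff.1 h2
  rw [← hy]
  exact y.2

lemma prod_emb (K : Type) [Field K] [NumberField K] (x : K) :
    ∏ φ : K →+* ℂ, ‖φ x‖ = |((Algebra.norm ℚ x : ℚ) : ℝ)| := by
  have h := congr_arg (‖·‖) (Algebra.norm_eq_prod_embeddings ℚ ℂ x)
  rw [norm_prod, ← Fintype.prod_equiv (RingHom.equivRatAlgHom K ℂ) (fun f => ‖f x‖)
      (fun φ => ‖φ x‖) fun _ => by simp [RingHom.equivRatAlgHom_apply]] at h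
  rw [← h, eq_ratCast, ← Real.norm_eq_abs, ← Complex.norm_real, Complex.ofReal_ratCast]

open Classical in
lemma card_fibre (K K' : Type) [Field K] [NumberField K] [Field K'] [NumberField K']
    [Algebra K K'] (ψ : K →+* ℂ) :
    (Finset.univ.filter fun φ : K' →+* ℂ => φ.comp (algebraMap K K') = ψ).card = finrank K K' := by
  let _ : Algebra K ℂ := ψ.toAlgebra
  have : Module.Finite K K' := Module.Finite.of_restrictScalars_finite ℚ K K'
  rw [← AlgHom.card K K' ℂ, ← Finset.card_univ]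
  symm
  refine Finset.card_bij (fun f _ => (f : K' →+* ℂ)) ?_ ?_ ?_
  · intro f _
    simp only [Finset.mem_filter, Finset.mem_univ, true_and]
    ext a
    exact f.commutes a
  · intro f _ g _ h
    ext a
    exact RingHom.congr_fun h a
  · intro φ hφ
    have h := (Finset.mem_filter.1 hφ).2
    exact ⟨{ φ with commutes' := fun a => RingHom.congr_fun h a }, Finset.mem_univ _, rfl⟩

end Liou

theorem dvd : S_DVD := by
  intro p _ K _ _ ι x
  refine ⟨Liou.norm_le_one p K ι x, fun M hM => ?_⟩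
  have h1 := Ideal.absNorm_mem (Ideal.span {x})
  rw [Ideal.absNorm_span_singleton] at h1
  obtain ⟨a, ha⟩ := Ideal.mem_span_singleton'.1 h1
  have h2 : ι (a : K) * ι (x : K) = (((Algebra.norm ℤ x).natAbs : ℤ) : ℚ_[p]) := by
    have h3 := congrArg (fun z : 𝓞 K => ι (z : K)) ha
    simpa using h3
  have h4 : ‖(((Algebra.norm ℤ x).natAbs : ℤ) : ℚ_[p])‖ ≤ (p : ℝ) ^ (-(M : ℤ)) := by
    rw [← h2, norm_mul]
    calc ‖ι (a : K)‖ * ‖ι (x : K)‖ ≤ 1 * ‖ι (x : K)‖ :=
          mul_le_mul_of_nonneg_right (Liou.norm_le_one p K ι a) (norm_nonneg _)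
      _ ≤ _ := by rw [one_mul]; exact hM
  exact Int.dvd_natAbs.1 ((Padic.norm_int_le_pow_iff_dvd _ _).1 h4)

theorem liou (h : S_DVD) : S_LIOU := by
  classical
  intro p _ K K' _ _ _ _ _ ι' y M G hy hM hG hlt
  by_contra hne
  let z : 𝓞 K' := ⟨y, hy⟩
  have hz : (z : K') = y := rfl
  have hz0 : z ≠ 0 := fun e => hne (by rw [← hz, e]; simp)
  have hd := (h p K' ι' z).2 M (by rw [hz]; exact hM)
  have hN : Algebra.norm ℤ z ≠ 0 := Algebra.norm_ne_zero_iff.2 hz0
  have h1 : (p : ℤ) ^ M ≤ |Algebra.norm ℤ z| :=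
    Int.le_of_dvd (abs_pos.2 hN) ((dvd_abs _ _).2 hd)
  have h2 : (p : ℝ) ^ M ≤ |((Algebra.norm ℚ y : ℚ) : ℝ)| := by
    rw [← hz, ← Algebra.coe_norm_int, Rat.cast_intCast]
    exact_mod_cast h1
  rw [← Liou.prod_emb] at h2
  have h3 : ∏ φ : K' →+* ℂ, ‖φ y‖ ≤ ∏ φ : K' →+* ℂ, G (φ.comp (algebraMap K K')) :=
    Finset.prod_le_prod (fun _ _ => norm_nonneg _) fun φ _ => hG φ
  have h4 : ∏ φ : K' →+* ℂ, G (φ.comp (algebraMap K K')) = (∏ φ, G φ) ^ finrank K K' := by
    rw [← Finset.prod_fiberwise' Finset.univ (fun φ : K' →+* ℂ => φ.comp (algebraMap K K')) G,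
      ← Finset.prod_pow]
    refine Finset.prod_congr rfl fun ψ _ => ?_
    rw [Finset.prod_const, Liou.card_fibre]
  linarith

end Pool.Agent.P.MP_657a03_nt
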