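import Pool.Agent.P.MP_657a03_nt.MainB

/-! Counting integers of bounded house, and Siegel's lemma. -/

set_option autoImplicit false

open NumberField NumberField.Units Module Real Finset

namespace Pool.Agent.P.MP_657a03_nt

theorem countB : S_COUNT := by
  intro K _ _ X F hX hF
  classical
  set m : ℕ := ⌊2 * X⌋₊ + 1 with hm
  have hm1 : 2 * X < m := by rw [hm]; push_cast; exact Nat.lt_floor_add_one _
  have hm2 : (m : ℝ) ≤ 2 * X + 1 := by
    rw [hm]; push_cast; linarith [Nat.floor_le (by positivity : 0 ≤ 2 * X)]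
  have hm0 : (0 : ℝ) < m := by linarith
  have hm0' : (m : 𝓞 K) ≠ 0 := by exact_mod_cast (by omega : m ≠ 0)
  set I : Ideal (𝓞 K) := Ideal.span {(m : 𝓞 K)} with hI
  have hN : Ideal.absNorm I = m ^ finrank ℚ K := by
    rw [hI, Ideal.absNorm_span_singleton, ← map_natCast (algebraMap ℤ (𝓞 K)),
      Algebra.norm_algebraMap, RingOfIntegers.rank, Int.natAbs_pow, Int.natAbs_natCast]
  have hfin : Finite (𝓞 K ⧸ I) := Ideal.finiteQuotientOfFreeOfNeBot I (by simpa [hI] using hm0')
  have hinj : Set.InjOn (Ideal.Quotient.mk I) F := by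
    intro x hx y hy h
    rw [Ideal.Quotient.eq, hI, Ideal.mem_span_singleton] at h
    obtain ⟨z, hz⟩ := h
    by_contra hne
    have hz0 : z ≠ 0 := by rintro rfl; exact hne (sub_eq_zero.mp (by simpa using hz))
    have h1 := MainB.sum_log_nonneg z hz0
    refine absurd h1 (not_le.mpr (sum_neg (fun φ _ => ?_) univ_nonempty))
    have h2 : φ (x : K) - φ (y : K) = m * φ (z : K) := by
      have := congrArg (fun t : 𝓞 K => φ (t : K)) hz
      simpa using this
    have h3 : (m : ℝ) * ‖φ (z : K)‖ ≤ X + X := by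
      have := (norm_sub_le (φ (x : K)) (φ (y : K))).trans (add_le_add (hF x hx φ) (hF y hy φ))
      rwa [h2, norm_mul, Complex.norm_natCast] at this
    refine log_neg (by simpa using hz0) ?_
    nlinarith
  have h1 : F.card ≤ m ^ finrank ℚ K := by
    rw [← hN, Ideal.absNorm_apply, Submodule.cardQuot_apply, ← card_image_of_injOn hinj]
    have := Fintype.ofFinite (𝓞 K ⧸ I)
    rw [Nat.card_eq_fintype_card]
    exact card_le_univ _
  calc (F.card : ℝ) ≤ (m : ℝ) ^ finrank ℚ K := by exact_mod_cast h1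
    _ ≤ _ := by gcongr

theorem siegelB (h : S_COUNT) : S_SIEGEL := by
  intro K _ _ ι κ L E a Z U C hZ hU hL ha hcard hC
  classical
  have hL1 : (1 : ℝ) ≤ L.card := by exact_mod_cast hL
  have hC1 : (1 : ℝ) ≤ C := by
    rcases Nat.eq_zero_or_pos C with rfl | h
    · rw [Nat.cast_zero, zero_pow hU.ne'] at hC
      nlinarith
    · exact_mod_cast h
  set B : Finset (L → ℕ) := Fintype.piFinset fun _ => range (C + 1) with hB
  set val : κ → (L → ℕ) → 𝓞 K := fun e c => ∑ l : L, (c l : 𝓞 K) * a e l with hval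
  set V : E → Finset (𝓞 K) := fun e => B.image (val e) with hV
  set W : ℝ := 2 * (L.card * C * Z) + 1 with hW
  have hVc : ∀ e, ((V e).card : ℝ) ≤ W ^ finrank ℚ K := by
    intro e
    refine h K _ _ (by positivity) fun x hx φ => ?_
    obtain ⟨c, hc, rfl⟩ := mem_image.mp hx
    have e1 : φ (val e c : K) = ∑ l : L, (c l : ℂ) * φ (a e l : K) := by simp [hval]
    rw [e1]
    refine (norm_sum_le _ _).trans ((sum_le_card_nsmul _ _ (C * Z) fun l _ => ?_).trans ?_)
    · rw [norm_mul, Complex.norm_natCast]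
      have h1 : (c l : ℝ) ≤ C := by
        exact_mod_cast Nat.lt_succ_iff.mp (mem_range.mp (Fintype.mem_piFinset.mp hc l))
      have := ha e e.2 l l.2 φ
      gcongr
    · simp [mul_assoc]
  have hW1 : 1 ≤ W := by rw [hW]; have : (0 : ℝ) ≤ L.card * C * Z := by positivity
                         linarith
  have hWC : W < ((C : ℝ) + 1) ^ (U + 1) := by
    have h1 : (C : ℝ) ^ U ≤ ((C : ℝ) + 1) ^ U := by gcongr; linarith
    have h2 : (1 : ℝ) ≤ L.card * Z := by nlinarith
    rw [pow_succ, hW]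
    nlinarith
  have hlt : (Fintype.piFinset V).card < B.card := by
    have h1 : ((Fintype.piFinset V).card : ℝ) ≤ W ^ (finrank ℚ K * E.card) := by
      rw [Fintype.card_piFinset, Nat.cast_prod, pow_mul]
      refine (prod_le_prod (fun _ _ => Nat.cast_nonneg _) fun e _ => hVc e).trans ?_
      simp
    have h2 : (B.card : ℝ) = ((C : ℝ) + 1) ^ L.card := by simp [hB]
    have h3 : W ^ (finrank ℚ K * E.card) < ((C : ℝ) + 1) ^ L.card := by
      rcases Nat.eq_zero_or_pos (finrank ℚ K * E.card) with h0 | h0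
      · rw [h0, pow_zero]
        exact one_lt_pow₀ (by linarith) hL.ne'
      · calc _ < (((C : ℝ) + 1) ^ (U + 1)) ^ (finrank ℚ K * E.card) :=
              pow_lt_pow_left₀ hWC (by linarith) h0.ne'
          _ ≤ _ := by rw [← pow_mul]; exact pow_le_pow_right₀ (by linarith) hcard
    exact_mod_cast (h1.trans_lt h3).trans_eq h2.symm
  obtain ⟨c, hc, c', hc', hne, heq⟩ := exists_ne_map_eq_of_card_lt_of_maps_to hlt
    (f := fun c (e : E) => val e c)
    (fun c hc => mem_coe.mpr (Fintype.mem_piFinset.mpr fun e => mem_image_of_mem _ hc))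
  refine ⟨fun l => if hl : l ∈ L then (c ⟨l, hl⟩ : ℤ) - c' ⟨l, hl⟩ else 0, ?_, fun l => ?_,
    fun e he => ?_⟩
  · obtain ⟨l, hl⟩ := Function.ne_iff.mp hne
    exact ⟨l, l.2, by simpa [sub_eq_zero] using hl⟩
  · dsimp only
    split_ifs with hl
    · have h1 := mem_range.mp (Fintype.mem_piFinset.mp hc ⟨l, hl⟩)
      have h2 := mem_range.mp (Fintype.mem_piFinset.mp hc' ⟨l, hl⟩)
      rw [abs_le]
      constructor <;> omega
    · simp
  · have h1 := sub_eq_zero.mpr (congrFun heq ⟨e, he⟩)
    rw [← sum_coe_sort L, ← h1, hval]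
    dsimp only
    rw [← sum_sub_distrib]
    refine sum_congr rfl fun l _ => ?_
    rw [dif_pos l.2]
    push_cast
    ring

end Pool.Agent.P.MP_657a03_nt
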