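import Pool.Agent.P.MP_657a03_nt.MainC
import Pool.Agent.P.MP_7aad9f_nt.SubSIEGEL

/-! The main induction. -/

set_option autoImplicit false

open NumberField NumberField.Units Module Real Matrix Finset

namespace Pool.Agent.P.MP_657a03_nt

open MainA MainB MainC

namespace MainD

theorem wd_eq {ι : Type} {s : ℕ} (F : ι → Fin s → ℤ) (f : List (Fin s)) (x : ι) :
    wd F f x = ∏ j, F x j ^ f.count j := by
  induction f with
  | nil => simp [wd_nil]
  | cons k f ih =>
    rw [wd_cons, ih]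
    simp only [List.count_cons, pow_add, prod_mul_distrib, beq_iff_eq, pow_ite, pow_one, pow_zero,
      prod_ite_eq, mem_univ, if_true]
    ring

theorem sum_count {s : ℕ} (f : List (Fin s)) : ∑ j, f.count j = f.length := by
  induction f with
  | nil => simp
  | cons k f ih => simp [List.count_cons, sum_add_distrib, ih]

theorem sum_div_le (B : ℕ) : ∀ n : ℕ, ∑ i ∈ range n, B / 2 ^ i ≤ 2 * B := by
  intro n
  have h : ∀ n B : ℕ, ∑ i ∈ range n, B / 2 ^ i ≤ 2 * B := by
    intro n
    induction n with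
    | zero => simp
    | succ n ih =>
      intro B
      rw [sum_range_succ']
      have : ∑ i ∈ range n, B / 2 ^ (i + 1) = ∑ i ∈ range n, B / 2 / 2 ^ i :=
        sum_congr rfl fun i _ => by rw [Nat.div_div_eq_div_mul, pow_succ']
      have := ih (B / 2)
      simp only [pow_zero, Nat.div_one]
      omega
  exact h n B

end MainD

open MainD Pool.Agent.P.MP_7aad9f_nt.Sub in
theorem mainT (h1 : S_SIEGEL) (h2 : S_COORD) (hS : S_SCHWARZ) (hL : S_LIOU) (hF : S_FIELD) :
    S_MAIN := by
  intro p _ K _ _ ι a b A N I lev J U B1 B2 C T X L hD hAX hT hU hcard hC hB1 hB2 hN hNp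
  classical
  obtain ⟨s, w, F, hs, hw, hFJ, hco, hfin⟩ := h2 p K ι a b A N I lev J X L hD
  have hX := hD.fam.one_le
  have hlX : 0 ≤ log X := log_nonneg hX
  have hDpos : 0 < finrank ℚ K := finrank_pos
  have hJ : 1 ≤ J := by
    have h0 : (1 : ℝ) ≤ (8 * (finrank ℚ K : ℝ) ^ 2 * log X * (7 * A) ^ finrank ℚ K + 2) ^
        finrank ℚ K := one_le_pow₀ (by
      have : (0 : ℝ) ≤ 8 * (finrank ℚ K : ℝ) ^ 2 * log X * (7 * A) ^ finrank ℚ K := by positivity
      linarith)
    exact_mod_cast h0.trans hD.hJ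
  have hJ' : (1 : ℝ) ≤ J := by exact_mod_cast hJ
  have hLpos : 0 < L.card := by
    refine lt_of_lt_of_le ?_ hcard
    have := Nat.choose_pos (Nat.le_add_left (rank K) T)
    positivity
  have hL1 : (1 : ℝ) ≤ L.card := by exact_mod_cast hLpos
  have hZ : (1 : ℝ) ≤ (J : ℝ) ^ T * X ^ (2 * U) :=
    one_le_mul_of_one_le_of_one_le (one_le_pow₀ hJ') (one_le_pow₀ hX)
  have hC1 : (1 : ℝ) ≤ C := by
    rcases Nat.eq_zero_or_pos C with rfl | h
    · rw [Nat.cast_zero, zero_pow hU.ne'] at hC
      nlinarith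
    · exact_mod_cast h
  -- Siegel
  obtain ⟨c, ⟨x0, hx0, hc0⟩, hc, hv⟩ := h1 K (𝓞 K) (ℕ × (Fin s → ℕ)) L (range U ×ˢ simplex s T)
    (fun e x => ((∏ j, F x j ^ e.2 j : ℤ) : 𝓞 K) * x ^ (2 * e.1 + 1))
    ((J : ℝ) ^ T * X ^ (2 * U)) U C hZ hU hLpos (by
      rintro ⟨v, e⟩ he x hx φ
      obtain ⟨hv, he⟩ := mem_product.mp he
      rw [mem_range] at hv
      rw [siegel_mem] at he
      have e1 : ((((∏ j, F x j ^ e j : ℤ) : 𝓞 K) * x ^ (2 * v + 1) : 𝓞 K) : K) =
          ((∏ j, F x j ^ e j : ℤ) : K) * (x : K) ^ (2 * v + 1) := by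
        rw [RingOfIntegers.coe_eq_algebraMap, map_mul, map_intCast, map_pow]
      dsimp only at hv he ⊢
      rw [e1, map_mul, map_intCast, map_pow, norm_mul, norm_pow, Complex.norm_intCast]
      have a1 : |((∏ j, F x j ^ e j : ℤ) : ℝ)| ≤ (J : ℝ) ^ T := by
        push_cast
        rw [abs_prod]
        calc ∏ j, |(F x j : ℝ) ^ e j| ≤ ∏ j, (J : ℝ) ^ e j := by
              refine prod_le_prod (fun _ _ => abs_nonneg _) fun j _ => ?_
              rw [abs_pow]
              have : |(F x j : ℝ)| ≤ J := by exact_mod_cast hFJ x hx j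
              gcongr
          _ = (J : ℝ) ^ ∑ j, e j := prod_pow_eq_pow_sum _ _ _
          _ ≤ _ := pow_le_pow_right₀ hJ' he
      have a2 : ‖φ (x : K)‖ ^ (2 * v + 1) ≤ X ^ (2 * U) :=
        (pow_le_pow_left₀ (norm_nonneg _) (hD.fam.hs x hx φ) _).trans
          (pow_le_pow_right₀ hX (by omega))
      gcongr)
    (by
      refine le_trans ?_ hcard
      rw [card_product, card_range, siegel_card]
      have : (T + s).choose s ≤ (T + rank K).choose (rank K) := by
        rw [← Nat.choose_symm_add, ← Nat.choose_symm_add]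
        exact Nat.choose_le_choose _ (by omega)
      gcongr) hC
  have hx0' : (x0 : K) ≠ 0 := by simpa using hD.fam.ne _ hx0
  have hι0 := hD.fam.unit _ hx0
  have hn : ∀ x ∈ L, ∃ y : ℤ_[p], (y : ℚ_[p]) = ι ((x : K) / x0) := by
    intro x hx
    refine ⟨⟨ι ((x : K) / x0), ?_⟩, rfl⟩
    rw [map_div₀, norm_div, hD.fam.unit x hx, hι0, div_one]
  choose! Yh hYh using hn
  let st0 : St ι L c 0 := ⟨L, x0, fun x => (x : K) / x0, Yh, Subset.rfl, hx0, hc0, by
      intro x hx
      refine ⟨by rw [pow_zero, pow_one, div_mul_cancel₀ _ hx0'], hYh x hx, ?_⟩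
      have h0 : ι (x0 : K) ≠ 0 := (map_ne_zero _).mpr hx0'
      rw [PadicInt.norm_def, PadicInt.coe_sub, PadicInt.coe_one, hYh x hx,
        map_div₀, div_sub_one h0, norm_div, hι0, div_one]
      exact hD.fam.cong x hx x0 hx0⟩
  have hV0 : Van st0.L' c F st0.Y U T := by
    intro v hv' f hf
    have h0 := hv (v, fun j => f.count j) (mem_product.mpr ⟨mem_range.mpr hv', by
      rw [siegel_mem, sum_count]; exact hf⟩)
    have h3 := congrArg (fun t : 𝓞 K => (t : K) / (x0 : K) ^ (2 * v + 1)) h0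
    simp only [RingOfIntegers.coe_eq_algebraMap, map_sum, map_mul, map_intCast, map_pow, map_zero,
      zero_div, sum_div] at h3
    rw [← h3]
    refine sum_congr rfl fun x _ => ?_
    rw [wd_eq]
    simp only [st0, RingOfIntegers.coe_eq_algebraMap, div_pow]
    ring
  -- the descent
  have hA : (1 : ℝ) ≤ A := by
    have := (Int.one_le_abs hD.a0).trans hD.aA
    exact_mod_cast this
  have hlA : 0 ≤ log (A : ℝ) := log_nonneg hA
  have hp : 0 < log (p : ℝ) := log_pos (by exact_mod_cast (Fact.out : p.Prime).one_lt)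
  have hB : (1 : ℝ) ≤ C * (J : ℝ) ^ T := one_le_mul_of_one_le_of_one_le hC1 (one_le_pow₀ hJ')
  have hE0 : 0 ≤ finrank ℚ K * log (L.card * C * (J : ℝ) ^ T) / U := by
    have : 0 ≤ log (L.card * C * (J : ℝ) ^ T) := log_nonneg (by rw [mul_assoc]; nlinarith)
    positivity
  have hB2' : 0 < B2 := by
    rcases Nat.eq_zero_or_pos B2 with rfl | h
    · have : (0 : ℝ) ≤ 8 * finrank ℚ K * log A := by positivity
      simp only [Nat.cast_zero, zero_mul] at hB2
      linarith
    · exact h
  set R : ℕ → ℕ := fun i => ∑ k ∈ range i, (rank K + 3) * (B1 / 2 ^ k + B2) with hR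
  have hRT : ∀ i ≤ lev, R i ≤ T := by
    intro i hi
    refine le_trans ?_ hT
    rw [hR]
    dsimp only
    rw [← mul_sum, sum_add_distrib, sum_const, card_range, smul_eq_mul]
    have := sum_div_le B1 i
    gcongr
  have ind : ∀ i ≤ lev, ∃ st : St ι L c i, Van st.L' c F st.Y U (T - R i) := by
    intro i
    induction i with
    | zero => intro _; exact ⟨st0, hV0.mono (Nat.sub_le _ _)⟩
    | succ i ih =>
      intro hi
      obtain ⟨st, hV⟩ := ih (by omega)
      have e1 : R (i + 1) = R i + (rank K + 3) * (B1 / 2 ^ i + B2) := sum_range_succ _ _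
      have e2 := hRT _ hi
      refine level hS hL hF ι hD hAX hNp w F hw c T (C * (J : ℝ) ^ T) hB ?_ i (by omega)
        (hco i (by omega)) U (B1 / 2 ^ i + B2) _ hU (Nat.add_pos_right _ hB2') (by omega) ?_ ?_ st
        (hV.mono (by omega))
      · intro x hx f hf
        have a1 : |(c x : ℝ)| ≤ C := by exact_mod_cast hc x
        have a2 : |(wd F f x : ℝ)| ≤ (J : ℝ) ^ T := by
          exact_mod_cast abs_wd_le F x J hJ (hFJ x hx) T f hf
        rw [Int.cast_mul, abs_mul]
        gcongr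
      · rw [← mul_assoc]
        have a1 : (B1 : ℝ) / 2 ^ i ≤ (B1 / 2 ^ i : ℕ) + 1 := by
          rw [div_le_iff₀ (by positivity)]
          have := Nat.lt_div_mul_add (a := B1) (by positivity : 0 < 2 ^ i)
          have h3 : B1 ≤ (B1 / 2 ^ i + 1) * 2 ^ i := by rw [add_mul]; omega
          exact_mod_cast h3
        have a2 : 12 * finrank ℚ K * log X / 2 ^ i ≤ (B1 : ℝ) / 2 ^ i * log p := by
          rw [div_mul_eq_mul_div]
          gcongr
        have a3 := mul_le_mul_of_nonneg_right a1 hp.le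
        have a4 : 4 * (2 * finrank ℚ K * log A + 3 * finrank ℚ K * log X / 2 ^ i) =
          8 * finrank ℚ K * log A + 12 * finrank ℚ K * log X / 2 ^ i := by ring
        rw [a4, Nat.cast_add]
        nlinarith
      · refine le_trans ?_ hN
        gcongr
        exact Nat.div_le_self _ _
  obtain ⟨st, hV⟩ := ind lev le_rfl
  have h0 := hV 0 hU [] (Nat.zero_le _)
  rw [sum_eq_single_of_mem st.x0 st.mem (fun x hx hne =>
    (hne (hfin x (st.sub hx) _ (st.sub st.mem) _ _ (st.root x hx))).elim), wd_nil] at h0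
  simp only [mul_zero, zero_add, pow_one, Int.cast_one, mul_one, mul_eq_zero, Int.cast_eq_zero]
    at h0
  have h3 := (st.root _ st.mem).1
  rw [h0.resolve_left st.nz, zero_pow (by positivity), zero_mul] at h3
  exact hD.fam.ne _ (st.sub st.mem) (by simpa using h3.symm)

end Pool.Agent.P.MP_657a03_nt
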