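import Pool.Agent.P.MP_657a03_nt.Iface

/-! The choice of the parameters. -/

set_option autoImplicit false

open Real

namespace Pool.Agent.P.MP_657a03_nt

namespace NumAux

lemma two_le_e : (2 : ℝ) ≤ exp 1 := by
  have := add_one_le_exp (1 : ℝ); linarith

lemma two_pow_le (n : ℕ) : (2 : ℝ) ^ n ≤ exp n := by
  rw [← exp_one_pow]; exact pow_le_pow_left₀ (by norm_num) two_le_e n

lemma exp_le_four (n : ℕ) : exp n ≤ (4 : ℝ) ^ n := by
  rw [← exp_one_pow]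
  refine pow_le_pow_left₀ (exp_pos 1).le ?_ n
  have := exp_one_lt_d9; linarith

lemma exp_two_le (n : ℕ) : exp (2 * n) ≤ (8 : ℝ) ^ n := by
  have h : exp (2 * n) = (exp 1 ^ 2) ^ n := by
    rw [← pow_mul, exp_one_pow]; push_cast; rfl
  rw [h]
  refine pow_le_pow_left₀ (by positivity) ?_ n
  have h1 := exp_one_lt_d9
  have h2 := exp_pos (1 : ℝ)
  nlinarith

lemma exp_three_le : exp 3 ≤ (21 : ℝ) := by
  have h : exp 3 = exp 1 ^ 3 := by rw [exp_one_pow]; norm_num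
  rw [h]
  have h1 := exp_one_lt_d9
  have h2 := exp_pos (1 : ℝ)
  calc exp 1 ^ 3 ≤ (2.7182818286 : ℝ) ^ 3 := pow_le_pow_left₀ h2.le h1.le 3
    _ ≤ 21 := by norm_num

lemma twelve_le : (12 : ℝ) ≤ exp 4 := by
  have := two_pow_le 4
  norm_num at this
  linarith

lemma choose_cmp (S T : ℕ) : ∀ r : ℕ, r ≤ T →
    (T + r).choose r * S ^ r ≤ (S + r).choose r * (2 * T) ^ r := by
  intro r
  induction r with
  | zero => intro _; simp
  | succ r ih =>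
    intro hr
    have h := ih (by omega)
    have e1 : (T + (r + 1)).choose (r + 1) * (r + 1) = (T + r + 1) * (T + r).choose r := by
      rw [← add_assoc]; exact (Nat.add_one_mul_choose_eq (T + r) r).symm
    have e2 : (S + (r + 1)).choose (r + 1) * (r + 1) = (S + r + 1) * (S + r).choose r := by
      rw [← add_assoc]; exact (Nat.add_one_mul_choose_eq (S + r) r).symm
    refine Nat.le_of_mul_le_mul_right ?_ (Nat.succ_pos r)
    have h3 : (T + r + 1) * S ≤ (2 * T) * (S + r + 1) :=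
      Nat.mul_le_mul (by omega) (by omega)
    calc (T + (r + 1)).choose (r + 1) * S ^ (r + 1) * (r + 1)
        = ((T + (r + 1)).choose (r + 1) * (r + 1)) * S ^ (r + 1) := by ring
      _ = ((T + r + 1) * S) * ((T + r).choose r * S ^ r) := by rw [e1]; ring
      _ ≤ ((2 * T) * (S + r + 1)) * ((S + r).choose r * (2 * T) ^ r) := Nat.mul_le_mul h3 h
      _ = ((S + (r + 1)).choose (r + 1) * (r + 1)) * (2 * T) ^ (r + 1) := by rw [e2]; ring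
      _ = (S + (r + 1)).choose (r + 1) * (2 * T) ^ (r + 1) * (r + 1) := by ring

lemma choose_ratio (S T r : ℕ) (q : ℝ) (hq : 0 ≤ q) (hT : 0 < T) (hr : r ≤ T)
    (h : q * (2 * T) ≤ S) : ((T + r).choose r : ℝ) * q ^ r ≤ (S + r).choose r := by
  have h1 : (((T + r).choose r * S ^ r : ℕ) : ℝ) ≤ (((S + r).choose r * (2 * T) ^ r : ℕ) : ℝ) :=
    Nat.cast_le.mpr (choose_cmp S T r hr)
  push_cast at h1
  have hT' : (0 : ℝ) < (2 * T) ^ r := by positivity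
  have h2 : (q * (2 * T)) ^ r ≤ (S : ℝ) ^ r := pow_le_pow_left₀ (by positivity) h r
  rw [mul_pow] at h2
  refine le_of_mul_le_mul_right ?_ hT'
  calc ((T + r).choose r : ℝ) * q ^ r * (2 * T) ^ r
      = ((T + r).choose r : ℝ) * (q ^ r * (2 * T) ^ r) := by ring
    _ ≤ ((T + r).choose r : ℝ) * (S : ℝ) ^ r := mul_le_mul_of_nonneg_left h2 (by positivity)
    _ ≤ _ := h1

/-- the counting inequality -/
lemma count (p r D m l I S T : ℕ) (ρ : ℝ) (hρ : 1 ≤ ρ) (hD : D ≤ 2 * (r + 1)) (hl : 700 ≤ l)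
    (hDl : D ≤ l) (hρl : ρ ^ 3 ≤ l) (hm : (m : ℝ) ≤ 1 + (r + 1) * log ρ)
    (hI : (p : ℝ) * l ^ 21 * exp (-(2 * r)) ≤ I) (hT : 0 < T) (hr : r ≤ T)
    (hS : 256 * ρ ^ 3 * (2 * T) ≤ S) :
    (((l ^ 9 + 1) * (D * (l ^ 9 * (T + r).choose r)) : ℕ) : ℝ) *
      (2 ^ (m + r) * exp (2 * m) * 4 ^ D * p) ≤ (S + r).choose r * I := by
  have hρ0 : 0 < ρ := by linarith
  have h1 := choose_ratio S T r (256 * ρ ^ 3) (by positivity) hT hr hS
  have h2 : exp (3 * m) ≤ 21 * ρ ^ 3 * (ρ ^ 3) ^ r := by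
    have a1 : exp (3 * m) ≤ exp (3 + ((3 * (r + 1) : ℕ) : ℝ) * log ρ) := by
      apply exp_le_exp.mpr; push_cast; linarith
    rw [exp_add, exp_nat_mul, exp_log hρ0] at a1
    have a2 : ρ ^ (3 * (r + 1)) = ρ ^ 3 * (ρ ^ 3) ^ r := by rw [pow_mul, pow_succ]; ring
    rw [a2] at a1
    have a3 : (0 : ℝ) ≤ ρ ^ 3 * (ρ ^ 3) ^ r := by positivity
    have := mul_le_mul_of_nonneg_right exp_three_le a3
    linarith
  have h3 : (2 : ℝ) ^ (m + r) * exp (2 * m) * 4 ^ D ≤ 16 * 32 ^ r * exp (3 * m) := by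
    have a1 : (4 : ℝ) ^ D ≤ 4 ^ (2 * (r + 1)) := pow_le_pow_right₀ (by norm_num) hD
    have a2 : (4 : ℝ) ^ (2 * (r + 1)) = 16 * 16 ^ r := by rw [pow_mul, pow_succ]; norm_num; ring
    have a3 : exp (3 * m) = exp m * exp (2 * m) := by rw [← exp_add]; ring_nf
    have a4 : (32 : ℝ) ^ r = 2 ^ r * 16 ^ r := by rw [← mul_pow]; norm_num
    rw [a3, a4, pow_add]
    rw [a2] at a1
    calc (2 : ℝ) ^ m * 2 ^ r * exp (2 * m) * 4 ^ D
        ≤ exp m * 2 ^ r * exp (2 * m) * (16 * 16 ^ r) := by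
          gcongr
          exact two_pow_le m
      _ = _ := by ring
  have hl' : (700 : ℝ) ≤ l := by exact_mod_cast hl
  have hDl' : (D : ℝ) ≤ l := by exact_mod_cast hDl
  have h4 : ((l : ℝ) ^ 9 + 1) * D * l ^ 9 * (16 * (21 * ρ ^ 3)) ≤ l ^ 21 := by
    have a1 : (1 : ℝ) ≤ (l : ℝ) ^ 9 := one_le_pow₀ (by linarith)
    calc ((l : ℝ) ^ 9 + 1) * D * l ^ 9 * (16 * (21 * ρ ^ 3))
        ≤ (2 * (l : ℝ) ^ 9) * l * l ^ 9 * (16 * (21 * l)) := by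
          gcongr
          linarith
      _ = 672 * (l : ℝ) ^ 20 := by ring
      _ ≤ (l : ℝ) * (l : ℝ) ^ 20 := mul_le_mul_of_nonneg_right (by linarith) (by positivity)
      _ = (l : ℝ) ^ 21 := by ring
  have h5 : (32 : ℝ) ^ r ≤ 256 ^ r * exp (-(2 * r)) := by
    have a1 := exp_two_le r
    have a2 : (256 : ℝ) ^ r = 32 ^ r * 8 ^ r := by rw [← mul_pow]; norm_num
    have a3 : exp (2 * r) * exp (-(2 * r)) = 1 := by rw [← exp_add]; simp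
    have a4 : (0 : ℝ) < exp (-(2 * r)) := exp_pos _
    have a5 : (1 : ℝ) ≤ 8 ^ r * exp (-(2 * r)) := by
      rw [← a3]; exact mul_le_mul_of_nonneg_right a1 a4.le
    rw [a2, mul_assoc]
    exact le_mul_of_one_le_right (by positivity) a5
  push_cast
  set c : ℝ := ((T + r).choose r : ℝ) with hc
  have hc0 : 0 ≤ c := by positivity
  have h6 : (2 : ℝ) ^ (m + r) * exp (2 * m) * 4 ^ D ≤ 16 * 32 ^ r * (21 * ρ ^ 3 * (ρ ^ 3) ^ r) :=
    h3.trans (mul_le_mul_of_nonneg_left h2 (by positivity))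
  calc ((l : ℝ) ^ 9 + 1) * (D * (l ^ 9 * c)) * (2 ^ (m + r) * exp (2 * m) * 4 ^ D * p)
      ≤ ((l : ℝ) ^ 9 + 1) * (D * (l ^ 9 * c)) *
          (16 * 32 ^ r * (21 * ρ ^ 3 * (ρ ^ 3) ^ r) * p) :=
        mul_le_mul_of_nonneg_left (mul_le_mul_of_nonneg_right h6 (by positivity)) (by positivity)
    _ = (((l : ℝ) ^ 9 + 1) * D * l ^ 9 * (16 * (21 * ρ ^ 3))) * 32 ^ r * (c * (ρ ^ 3) ^ r * p) := by
        ring
    _ ≤ (l : ℝ) ^ 21 * (256 ^ r * exp (-(2 * r))) * (c * (ρ ^ 3) ^ r * p) := by gcongr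
    _ = (c * (256 * ρ ^ 3) ^ r) * (p * l ^ 21 * exp (-(2 * r))) := by rw [mul_pow]; ring
    _ ≤ _ := by gcongr

/-- the inequality for `J` -/
lemma jineq (A p D l τ : ℕ) (hl : 7 * A + 700 ≤ l) (hDl : D ≤ l) (hp : p ≤ 4 ^ l)
    (hτ : τ ≤ 2 * p * l ^ 21 * A) :
    (8 * D ^ 2 * (2 * τ) * (7 * A) ^ D + 2) ^ D ≤ 2 ^ (l ^ 3) := by
  have h2 : l ≤ 2 ^ l := Nat.lt_two_pow_self.le
  have a1 : 2 * τ ≤ 2 ^ (2 + 24 * l) := by
    have b1 : l ^ 21 ≤ (2 ^ l) ^ 21 := Nat.pow_le_pow_left h2 21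
    have b2 : A ≤ 2 ^ l := by omega
    have b3 : p ≤ (2 ^ l) ^ 2 := by
      rw [← pow_mul, mul_comm, pow_mul]; exact hp
    calc 2 * τ ≤ 2 * (2 * p * l ^ 21 * A) := by omega
      _ ≤ 2 * (2 * (2 ^ l) ^ 2 * (2 ^ l) ^ 21 * 2 ^ l) := by gcongr
      _ = 2 ^ (2 + 24 * l) := by rw [pow_add, mul_comm 24 l, pow_mul]; ring
  have a2 : 8 * D ^ 2 ≤ 2 ^ (3 + 2 * l) := by
    have b1 : D ^ 2 ≤ (2 ^ l) ^ 2 := Nat.pow_le_pow_left (hDl.trans h2) 2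
    calc 8 * D ^ 2 ≤ 8 * (2 ^ l) ^ 2 := by gcongr
      _ = 2 ^ (3 + 2 * l) := by rw [pow_add, mul_comm 2 l, pow_mul]; norm_num
  have a3 : (7 * A) ^ D ≤ 2 ^ (7 * A * l) := by
    calc (7 * A) ^ D ≤ (2 ^ (7 * A)) ^ D := Nat.pow_le_pow_left Nat.lt_two_pow_self.le D
      _ ≤ (2 ^ (7 * A)) ^ l := Nat.pow_le_pow_right (by positivity) hDl
      _ = 2 ^ (7 * A * l) := by rw [← pow_mul]
  have a4 : 8 * D ^ 2 * (2 * τ) * (7 * A) ^ D ≤ 2 ^ (5 + 26 * l + 7 * A * l) := by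
    calc 8 * D ^ 2 * (2 * τ) * (7 * A) ^ D
        ≤ 2 ^ (3 + 2 * l) * 2 ^ (2 + 24 * l) * 2 ^ (7 * A * l) := by gcongr
      _ = 2 ^ (5 + 26 * l + 7 * A * l) := by rw [← pow_add, ← pow_add]; congr 1; ring
  have a5 : 2 ≤ 2 ^ (5 + 26 * l + 7 * A * l) := by
    calc 2 = 2 ^ 1 := by norm_num
      _ ≤ _ := Nat.pow_le_pow_right (by norm_num) (by omega)
  have a6 : 8 * D ^ 2 * (2 * τ) * (7 * A) ^ D + 2 ≤ 2 ^ (l ^ 2) := by
    calc 8 * D ^ 2 * (2 * τ) * (7 * A) ^ D + 2 ≤ 2 ^ (5 + 26 * l + 7 * A * l + 1) := by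
          rw [pow_succ 2 (5 + 26 * l + 7 * A * l)]; omega
      _ ≤ 2 ^ (l ^ 2) := by
          refine Nat.pow_le_pow_right (by norm_num) ?_
          have : (7 * A + 700) * l ≤ l * l := Nat.mul_le_mul_right l hl
          nlinarith
  calc (8 * D ^ 2 * (2 * τ) * (7 * A) ^ D + 2) ^ D ≤ (2 ^ (l ^ 2)) ^ D :=
        Nat.pow_le_pow_left a6 D
    _ ≤ (2 ^ (l ^ 2)) ^ l := Nat.pow_le_pow_right (by positivity) hDl
    _ = 2 ^ (l ^ 3) := by rw [← pow_mul]; congr 1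

/-- the size of the logarithm -/
lemma logbd (l τ T Lc : ℕ) (hL0 : 0 < Lc) (hL : Lc ≤ 2 ^ (3 * T)) :
    log ((Lc : ℝ) * ((3 * Lc * (2 ^ (l ^ 3)) ^ T * ⌈exp (2 * τ)⌉₊ ^ 2 : ℕ) : ℝ) *
      (((2 ^ (l ^ 3) : ℕ) : ℝ)) ^ T) ≤ 4 + 6 * T + 2 * T * l ^ 3 + 4 * τ := by
  have hE1 : (1 : ℝ) ≤ exp (2 * τ) := one_le_exp (by positivity)
  have hE : (⌈exp (2 * τ)⌉₊ : ℝ) ≤ 2 * exp (2 * τ) := by
    have := Nat.ceil_lt_add_one (show (0 : ℝ) ≤ exp (2 * τ) by positivity)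
    linarith
  have hE0 : (0 : ℝ) < (⌈exp (2 * τ)⌉₊ : ℝ) := lt_of_lt_of_le (by linarith) (Nat.le_ceil _)
  have hL' : (Lc : ℝ) ≤ exp (3 * T) := by
    have a1 : (Lc : ℝ) ≤ (2 : ℝ) ^ (3 * T) := by exact_mod_cast hL
    have a2 := two_pow_le (3 * T)
    push_cast at a2
    linarith
  have hJ : ((2 : ℝ) ^ (l ^ 3)) ^ T ≤ exp (T * l ^ 3) := by
    have a2 := two_pow_le (l ^ 3 * T)
    rw [pow_mul] at a2
    push_cast at a2
    rw [mul_comm (T : ℝ)]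
    exact a2
  have hL0' : (0 : ℝ) < Lc := by exact_mod_cast hL0
  push_cast
  rw [log_le_iff_le_exp (by positivity)]
  calc (Lc : ℝ) * (3 * Lc * (2 ^ (l ^ 3)) ^ T * (⌈exp (2 * τ)⌉₊ : ℝ) ^ 2) * (2 ^ (l ^ 3)) ^ T
      ≤ exp (3 * T) * (3 * exp (3 * T) * exp (T * l ^ 3) * (2 * exp (2 * τ)) ^ 2) *
        exp (T * l ^ 3) := by gcongr
    _ = 12 * (exp (3 * T) * exp (3 * T) * exp (T * l ^ 3) * exp (T * l ^ 3) * exp (2 * τ) *
        exp (2 * τ)) := by ring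
    _ ≤ exp 4 * (exp (3 * T) * exp (3 * T) * exp (T * l ^ 3) * exp (T * l ^ 3) * exp (2 * τ) *
        exp (2 * τ)) := by gcongr; exact twelve_le
    _ = _ := by simp only [← exp_add]; congr 1; ring

/-- the inequality for `B2` -/
lemma b2ineq (A r D l τ B1 : ℕ) (La X : ℝ) (hA : 1 ≤ A) (hl : 700 ≤ l) (hDl : D ≤ l)
    (hrl : r + 3 ≤ l) (h1 : La ≤ l) (h2 : (l : ℝ) ≤ 2 * La) (hB : l ^ 20 * A ≤ B1)
    (hB' : 12 * D * (2 * τ : ℝ) ≤ B1 * La)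
    (hX : X ≤ 4 + 6 * ((4 * (r + 3) * B1 : ℕ) : ℝ) + 2 * ((4 * (r + 3) * B1 : ℕ) : ℝ) * l ^ 3 +
      4 * τ) :
    D * X / ((l ^ 9 : ℕ) : ℝ) + 8 * D * log A + La < ((B1 / l ^ 3 : ℕ) : ℝ) * La := by
  have hl' : (700 : ℝ) ≤ l := by exact_mod_cast hl
  have hDl' : (D : ℝ) ≤ l := by exact_mod_cast hDl
  have hrl' : (r : ℝ) + 3 ≤ l := by exact_mod_cast hrl
  have hA' : (1 : ℝ) ≤ A := by exact_mod_cast hA
  have hB0 : (l : ℝ) ^ 20 * A ≤ B1 := by exact_mod_cast hB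
  have hl1 : (1 : ℝ) ≤ l := by linarith
  have hl0 : (0 : ℝ) < l := by linarith
  have hB1 : (1 : ℝ) ≤ B1 := by
    have : (1 : ℝ) ≤ (l : ℝ) ^ 20 := one_le_pow₀ hl1
    nlinarith
  set T : ℝ := ((4 * (r + 3) * B1 : ℕ) : ℝ) with hT
  have hTe : T = 4 * (r + 3) * B1 := by rw [hT]; push_cast; ring
  have hT1 : 1 ≤ T := by
    rw [hTe]
    have : (0 : ℝ) ≤ r := by positivity
    nlinarith
  have hTl : T ≤ 4 * l * B1 := by rw [hTe]; gcongr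
  have hl3 : (10 : ℝ) ≤ (l : ℝ) ^ 3 := by
    calc (10 : ℝ) ≤ l := by linarith
      _ = l ^ 1 := by ring
      _ ≤ l ^ 3 := pow_le_pow_right₀ hl1 (by norm_num)
  have a1 : X ≤ 3 * T * l ^ 3 + 4 * τ := by nlinarith
  have a2 : (D : ℝ) * X ≤ 13 * l ^ 5 * B1 := by
    have b1 : (D : ℝ) * (3 * T * l ^ 3) ≤ l * (3 * (4 * l * B1) * l ^ 3) := by gcongr
    have b2 : (B1 : ℝ) * La ≤ B1 * l ^ 5 := by
      gcongr
      calc La ≤ l := h1
        _ = l ^ 1 := by ring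
        _ ≤ l ^ 5 := pow_le_pow_right₀ hl1 (by norm_num)
    have b3 : (D : ℝ) * X ≤ D * (3 * T * l ^ 3 + 4 * τ) := by gcongr
    have b4 : (0 : ℝ) ≤ D * τ := by positivity
    nlinarith
  set x : ℝ := B1 / l ^ 4 with hx
  have hxB : (B1 : ℝ) = x * l ^ 4 := by rw [hx]; field_simp
  have a3 : D * X / ((l ^ 9 : ℕ) : ℝ) ≤ 13 * x := by
    push_cast
    rw [div_le_iff₀ (by positivity)]
    calc (D : ℝ) * X ≤ 13 * l ^ 5 * B1 := a2
      _ = 13 * x * l ^ 9 := by rw [hxB]; ring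
  have a4 : x * l - 1 ≤ ((B1 / l ^ 3 : ℕ) : ℝ) := by
    have b1 : B1 < l ^ 3 * (B1 / l ^ 3 + 1) := Nat.lt_mul_div_succ B1 (by positivity)
    have b2 : (B1 : ℝ) < l ^ 3 * (((B1 / l ^ 3 : ℕ) : ℝ) + 1) := by exact_mod_cast b1
    have b3 : (l : ℝ) ^ 3 * (x * l) < l ^ 3 * (((B1 / l ^ 3 : ℕ) : ℝ) + 1) := by
      calc (l : ℝ) ^ 3 * (x * l) = B1 := by rw [hxB]; ring
        _ < _ := b2
    have := lt_of_mul_lt_mul_left b3 (by positivity)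
    linarith
  have a5 : (l : ℝ) * l * A ≤ x := by
    rw [hx, le_div_iff₀ (by positivity)]
    calc (l : ℝ) * l * A * l ^ 4 = (l : ℝ) ^ 6 * A := by ring
      _ ≤ (l : ℝ) ^ 20 * A :=
        mul_le_mul_of_nonneg_right (pow_le_pow_right₀ hl1 (by norm_num)) (by positivity)
      _ ≤ B1 := hB0
  have a6 : 8 * D * log A ≤ 8 * l * A := by
    have : log A ≤ A := (log_le_sub_one_of_pos (by linarith)).trans (by linarith)
    have h0 : 0 ≤ log A := log_nonneg hA'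
    gcongr
  have hLa0 : 0 < La := by linarith
  have a7 : (x * l - 1) * La ≤ ((B1 / l ^ 3 : ℕ) : ℝ) * La := by gcongr
  have hlA : (l : ℝ) ≤ l * A := le_mul_of_one_le_right hl0.le hA'
  have a8 : 700 * ((l : ℝ) * A) ≤ x := by
    have : 700 * ((l : ℝ) * A) ≤ l * (l * A) := by gcongr
    linarith
  have hx0 : 0 < x := by linarith
  have a9 : 14 * x ≤ x * l * La := by
    have : (14 : ℝ) ≤ l * La := by nlinarith
    nlinarith
  nlinarith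

end NumAux

open NumAux in
theorem num : S_NUM := by
  refine ⟨204800, by norm_num, fun A hA => ⟨⌈exp (400 * 2 ^ 30 * A)⌉₊, ?_⟩⟩
  intro p hp r D N ρ hD1 hD2 hρ hC hN
  have hA' : (1 : ℝ) ≤ A := by exact_mod_cast hA
  have hpe : exp (400 * 2 ^ 30 * A) ≤ p :=
    (Nat.le_ceil _).trans (by exact_mod_cast hp.le)
  have hp0 : (0 : ℝ) < p := lt_of_lt_of_le (exp_pos _) hpe
  have hLaA : 400 * 2 ^ 30 * (A : ℝ) ≤ log p := by
    rw [le_log_iff_exp_le hp0]; exact hpe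
  have hpL : exp (log p) = p := exp_log hp0
  clear hpe hp
  generalize log (p : ℝ) = La at *
  have hLa1 : La + 1 ≤ p := by rw [← hpL]; exact add_one_le_exp La
  have hLa2 : (1000 : ℝ) ≤ La := by linarith
  have hLa0 : 0 < La := by linarith
  obtain ⟨l, h1, h2⟩ : ∃ l : ℕ, La ≤ l ∧ (l : ℝ) ≤ 2 * La := by
    refine ⟨⌈La⌉₊, Nat.le_ceil _, ?_⟩
    have := Nat.ceil_lt_add_one hLa0.le
    linarith
  have hlA : 7 * A + 700 ≤ l := by
    have : ((7 * A + 700 : ℕ) : ℝ) ≤ l := by push_cast; linarith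
    exact_mod_cast this
  have hl700 : 700 ≤ l := by omega
  have hl1 : (1 : ℝ) ≤ l := by linarith
  have hρ0 : 0 < ρ := by linarith
  have hρ3 : 1 ≤ ρ ^ 3 := one_le_pow₀ hρ
  have hr0 : (0 : ℝ) ≤ r := by positivity
  have hr3 : 204800 * ((r : ℝ) + 3) ≤ La := by
    have : 204800 * 1 * ((r : ℝ) + 3) ≤ 204800 * ρ ^ 3 * (r + 3) := by gcongr
    linarith
  have hρL : ρ ^ 3 ≤ La := by
    have : 1 * ρ ^ 3 * 1 ≤ 204800 * ρ ^ 3 * ((r : ℝ) + 3) := by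
      gcongr
      · norm_num
      · linarith
    linarith
  have hD2' : (D : ℝ) ≤ 2 * (r + 1) := by exact_mod_cast hD2
  have hD1' : (r : ℝ) + 1 ≤ D := by exact_mod_cast hD1
  have hDL : (D : ℝ) ≤ La := by linarith
  have hDl : D ≤ l := by exact_mod_cast hDL.trans h1
  have hrl : r + 3 ≤ l := by
    have : ((r + 3 : ℕ) : ℝ) ≤ l := by push_cast; linarith
    exact_mod_cast this
  have hlog0 : 0 ≤ log ρ := log_nonneg hρ
  have hlog : log ρ ≤ ρ ^ 3 := by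
    have a1 := log_le_sub_one_of_pos hρ0
    have a2 : ρ ^ 1 ≤ ρ ^ 3 := pow_le_pow_right₀ hρ (by norm_num)
    linarith
  -- the parameter `m`
  obtain ⟨m, hm1, hm2⟩ : ∃ m : ℕ, D * log ρ < 2 * m ∧ (m : ℝ) ≤ 1 + (r + 1) * log ρ := by
    refine ⟨⌊(D / 2 : ℝ) * log ρ⌋₊ + 1, ?_, ?_⟩
    · have := Nat.lt_floor_add_one ((D / 2 : ℝ) * log ρ)
      push_cast; linarith
    · have a1 := Nat.floor_le (show 0 ≤ (D / 2 : ℝ) * log ρ by positivity)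
      have a2 : (D / 2 : ℝ) * log ρ ≤ (r + 1) * log ρ := by gcongr; linarith
      push_cast; linarith
  have hmL : (m : ℝ) < La := by
    have a1 : ((r : ℝ) + 1) * log ρ ≤ (r + 3) * ρ ^ 3 := by gcongr; linarith
    have a2 : (1 : ℝ) * 1 ≤ (r + 3) * ρ ^ 3 := by gcongr; linarith
    linarith
  have hml : m ≤ l := by exact_mod_cast (hmL.le.trans h1)
  -- the parameter `I`
  have hpe2 : 1 ≤ (p : ℝ) * exp (-(2 * r)) := by
    rw [← hpL, ← exp_add]; exact one_le_exp (by linarith)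
  have hl21 : (1 : ℝ) ≤ (l : ℝ) ^ 21 := one_le_pow₀ hl1
  have hpe3 : (l : ℝ) ^ 21 ≤ (p : ℝ) * l ^ 21 * exp (-(2 * r)) := by
    have := mul_le_mul_of_nonneg_left hpe2 (show (0 : ℝ) ≤ (l : ℝ) ^ 21 by positivity)
    linarith
  obtain ⟨I, hI1, hI2⟩ : ∃ I : ℕ, (p : ℝ) * l ^ 21 * exp (-(2 * r)) ≤ I ∧
      (I : ℝ) ≤ 2 * (p * l ^ 21 * exp (-(2 * r))) := by
    refine ⟨⌈(p : ℝ) * l ^ 21 * exp (-(2 * r))⌉₊, Nat.le_ceil _, ?_⟩
    have a1 := Nat.ceil_lt_add_one (show 0 ≤ (p : ℝ) * l ^ 21 * exp (-(2 * r)) by positivity)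
    linarith
  have hIl : l ^ 21 ≤ I := by
    have : (l : ℝ) ^ 21 ≤ I := by linarith
    exact_mod_cast this
  have hIp : I ≤ 2 * p * l ^ 21 := by
    have a1 : exp (-(2 * r) : ℝ) ≤ 1 := exp_le_one_iff.mpr (by linarith)
    have a2 : (p : ℝ) * l ^ 21 * exp (-(2 * r)) ≤ p * l ^ 21 * 1 := by gcongr
    have : (I : ℝ) ≤ 2 * p * l ^ 21 := by linarith
    exact_mod_cast this
  obtain ⟨τ, hτ⟩ : ∃ τ : ℕ, τ = I * A := ⟨_, rfl⟩
  have hτl : l ^ 21 * A ≤ τ := by rw [hτ]; gcongr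
  have hl2 : 2 * l ≤ l ^ 21 * A := by
    calc 2 * l ≤ l * l := by gcongr; omega
      _ = l ^ 2 * 1 := by ring
      _ ≤ l ^ 21 * A := by gcongr <;> omega
  have hmτ : 2 * m ≤ (r + 1) * τ := by
    calc 2 * m ≤ τ := by omega
      _ ≤ (r + 1) * τ := Nat.le_mul_of_pos_left τ (by omega)
  obtain ⟨S, hS⟩ : ∃ S : ℕ, (r + 1) * τ = S + m := ⟨(r + 1) * τ - m, by omega⟩
  have hτ1 : (l : ℝ) ≤ τ := by
    have : l ≤ τ := by omega
    exact_mod_cast this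
  have hS4 : (D : ℝ) * τ ≤ 4 * S := by
    have a1 : (r + 1) * τ ≤ 2 * S := by omega
    have a2 : ((r : ℝ) + 1) * τ ≤ 2 * S := by exact_mod_cast a1
    have a3 : (D : ℝ) * τ ≤ 2 * (r + 1) * τ := by gcongr
    linarith
  -- the parameter `B1`
  have hD0 : (1 : ℝ) ≤ D := by linarith
  have hDτ0 : (τ : ℝ) ≤ D * τ := le_mul_of_one_le_left (by positivity) hD0
  have hDτ : La ≤ D * τ := by linarith
  obtain ⟨B1, hB1, hB2⟩ : ∃ B1 : ℕ, 12 * D * (2 * τ : ℝ) ≤ B1 * La ∧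
      B1 * La ≤ 25 * (D * τ) := by
    refine ⟨⌈24 * (D * τ) / La⌉₊, ?_, ?_⟩
    · have a1 := Nat.le_ceil (24 * ((D : ℝ) * τ) / La)
      rw [div_le_iff₀ hLa0] at a1
      linarith
    · have a1 := Nat.ceil_lt_add_one (show 0 ≤ 24 * ((D : ℝ) * τ) / La by positivity)
      have a2 := mul_le_mul_of_nonneg_right a1.le hLa0.le
      rw [add_mul, div_mul_cancel₀ _ hLa0.ne'] at a2
      linarith
  have hB3 : l ^ 20 * A ≤ B1 := by
    have a1 : (l : ℝ) ^ 21 * A ≤ τ := by exact_mod_cast hτl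
    have a2 : (B1 : ℝ) * La ≤ B1 * l := by gcongr
    have a3 : (0 : ℝ) ≤ τ := by positivity
    have a4 : (l : ℝ) ^ 20 * A * l ≤ B1 * l := by
      have : (l : ℝ) ^ 20 * A * l = l ^ 21 * A := by ring
      linarith
    have a5 : (l : ℝ) ^ 20 * A ≤ B1 := le_of_mul_le_mul_right a4 (by linarith)
    exact_mod_cast a5
  have hB4 : (B1 : ℝ) ≤ 25 * τ := by
    have a1 : (D : ℝ) * τ ≤ La * τ := by gcongr
    have a2 : (B1 : ℝ) * La ≤ 25 * τ * La := by linarith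
    exact le_of_mul_le_mul_right a2 hLa0
  have hl20 : l ^ 20 ≤ B1 := le_trans (Nat.le_mul_of_pos_right _ hA) hB3
  have hB0 : 1 ≤ B1 := le_trans (Nat.one_le_pow _ _ (by omega)) hl20
  obtain ⟨T, hT⟩ : ∃ T : ℕ, T = 4 * (r + 3) * B1 := ⟨_, rfl⟩
  have hrT : r ≤ T := by
    rw [hT]; exact le_trans (by omega) (Nat.le_mul_of_pos_right _ hB0)
  have hBT : B1 ≤ T := by
    rw [hT]; exact Nat.le_mul_of_pos_left _ (by omega)
  have hST : 256 * ρ ^ 3 * (2 * T) ≤ S := by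
    have a1 : (T : ℝ) = 4 * (r + 3) * B1 := by rw [hT]; push_cast; ring
    have a2 : 204800 * ρ ^ 3 * (r + 3) * B1 ≤ La * B1 := by gcongr
    have a3 : 256 * ρ ^ 3 * (2 * (4 * (r + 3) * B1)) = 204800 * ρ ^ 3 * (r + 3) * B1 / 100 := by
      ring
    rw [a1, a3]
    linarith
  obtain ⟨Lc, hLc⟩ : ∃ Lc : ℕ, Lc = (l ^ 9 + 1) * (D * (l ^ 9 * (T + r).choose r)) := ⟨_, rfl⟩
  have hl9 : 1 ≤ l ^ 9 := Nat.one_le_pow _ _ (by omega)
  have hLc0 : 0 < Lc := by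
    rw [hLc]
    have : 0 < (T + r).choose r := Nat.choose_pos (by omega)
    have : 0 < D := by omega
    positivity
  have hLc1 : Lc ≤ 2 ^ (3 * T) := by
    have a1 : (T + r).choose r ≤ 2 ^ (2 * T) :=
      (Nat.choose_le_two_pow _ _).trans (Nat.pow_le_pow_right (by norm_num) (by omega))
    have a2 : (l ^ 9 + 1) * D * l ^ 9 ≤ 2 ^ T := by
      calc (l ^ 9 + 1) * D * l ^ 9 ≤ (2 * l ^ 9) * l * l ^ 9 := by gcongr; omega
        _ = 2 * l ^ 19 := by ring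
        _ ≤ l * l ^ 19 := by gcongr; omega
        _ = l ^ 20 := by ring
        _ ≤ T := hl20.trans hBT
        _ ≤ 2 ^ T := Nat.lt_two_pow_self.le
    calc Lc = ((l ^ 9 + 1) * D * l ^ 9) * (T + r).choose r := by rw [hLc]; ring
      _ ≤ 2 ^ T * 2 ^ (2 * T) := Nat.mul_le_mul a2 a1
      _ = 2 ^ (3 * T) := by rw [← pow_add]; congr 1; ring
  have hB2le : B1 / l ^ 3 ≤ B1 := Nat.div_le_self _ _
  -- the inequality for `N`
  have hNN : 2 ^ (r + 2) * l ^ 9 * (B1 + B1 / l ^ 3) ≤ N := by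
    have a1 : 2 ^ (r + 2) * l ^ 9 * (B1 + B1 / l ^ 3) ≤ 2 ^ (r + 2) * l ^ 9 * (2 * B1) := by
      gcongr; omega
    have a2 : (B1 : ℝ) ≤ 25 * (2 * (p * l ^ 21 * exp (-(2 * r))) * A) := by
      have b1 : (τ : ℝ) = I * A := by rw [hτ]; push_cast; ring
      have b2 : (I : ℝ) * A ≤ 2 * (p * l ^ 21 * exp (-(2 * r))) * A := by gcongr
      linarith
    have a3 : (2 : ℝ) ^ r * exp (-(2 * r)) ≤ exp (-r) := by
      calc (2 : ℝ) ^ r * exp (-(2 * r)) ≤ exp r * exp (-(2 * r)) := by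
            gcongr; exact two_pow_le r
        _ = exp (-r) := by rw [← exp_add]; congr 1; ring
    have a4 : (l : ℝ) ^ 30 ≤ (2 * La) ^ 30 := pow_le_pow_left₀ (by positivity) h2 30
    have a5 : 400 * 2 ^ 30 * (A : ℝ) ≤ La ^ 10 := by
      calc 400 * 2 ^ 30 * (A : ℝ) ≤ La ^ 1 := by rw [pow_one]; exact hLaA
        _ ≤ La ^ 10 := pow_le_pow_right₀ (by linarith) (by norm_num)
    have a6 : ((2 ^ (r + 2) * l ^ 9 * (2 * B1) : ℕ) : ℝ) ≤ p * La ^ 40 * exp (-r) := by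
      push_cast
      calc (2 : ℝ) ^ (r + 2) * l ^ 9 * (2 * B1)
          ≤ 2 ^ (r + 2) * l ^ 9 * (2 * (25 * (2 * (p * l ^ 21 * exp (-(2 * r))) * A))) := by
            gcongr
        _ = 400 * A * l ^ 30 * p * (2 ^ r * exp (-(2 * r))) := by ring
        _ ≤ 400 * A * (2 * La) ^ 30 * p * exp (-r) := by gcongr
        _ = (400 * 2 ^ 30 * A) * La ^ 30 * p * exp (-r) := by ring
        _ ≤ La ^ 10 * La ^ 30 * p * exp (-r) := by gcongr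
        _ = p * La ^ 40 * exp (-r) := by ring
    have a7 : 2 ^ (r + 2) * l ^ 9 * (2 * B1) ≤ N := by exact_mod_cast a6.trans hN.le
    exact a1.trans a7
  have hN4 : 4 * B1 ≤ N := by
    refine le_trans ?_ hNN
    have a1 : 4 ≤ 2 ^ (r + 2) := by
      calc 4 = 2 ^ 2 := by norm_num
        _ ≤ _ := Nat.pow_le_pow_right (by norm_num) (by omega)
    calc 4 * B1 = 4 * 1 * B1 := by ring
      _ ≤ 2 ^ (r + 2) * l ^ 9 * (B1 + B1 / l ^ 3) :=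
        Nat.mul_le_mul (Nat.mul_le_mul a1 hl9) (Nat.le_add_right _ _)
  refine ⟨m, S, τ, I, l ^ 9, B1, B1 / l ^ 3, l ^ 3 + 2, 2 ^ (l ^ 3),
    3 * Lc * (2 ^ (l ^ 3)) ^ T * ⌈exp (2 * τ)⌉₊ ^ 2, T, Lc, ?_, ?_, hS, ?_, ?_, ?_, ?_, ?_, ?_,
    ?_, ?_, by omega, hLc.ge, ?_, hB1, ?_, hNN⟩
  · rw [← exp_log hρ0, ← exp_nat_mul, exp_lt_exp]; exact hm1
  · rw [← hpL, exp_lt_exp]; exact hmL
  · have a1 : (A : ℝ) ≤ exp A := by have := add_one_le_exp (A : ℝ); linarith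
    calc (A : ℝ) ^ I ≤ exp A ^ I := pow_le_pow_left₀ (by positivity) a1 I
      _ = exp τ := by rw [← exp_nat_mul, hτ]; push_cast; rfl
  · rw [hLc]
    exact count p r D m l I S T ρ hρ hD2 hl700 hDl (hρL.trans h1) hm2 hI1 (by omega) hrT hST
  · have : ((D + 1 : ℕ) : ℝ) < p := by push_cast; linarith
    exact_mod_cast this
  · have : ((2 * A : ℕ) : ℝ) < p := by push_cast; linarith
    exact_mod_cast this
  · have a1 : 2 * exp (2 * τ) ≤ exp (1 + 2 * τ) := by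
      rw [exp_add]; gcongr; exact two_le_e
    have a2 : (4 : ℝ) * B1 ≤ N := by exact_mod_cast hN4
    have a3 : 4 * B1 * La ≤ N * La := by gcongr
    have a4 : (D : ℝ) * 1 ≤ D * τ := by gcongr; linarith
    calc (2 * exp (2 * τ)) ^ D ≤ exp (1 + 2 * τ) ^ D := pow_le_pow_left₀ (by positivity) a1 D
      _ = exp (D * (1 + 2 * τ)) := by rw [exp_nat_mul]
      _ < exp (N * La) := by rw [exp_lt_exp]; linarith
      _ = (p : ℝ) ^ N := by rw [exp_nat_mul, hpL]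
  · have a1 : p ≤ 4 ^ l := by
      have b1 : (p : ℝ) ≤ exp l := by rw [← hpL]; exact exp_le_exp.mpr h1
      exact_mod_cast b1.trans (exp_le_four l)
    have a2 : τ ≤ 2 * p * l ^ 21 * A := by rw [hτ]; gcongr
    exact_mod_cast jineq A p D l τ hlA hDl a1 a2
  · rw [pow_add]
    have : 0 < 2 ^ (l ^ 3) := by positivity
    omega
  · have a1 : l ^ 3 * (B1 / l ^ 3) ≤ B1 := Nat.mul_div_le _ _
    have a2 : 2 ≤ l ^ 3 := by
      calc 2 ≤ l ^ 1 := by rw [pow_one]; omega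
        _ ≤ l ^ 3 := Nat.pow_le_pow_right (by omega) (by norm_num)
    have a3 : 2 * (B1 / l ^ 3) ≤ l ^ 3 * (B1 / l ^ 3) := by gcongr
    have a4 : 2 * B1 + (l ^ 3 + 2) * (B1 / l ^ 3) ≤ 4 * B1 := by rw [add_mul]; omega
    calc (r + 3) * (2 * B1 + (l ^ 3 + 2) * (B1 / l ^ 3)) ≤ (r + 3) * (4 * B1) := by gcongr
      _ = T := by rw [hT]; ring
  · push_cast
    have a1 : exp (2 * τ) ≤ (⌈exp (2 * τ)⌉₊ : ℝ) := Nat.le_ceil _
    have a2 : (1 : ℝ) ≤ Lc := by exact_mod_cast hLc0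
    have a3 : (1 : ℝ) ≤ ((2 : ℝ) ^ (l ^ 3)) ^ T := one_le_pow₀ (one_le_pow₀ (by norm_num))
    have a4 : (1 : ℝ) ≤ 3 * Lc * ((2 : ℝ) ^ (l ^ 3)) ^ T :=
      one_le_mul_of_one_le_of_one_le (by linarith) a3
    have a5 : 3 * Lc * ((2 : ℝ) ^ (l ^ 3)) ^ T ≤ (3 * Lc * ((2 : ℝ) ^ (l ^ 3)) ^ T) ^ (l ^ 9) :=
      le_self_pow₀ a4 (by omega)
    have a6 : exp (2 * τ) ^ (2 * l ^ 9) ≤ (⌈exp (2 * τ)⌉₊ : ℝ) ^ (2 * l ^ 9) :=
      pow_le_pow_left₀ (by positivity) a1 _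
    rw [mul_pow, ← pow_mul (⌈exp (2 * τ)⌉₊ : ℝ), ← mul_assoc]
    exact mul_le_mul a5 a6 (by positivity) (by positivity)
  · have hX := logbd l τ T Lc hLc0 hLc1
    rw [hT] at hX
    rw [hT]
    exact b2ineq A r D l τ B1 La _ hA hl700 hDl hrl h1 h2 hB3 hB1 hX

end Pool.Agent.P.MP_657a03_nt
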