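import Pool.Agent.P.MP_657a03_nt.Iface

/-!
Integer coordinates on a family of congruent integers of a number field.
-/

set_option autoImplicit false

open NumberField NumberField.Units Module Real Matrix

namespace Pool.Agent.P.MP_657a03_nt

namespace Coord

section Padic

variable {p : ℕ} [Fact p.Prime]

lemma norm_one_of {t : ℚ_[p]} (h : ‖t - 1‖ < 1) : ‖t‖ = 1 := by
  have h1 : ‖t + (-1)‖ < ‖(-1 : ℚ_[p])‖ := by
    rw [norm_neg, norm_one, ← sub_eq_add_neg]; exact h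
  have := Padic.norm_eq_of_norm_add_lt_right h1
  rwa [norm_neg, norm_one] at this

lemma mul_le {s t : ℚ_[p]} {ε : ℝ} (hε : ε < 1) (hs : ‖s - 1‖ ≤ ε) (ht : ‖t - 1‖ ≤ ε) :
    ‖s * t - 1‖ ≤ ε := by
  have h1 : s * t - 1 = s * (t - 1) + (s - 1) := by ring
  rw [h1]
  refine (Padic.nonarchimedean _ _).trans (max_le ?_ hs)
  rw [norm_mul, norm_one_of (hs.trans_lt hε), one_mul]; exact ht

lemma inv_eq {t : ℚ_[p]} (ht : ‖t - 1‖ < 1) : ‖t⁻¹ - 1‖ = ‖t - 1‖ := by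
  have h1 := norm_one_of ht
  have h0 : t ≠ 0 := by
    intro h; rw [h, norm_zero] at h1; exact zero_ne_one h1
  have : t⁻¹ - 1 = -(t⁻¹ * (t - 1)) := by field_simp; ring
  rw [this, norm_neg, norm_mul, norm_inv, h1, inv_one, one_mul]

lemma pow_le {t : ℚ_[p]} {ε : ℝ} (hε : ε < 1) (ht : ‖t - 1‖ ≤ ε) (k : ℕ) :
    ‖t ^ k - 1‖ ≤ ε := by
  induction k with
  | zero => simpa using (norm_nonneg _).trans ht
  | succ k ih => rw [pow_succ]; exact mul_le hε ih ht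

lemma zpow_le {t : ℚ_[p]} {ε : ℝ} (hε : ε < 1) (ht : ‖t - 1‖ ≤ ε) (k : ℤ) :
    ‖t ^ k - 1‖ ≤ ε := by
  rcases k with k | k
  · simpa using pow_le hε ht k
  · rw [zpow_negSucc, inv_eq ((pow_le hε ht _).trans_lt hε)]
    exact pow_le hε ht _

lemma red_eq_one_iff (N : ℕ) (t : ℤ_[p]) :
    PadicInt.toZModPow N t = 1 ↔ ‖(t : ℚ_[p]) - 1‖ ≤ (p : ℝ) ^ (-(N : ℤ)) := by
  have h1 : ‖(t : ℚ_[p]) - 1‖ = ‖t - 1‖ := by
    rw [PadicInt.norm_def]; simp
  rw [h1, PadicInt.norm_le_pow_iff_mem_span_pow, ← PadicInt.ker_toZModPow, RingHom.mem_ker,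
    map_sub, map_one, sub_eq_zero]

lemma red_dvd (N : ℕ) (t : ℤ_[p]) (h : ‖(t : ℚ_[p]) - 1‖ < 1) :
    (p : ZMod (p ^ N)) ∣ PadicInt.toZModPow N t - 1 := by
  have h1 : ‖(t : ℚ_[p]) - 1‖ = ‖t - 1‖ := by
    rw [PadicInt.norm_def]; simp
  rw [h1, PadicInt.norm_lt_one_iff_dvd] at h
  have := map_dvd (PadicInt.toZModPow N) h
  simpa using this

lemma eta_close (a b : ℤ) (A N : ℕ) (b0 : b ≠ 0) (bA : |b| ≤ A) (Ap : A < p)
    (hd : (p : ℤ) ^ N ∣ a ^ (p - 1) - b ^ (p - 1)) :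
    ‖(((a : ℚ) / b : ℚ) : ℚ_[p]) ^ (p - 1) - 1‖ ≤ (p : ℝ) ^ (-(N : ℤ)) := by
  have hb : ‖(b : ℚ_[p])‖ = 1 := by
    refine le_antisymm (Padic.norm_int_le_one b) (not_lt.mp fun h => ?_)
    rw [Padic.norm_intCast_lt_one_iff] at h
    have h2 := Int.le_of_dvd (abs_pos.mpr b0) ((dvd_abs _ _).mpr h)
    omega
  have hb0 : (b : ℚ_[p]) ≠ 0 := by exact_mod_cast b0
  have h1 : (((a : ℚ) / b : ℚ) : ℚ_[p]) ^ (p - 1) - 1 =
      ((a ^ (p - 1) - b ^ (p - 1) : ℤ) : ℚ_[p]) * ((b : ℚ_[p]) ^ (p - 1))⁻¹ := by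
    push_cast
    rw [div_pow]
    field_simp
  rw [h1, norm_mul, norm_inv, norm_pow, hb, one_pow, inv_one, mul_one]
  exact (Padic.norm_int_le_pow_iff_dvd _ _).mpr hd

end Padic

section Field

variable {K : Type} [Field K] [NumberField K]

lemma prod_norm (y : K) :
    ∏ φ : K →+* ℂ, ‖φ y‖ = |((Algebra.norm ℚ y : ℚ) : ℝ)| := by
  have h := Algebra.norm_eq_prod_embeddings ℚ ℂ y
  have h2 : ∏ σ : K →ₐ[ℚ] ℂ, σ y = ∏ φ : K →+* ℂ, φ y :=
    (Fintype.prod_equiv (RingHom.equivRatAlgHom K ℂ) (fun φ : K →+* ℂ => φ y) (fun σ => σ y)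
      (fun φ => by simp [RingHom.equivRatAlgHom])).symm
  rw [h2] at h
  rw [← norm_prod, ← h]
  simp

lemma lbar_mul (x y : K) (hx : x ≠ 0) (hy : y ≠ 0) : lbar (x * y) = lbar x + lbar y := by
  funext φ
  have n1 : ((Algebra.norm ℚ x : ℚ) : ℝ) ≠ 0 := by
    exact_mod_cast (Algebra.norm_ne_zero_iff.mpr hx)
  have n2 : ((Algebra.norm ℚ y : ℚ) : ℝ) ≠ 0 := by
    exact_mod_cast (Algebra.norm_ne_zero_iff.mpr hy)
  have m1 : ‖φ x‖ ≠ 0 := by simpa using hx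
  have m2 : ‖φ y‖ ≠ 0 := by simpa using hy
  simp only [lbar, Pi.add_apply, map_mul, norm_mul, Rat.cast_mul, abs_mul]
  rw [log_mul m1 m2, log_mul (abs_ne_zero.mpr n1) (abs_ne_zero.mpr n2)]
  ring

/-- The normalised logarithmic embedding as a homomorphism. -/
noncomputable def LB (K : Type) [Field K] [NumberField K] :
    Additive Kˣ →+ ((K →+* ℂ) → ℝ) :=
  AddMonoidHom.mk' (fun y => lbar ((y.toMul : Kˣ) : K)) (fun x y => by
    rw [toMul_add, Units.val_mul]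
    exact lbar_mul _ _ (Units.ne_zero _) (Units.ne_zero _))

lemma lbar_rat (q : ℚ) : lbar (q : K) = 0 := by
  funext φ
  have hD : (finrank ℚ K : ℝ) ≠ 0 := by exact_mod_cast finrank_pos.ne'
  have h1 : Algebra.norm ℚ (q : K) = q ^ finrank ℚ K := by
    have := Algebra.norm_algebraMap (R := ℚ) (S := K) q
    simpa using this
  simp only [lbar, h1, map_ratCast, Complex.norm_ratCast, Rat.cast_pow, abs_pow, log_pow,
    Pi.zero_apply]
  field_simp
  ring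

lemma lbar_eq_zero (y : Kˣ) (n : ℕ) (hn : n ≠ 0) (q : ℚ) (h : (y : K) ^ n = (q : K)) :
    lbar (y : K) = 0 := by
  have h1 : LB K (n • Additive.ofMul y) = 0 := by
    show lbar (((n • Additive.ofMul y).toMul : Kˣ) : K) = 0
    rw [toMul_nsmul, toMul_ofMul, Units.val_pow_eq_pow_val, h, lbar_rat]
  rw [map_nsmul] at h1
  exact (smul_eq_zero.mp h1).resolve_left hn

lemma lbar_bound (X : ℝ) (hX : 1 ≤ X) (x : 𝓞 K) (hx : x ≠ 0) (h : Hs X (x : K)) (φ : K →+* ℂ) :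
    -(finrank ℚ K * log X) ≤ lbar (x : K) φ ∧ lbar (x : K) φ ≤ log X := by
  classical
  have hDpos : 0 < finrank ℚ K := finrank_pos
  have hD : (0 : ℝ) < finrank ℚ K := by exact_mod_cast hDpos
  have hx' : (x : K) ≠ 0 := by simpa using hx
  have hL : 0 ≤ log X := log_nonneg hX
  have hn1 : (1 : ℝ) ≤ |((Algebra.norm ℚ (x : K) : ℚ) : ℝ)| := by
    have h1 : Algebra.norm ℤ x ≠ 0 := Algebra.norm_ne_zero_iff.mpr hx
    have h2 : (1 : ℤ) ≤ |Algebra.norm ℤ x| := Int.one_le_abs h1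
    rw [← Algebra.coe_norm_int]
    exact_mod_cast h2
  have hpos : ∀ ψ : K →+* ℂ, 0 < ‖ψ (x : K)‖ := fun ψ => by simpa using hx
  have hle : ∀ ψ : K →+* ℂ, log ‖ψ (x : K)‖ ≤ log X := fun ψ => log_le_log (hpos ψ) (h ψ)
  have hsum : log |((Algebra.norm ℚ (x : K) : ℚ) : ℝ)| = ∑ ψ : K →+* ℂ, log ‖ψ (x : K)‖ := by
    rw [← prod_norm, log_prod (fun ψ _ => (hpos ψ).ne')]
  have hcard : Fintype.card (K →+* ℂ) = finrank ℚ K := Embeddings.card K ℂ
  set n := log |((Algebra.norm ℚ (x : K) : ℚ) : ℝ)| with hn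
  have hn0 : 0 ≤ n := log_nonneg hn1
  have hup : n ≤ log ‖φ (x : K)‖ + (finrank ℚ K - 1) * log X := by
    rw [hsum, ← Finset.add_sum_erase _ _ (Finset.mem_univ φ)]
    have := Finset.sum_le_card_nsmul (Finset.univ.erase φ) (fun ψ : K →+* ℂ => log ‖ψ (x : K)‖)
      (log X) (fun ψ _ => hle ψ)
    rw [Finset.card_erase_of_mem (Finset.mem_univ φ), Finset.card_univ, hcard, nsmul_eq_mul,
      Nat.cast_sub hDpos] at this
    push_cast at this
    linarith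
  have h1 : 0 ≤ n / finrank ℚ K := div_nonneg hn0 hD.le
  have h2 : n / finrank ℚ K ≤ log X := by
    rw [div_le_iff₀ hD]
    have := hle φ
    nlinarith
  unfold lbar
  rw [← hn]
  constructor
  · nlinarith [hle φ]
  · linarith [hle φ]

lemma rank_le : rank K ≤ finrank ℚ K := by
  have := InfinitePlace.card_add_two_mul_card_eq_rank K
  have h2 := InfinitePlace.card_eq_nrRealPlaces_add_nrComplexPlaces K
  unfold NumberField.Units.rank
  omega

lemma exists_coord (K : Type) [Field K] [NumberField K] :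
    ∃ θ : (𝓞 K)ˣ → (Fin (rank K) → ℤ), (∀ u v, θ (u * v) = θ u + θ v) ∧
      ∀ u, θ u = 0 ↔ u ∈ torsion K := by
  choose f hf hu using exist_unique_eq_mul_prod K
  refine ⟨fun u => (f u).2, fun u v => ?_, fun u => ⟨fun h => ?_, fun h => ?_⟩⟩
  · have := hu (u * v) ((f u).1 * (f v).1, (f u).2 + (f v).2) (by
      have e1 := hf u
      have e2 := hf v
      simp only [Subgroup.coe_mul, Pi.add_apply, _root_.zpow_add, Finset.prod_mul_distrib] at *
      rw [mul_mul_mul_comm, ← e1, ← e2])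
    show (f (u * v)).2 = (f u).2 + (f v).2
    rw [← this]
  · have h' : (f u).2 = 0 := h
    have := hf u
    simp only [h', Pi.zero_apply, zpow_zero, Finset.prod_const_one, mul_one] at this
    rw [this]; exact (f u).1.2
  · have := hu u (⟨u, h⟩, 0) (by simp)
    show (f u).2 = 0
    rw [← this]

lemma uniq (η : ℚ) (h0 : η ≠ 0) (h1 : |η| ≠ 1) (u u' : (𝓞 K)ˣ) (l l' : ℤ)
    (h : ((u : 𝓞 K) : K) * (η : K) ^ l = ((u' : 𝓞 K) : K) * (η : K) ^ l') : u = u' := by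
  have hD : finrank ℚ K ≠ 0 := finrank_pos.ne'
  have hn : ∀ k : ℤ, Algebra.norm ℚ ((η : K) ^ k) = (η ^ k) ^ finrank ℚ K := fun k => by
    have := Algebra.norm_algebraMap (R := ℚ) (S := K) (η ^ k)
    simpa using this
  have h2 := congrArg (fun t => |Algebra.norm ℚ t|) h
  have e1 : |Algebra.norm ℚ ((u : 𝓞 K) : K)| = 1 := NumberField.Units.norm K u
  have e2 : |Algebra.norm ℚ ((u' : 𝓞 K) : K)| = 1 := NumberField.Units.norm K u'
  simp only [map_mul, abs_mul, e1, e2, one_mul, hn, abs_pow, abs_zpow] at h2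
  have h3 : |η| ^ l = |η| ^ l' :=
    (pow_left_inj₀ (by positivity) (by positivity) hD).mp h2
  have h4 : l = l' := zpow_right_injective₀ (abs_pos.mpr h0) h1 h3
  subst h4
  have h5 : ((η : K) ^ l) ≠ 0 := zpow_ne_zero _ (by exact_mod_cast h0)
  have h6 := mul_right_cancel₀ h5 h
  exact Units.ext (RingOfIntegers.ext h6)

lemma not_dvd_order (p : ℕ) (hp : p.Prime) (hD : finrank ℚ K + 1 < p) (u : (𝓞 K)ˣ)
    (hu : u ∈ torsion K) : ∃ w : ℕ, w ≠ 0 ∧ ¬ p ∣ w ∧ u ^ w = 1 := by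
  have hf : IsOfFinOrder u := hu
  refine ⟨orderOf u, hf.orderOf_pos.ne', fun hd => ?_, pow_orderOf_eq_one u⟩
  have h1 : orderOf (u ^ (orderOf u / p)) = p := orderOf_pow_orderOf_div hf.orderOf_pos.ne' hd
  have h2 : IsPrimitiveRoot (u ^ (orderOf u / p)) p := by
    have := IsPrimitiveRoot.orderOf (u ^ (orderOf u / p))
    rwa [h1] at this
  have h3 : IsPrimitiveRoot ((((u ^ (orderOf u / p) : (𝓞 K)ˣ) : 𝓞 K)) : K) p :=
    (IsPrimitiveRoot.coe_units_iff.mpr h2).map_of_injective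
      (f := algebraMap (𝓞 K) K) RingOfIntegers.coe_injective
  have h4 := Polynomial.cyclotomic_eq_minpoly_rat h3 hp.pos
  have h5 := minpoly.natDegree_le (A := ℚ) ((((u ^ (orderOf u / p) : (𝓞 K)ˣ) : 𝓞 K)) : K)
  rw [← h4, Polynomial.natDegree_cyclotomic, Nat.totient_prime hp] at h5
  omega

end Field

section Group

variable {p : ℕ} [Fact p.Prime] {K : Type} [Field K] [NumberField K]

/-- The elements congruent to one, a fixed power of which is a unit times a power of `η`. -/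
def Gam (ι : K →+* ℚ_[p]) (η : ℚ) (h0 : η ≠ 0) (e : ℕ) : Subgroup Kˣ where
  carrier := {y | (∃ (u : (𝓞 K)ˣ) (l : ℤ), (y : K) ^ e = ((u : 𝓞 K) : K) * (η : K) ^ l) ∧
    ‖ι (y : K) - 1‖ < 1}
  one_mem' := ⟨⟨1, 0, by simp⟩, by simp⟩
  mul_mem' := by
    rintro x y ⟨⟨u, l, h⟩, hx⟩ ⟨⟨u', l', h'⟩, hy⟩
    have hη : (η : K) ≠ 0 := by exact_mod_cast h0
    refine ⟨⟨u * u', l + l', ?_⟩, ?_⟩
    · rw [Units.val_mul, mul_pow, h, h', zpow_add₀ hη]
      push_cast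
      ring
    · rw [Units.val_mul, map_mul]
      exact (mul_le (max_lt hx hy) (le_max_left _ _) (le_max_right _ _)).trans_lt (max_lt hx hy)
  inv_mem' := by
    rintro x ⟨⟨u, l, h⟩, hx⟩
    refine ⟨⟨u⁻¹, -l, ?_⟩, ?_⟩
    · have h1 : (((u⁻¹ : (𝓞 K)ˣ) : 𝓞 K) : K) = (((u : 𝓞 K) : K))⁻¹ := by
        simp
      rw [Units.val_inv_eq_inv_val, inv_pow, h, h1, _root_.zpow_neg, mul_inv]
    · rw [Units.val_inv_eq_inv_val, map_inv₀, inv_eq hx]; exact hx

variable (ι : K →+* ℚ_[p]) (η : ℚ) (h0 : η ≠ 0) (e : ℕ)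

/-- The unit attached to an element of the group. -/
noncomputable def uf (h1 : |η| ≠ 1) : Gam ι η h0 e →* (𝓞 K)ˣ :=
  MonoidHom.mk' (fun y => Classical.choose y.2.1) (fun x y => by
    obtain ⟨l, h⟩ := Classical.choose_spec x.2.1
    obtain ⟨l', h'⟩ := Classical.choose_spec y.2.1
    obtain ⟨l'', h''⟩ := Classical.choose_spec (x * y).2.1
    have hη : (η : K) ≠ 0 := by exact_mod_cast h0
    refine uniq η h0 h1 _ _ l'' (l + l') ?_
    have key : ∀ (s t : K) (u v : (𝓞 K)ˣ), s ^ e = ((u : 𝓞 K) : K) * (η : K) ^ l →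
        t ^ e = ((v : 𝓞 K) : K) * (η : K) ^ l' →
        (s * t) ^ e = (((u * v : (𝓞 K)ˣ) : 𝓞 K) : K) * (η : K) ^ (l + l') := by
      intro s t u v hs ht
      rw [mul_pow, hs, ht, zpow_add₀ hη]
      push_cast
      ring
    exact h''.symm.trans (key _ _ _ _ h h'))

lemma uf_spec (h1 : |η| ≠ 1) (y : Gam ι η h0 e) :
    ∃ l : ℤ, ((y : Kˣ) : K) ^ e = ((uf ι η h0 e h1 y : 𝓞 K) : K) * (η : K) ^ l :=
  Classical.choose_spec y.2.1

lemma exists_th (h1 : |η| ≠ 1) : ∃ θ : Additive (Gam ι η h0 e) →+ (Fin (rank K) → ℤ),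
    ∀ y, θ y = 0 ↔ uf ι η h0 e h1 y.toMul ∈ torsion K := by
  obtain ⟨θ, hθ, hz⟩ := exists_coord K
  exact ⟨AddMonoidHom.mk' (fun y => θ (uf ι η h0 e h1 y.toMul)) (fun x y => by
    rw [toMul_add, map_mul, hθ]), fun y => hz _⟩

/-- The logarithmic embedding on the group. -/
noncomputable def ell : Additive (Gam ι η h0 e) →+ ((K →+* ℂ) → ℝ) :=
  (LB K).comp (MonoidHom.toAdditive (Gam ι η h0 e).subtype)

lemma ell_apply (y : Additive (Gam ι η h0 e)) :
    ell ι η h0 e y = lbar (((y.toMul : Gam ι η h0 e) : Kˣ) : K) := rfl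

/-- The image in the `p`-adic integers. -/
noncomputable def ps0 : Gam ι η h0 e →* ℤ_[p] where
  toFun y := ⟨ι ((y : Kˣ) : K), (norm_one_of y.2.2).le⟩
  map_one' := Subtype.ext (by simp)
  map_mul' x y := Subtype.ext (map_mul ι _ _)

/-- The reduction modulo `p ^ N`. -/
noncomputable def ps (N : ℕ) : Gam ι η h0 e →* (ZMod (p ^ N))ˣ :=
  ((PadicInt.toZModPow N).toMonoidHom.comp (ps0 ι η h0 e)).toHomUnits

lemma ps_val (N : ℕ) (y : Gam ι η h0 e) :
    ((ps ι η h0 e N y : (ZMod (p ^ N))ˣ) : ZMod (p ^ N)) =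
      PadicInt.toZModPow N (ps0 ι η h0 e y) := rfl

lemma ps_dvd (N : ℕ) (y : Gam ι η h0 e) :
    (p : ZMod (p ^ N)) ∣ (ps ι η h0 e N y : ZMod (p ^ N)) - 1 := by
  rw [ps_val]
  exact red_dvd N _ y.2.2

lemma ps_eq_one (h1 : |η| ≠ 1) (N : ℕ) (hN : N ≠ 0) (he : ¬ p ∣ e) (hD : finrank ℚ K + 1 < p)
    (hη : ‖(η : ℚ_[p]) ^ (p - 1) - 1‖ ≤ (p : ℝ) ^ (-(N : ℤ))) (y : Gam ι η h0 e)
    (hy : uf ι η h0 e h1 y ∈ torsion K) : ps ι η h0 e N y = 1 := by
  have hp : p.Prime := Fact.out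
  obtain ⟨w, -, hw, hu⟩ := not_dvd_order p hp hD _ hy
  obtain ⟨l, hl⟩ := uf_spec ι η h0 e h1 y
  have hε : (p : ℝ) ^ (-(N : ℤ)) < 1 :=
    zpow_lt_one_of_neg₀ (by exact_mod_cast hp.one_lt) (by omega)
  have a1 : ps ι η h0 e N y ^ (e * w * (p - 1)) = 1 := by
    apply Units.ext
    rw [← map_pow, ps_val, Units.val_one, red_eq_one_iff]
    have b1 : ((ps0 ι η h0 e (y ^ (e * w * (p - 1))) : ℤ_[p]) : ℚ_[p]) =
        ((η : ℚ_[p]) ^ (p - 1)) ^ (l * w) := by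
      show ι (((y ^ (e * w * (p - 1)) : Gam ι η h0 e) : Kˣ) : K) = _
      have c1 : (((uf ι η h0 e h1 y : (𝓞 K)ˣ) : 𝓞 K) : K) ^ w = 1 := by
        have := congrArg (fun t : (𝓞 K)ˣ => ((t : 𝓞 K) : K)) hu
        simpa using this
      rw [Subgroup.coe_pow, Units.val_pow_eq_pow_val, pow_mul, pow_mul, hl, mul_pow, c1, one_mul,
        map_pow, map_pow, map_zpow₀, map_ratCast, ← zpow_natCast, ← zpow_natCast, ← zpow_natCast,
        ← _root_.zpow_mul, ← _root_.zpow_mul, ← _root_.zpow_mul]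
      congr 1
      ring
    rw [b1]
    exact zpow_le hε hη _
  have a2 : ps ι η h0 e N y ^ (p ^ N) = 1 := by
    apply Units.ext
    have := dvd_sub_pow_of_dvd_sub (ps_dvd ι η h0 e N y) N
    have hz : ((p : ZMod (p ^ N)) ^ (N + 1)) = 0 := by
      rw [pow_succ, ← Nat.cast_pow, ZMod.natCast_self, zero_mul]
    rw [hz, zero_dvd_iff, one_pow, sub_eq_zero] at this
    rw [Units.val_pow_eq_pow_val, this, Units.val_one]
  have hc : Nat.Coprime (e * w * (p - 1)) (p ^ N) := by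
    apply Nat.Coprime.pow_right
    rw [Nat.coprime_comm, hp.coprime_iff_not_dvd, hp.dvd_mul, hp.dvd_mul]
    rintro ((h | h) | h)
    · exact he h
    · exact hw h
    · have := Nat.le_of_dvd (by have := hp.two_le; omega) h
      have := hp.pos
      omega
  have := Nat.dvd_gcd (orderOf_dvd_of_pow_eq_one a1) (orderOf_dvd_of_pow_eq_one a2)
  rw [hc, Nat.dvd_one, orderOf_eq_one_iff] at this
  exact this

lemma ell_eq_zero (h1 : |η| ≠ 1) (he : e ≠ 0) (y : Gam ι η h0 e)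
    (hy : uf ι η h0 e h1 y ∈ torsion K) : lbar ((y : Kˣ) : K) = 0 := by
  have hf : IsOfFinOrder (uf ι η h0 e h1 y) := hy
  obtain ⟨w, hw, hu⟩ := isOfFinOrder_iff_pow_eq_one.mp hf
  obtain ⟨l, hl⟩ := uf_spec ι η h0 e h1 y
  have c1 : (((uf ι η h0 e h1 y : (𝓞 K)ˣ) : 𝓞 K) : K) ^ w = 1 := by
    have := congrArg (fun t : (𝓞 K)ˣ => ((t : 𝓞 K) : K)) hu
    simpa using this
  refine lbar_eq_zero _ (e * w) (mul_ne_zero he hw.ne') ((η ^ l) ^ w) ?_
  rw [pow_mul, hl, mul_pow, c1, one_mul]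
  push_cast
  rfl

end Group

end Coord

open Coord in
theorem coord (h1 : S_LAT) (h2 : S_KRON) (h3 : S_LIOU) : S_COORD := by
  classical
  intro p _ K _ _ ι a b A N I lev J X L hd
  rcases L.eq_empty_or_nonempty with rfl | ⟨x0, hx0⟩
  · exact ⟨0, Fin.elim0, fun _ => Fin.elim0, Nat.zero_le _, fun j => j.elim0, by simp, by simp,
      by simp⟩
  have hp : p.Prime := Fact.out
  have hF := hd.fam
  have hDpos : 0 < finrank ℚ K := finrank_pos
  have hdeg := hd.deg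
  set η : ℚ := (a : ℚ) / b with hη
  have ha0 : (a : ℚ) ≠ 0 := by exact_mod_cast hd.a0
  have hb0 : (b : ℚ) ≠ 0 := by exact_mod_cast hd.b0
  have h0 : η ≠ 0 := div_ne_zero ha0 hb0
  have hη1 : |η| ≠ 1 := by
    intro h
    rw [hη, abs_div, div_eq_one_iff_eq (abs_ne_zero.mpr hb0)] at h
    exact hd.ab (by exact_mod_cast h)
  have he0 : 2 ^ lev ≠ 0 := by positivity
  have hpe : ¬ p ∣ 2 ^ lev := fun h => by
    have := Nat.le_of_dvd two_pos (hp.dvd_of_dvd_pow h)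
    omega
  have hX := hF.one_le
  have hN : N ≠ 0 := by
    rintro rfl
    have h4 := hd.big
    have h5 : (1 : ℝ) ≤ (2 * X) ^ finrank ℚ K := one_le_pow₀ (by linarith)
    rw [pow_zero] at h4
    linarith
  have hε : (p : ℝ) ^ (-(N : ℤ)) < 1 :=
    zpow_lt_one_of_neg₀ (by exact_mod_cast hp.one_lt) (by omega)
  have hA : (1 : ℝ) ≤ A := by
    have := hd.aA
    have h4 := Int.one_le_abs hd.a0
    exact_mod_cast h4.trans this
  have hne : ∀ x ∈ L, (x : K) ≠ 0 := fun x hx => by simpa using hF.ne x hx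
  -- roots of quotients lie in the group
  have hmem : ∀ i ≤ lev, ∀ x ∈ L, ∀ x' ∈ L, ∀ y : Kˣ, (y : K) ^ (2 ^ i) * (x' : K) = (x : K) →
      ‖ι (y : K) - 1‖ < 1 → y ∈ Gam ι η h0 (2 ^ lev) := by
    intro i hi x hx x' hx' y hy hy1
    obtain ⟨u, j, -, hu⟩ := hF.rel x hx x' hx'
    refine ⟨⟨u ^ (2 ^ (lev - i)), j * (2 ^ (lev - i) : ℕ), ?_⟩, hy1⟩
    have e1 : (y : K) ^ (2 ^ i) = ((u : 𝓞 K) : K) * (η : K) ^ j := by
      apply mul_right_cancel₀ (hne x' hx')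
      rw [hy, hu]; ring
    have e2 : 2 ^ lev = 2 ^ i * 2 ^ (lev - i) := by rw [← pow_add]; congr 1; omega
    rw [e2, pow_mul, e1, mul_pow, _root_.zpow_mul, zpow_natCast]
    simp
  have hx0' := hne x0 hx0
  have hq : ∀ x ∈ L, (x : K) / x0 ≠ 0 := fun x hx => div_ne_zero (hne x hx) hx0'
  have hqm : ∀ x (hx : x ∈ L), Units.mk0 _ (hq x hx) ∈ Gam ι η h0 (2 ^ lev) := by
    intro x hx
    refine hmem 0 (Nat.zero_le _) x hx x0 hx0 _ (by simp [hx0']) ?_
    have e1 : ι ((x : K) / x0) - 1 = (ι x - ι x0) * (ι x0)⁻¹ := by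
      have : ι x0 ≠ 0 := by simpa using hF.ne x0 hx0
      rw [map_div₀]
      field_simp
    rw [Units.val_mk0, e1, norm_mul, norm_inv, hF.unit x0 hx0, inv_one, mul_one]
    exact hF.cong x hx x0 hx0
  let g : 𝓞 K → Additive (Gam ι η h0 (2 ^ lev)) := fun x =>
    if hx : x ∈ L then Additive.ofMul ⟨_, hqm x hx⟩ else 0
  have hg : ∀ x ∈ L, ((((g x).toMul : Gam ι η h0 (2 ^ lev)) : Kˣ) : K) = (x : K) / x0 := by
    intro x hx
    simp only [g, dif_pos hx]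
    rfl
  obtain ⟨θ, hθ⟩ := exists_th ι η h0 (2 ^ lev) hη1
  have hlog : 0 ≤ log X := log_nonneg hX
  have hD1 : (1 : ℝ) ≤ finrank ℚ K := by exact_mod_cast hDpos
  obtain ⟨s, γ, z, Φ, V, Δ, hs, hΔ, hV, hbd, -, hroot⟩ := h1 (Additive (Gam ι η h0 (2 ^ lev)))
    (rank K) (K →+* ℂ) θ (ell ι η h0 (2 ^ lev)) (𝓞 K) L g (((7 * A : ℝ) ^ finrank ℚ K)⁻¹)
    (2 * finrank ℚ K * log X) (by positivity) (by positivity)
    (fun y hy => by
      rw [ell_apply]
      exact ell_eq_zero ι η h0 _ hη1 he0 _ ((hθ y).mp hy))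
    (fun y hy => by
      by_contra hlt
      apply hy
      rw [hθ]
      obtain ⟨l, hl⟩ := uf_spec ι η h0 (2 ^ lev) hη1 y.toMul
      refine h2 K a b A (2 ^ lev) _ _ l hd.a0 hd.b0 hd.aA hd.bA he0 hl fun φ => ?_
      have := norm_le_pi_norm (ell ι η h0 (2 ^ lev) y) φ
      rw [ell_apply, Real.norm_eq_abs] at this
      rw [ell_apply] at hlt
      exact this.trans_lt (not_le.mp hlt))
    (fun x hx => by
      rw [ell_apply, hg x hx, pi_norm_le_iff_of_nonneg (by positivity)]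
      intro φ
      have e1 := lbar_mul ((x : K) / x0) x0 (hq x hx) hx0'
      rw [div_mul_cancel₀ _ hx0'] at e1
      have e2 := congrFun e1 φ
      rw [Pi.add_apply] at e2
      obtain ⟨b1, b2⟩ := lbar_bound X hX x (hF.ne x hx) (hF.hs x hx) φ
      obtain ⟨b3, b4⟩ := lbar_bound X hX x0 (hF.ne x0 hx0) (hF.hs x0 hx0) φ
      rw [Real.norm_eq_abs, abs_le]
      constructor <;> nlinarith)
  let ψ := ps ι η h0 (2 ^ lev) N
  have hψ : ∀ y : Additive (Gam ι η h0 (2 ^ lev)), θ y = 0 → ψ y.toMul = 1 := fun y hy =>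
    ps_eq_one ι η h0 _ hη1 N hN hpe hdeg
      (eta_close a b A N hd.b0 hd.bA hd.Ap hd.dvd) _ ((hθ y).mp hy)
  have hJ : ∀ x ∈ L, ∀ j, |(Φ *ᵥ z x) j| ≤ J := by
    intro x hx j
    have e1 := hbd x hx j
    rw [Embeddings.card K ℂ] at e1
    have e2 : (rank K : ℝ) ≤ finrank ℚ K := by exact_mod_cast Coord.rank_le
    have e3 : 2 * (rank K : ℝ) * (2 * finrank ℚ K * log X) / ((7 * A : ℝ) ^ finrank ℚ K)⁻¹ + 2 ≤
        8 * (finrank ℚ K : ℝ) ^ 2 * log X * (7 * A) ^ finrank ℚ K + 2 := by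
      rw [div_inv_eq_mul]
      have e4 : (0 : ℝ) ≤ (7 * A : ℝ) ^ finrank ℚ K := by positivity
      have e5 : 2 * (rank K : ℝ) * (2 * finrank ℚ K * log X) ≤
          8 * (finrank ℚ K : ℝ) ^ 2 * log X := by
        have e6 : 0 ≤ (finrank ℚ K : ℝ) * log X := by positivity
        nlinarith [mul_le_mul_of_nonneg_right e2 e6]
      nlinarith [mul_le_mul_of_nonneg_right e5 e4]
    have e7 := (e1.trans (pow_le_pow_left₀ (by positivity) e3 _)).trans hd.hJ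
    exact_mod_cast e7
  have key : ∀ i ≤ lev, ∀ x ∈ L, ∀ x' ∈ L, ∀ (y : K) (yh : ℤ_[p]), Root ι i x x' y yh →
      ∃ v : Fin s → ℤ, (2 ^ i : ℕ) • v = z x - z x' ∧ PadicInt.toZModPow N yh =
        ((∏ j, ψ (γ j).toMul ^ v j : (ZMod (p ^ N))ˣ) : ZMod (p ^ N)) := by
    intro i hi x hx x' hx' y yh ⟨r1, r2, r3⟩
    have hy0 : y ≠ 0 := by
      rintro rfl
      rw [zero_pow (by positivity), zero_mul] at r1
      exact hne x hx r1.symm
    have hy1 : ‖ι y - 1‖ < 1 := by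
      rw [← r2]
      have : ‖(yh : ℚ_[p]) - 1‖ = ‖yh - 1‖ := by rw [PadicInt.norm_def]; simp
      rwa [this]
    let Y : Additive (Gam ι η h0 (2 ^ lev)) :=
      Additive.ofMul ⟨Units.mk0 y hy0, hmem i hi x hx x' hx' _ r1 hy1⟩
    have hY : (2 ^ i : ℕ) • Y = g x - g x' := by
      apply Additive.toMul.injective
      apply Subtype.ext
      apply Units.ext
      rw [toMul_nsmul, toMul_sub, Subgroup.coe_pow, Subgroup.coe_div, Units.val_pow_eq_pow_val,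
        Units.val_div_eq_div_val, hg x hx, hg x' hx']
      show y ^ (2 ^ i) = _
      have := hne x' hx'
      rw [← r1]
      field_simp
    obtain ⟨v, hv1, hv2⟩ := hroot (2 ^ i) Y (by positivity) x hx x' hx' (by rw [hY])
    refine ⟨v, hv1, ?_⟩
    have e1 : θ (Y - ∑ j, v j • γ j) = 0 := by
      rw [map_sub, map_sum, hv2]
      simp
    have e2 := hψ _ e1
    rw [toMul_sub, map_div, div_eq_one, toMul_sum, map_prod] at e2
    simp only [toMul_zsmul, map_zpow] at e2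
    rw [← e2]
    show _ = PadicInt.toZModPow N (ps0 ι η h0 (2 ^ lev) Y.toMul)
    congr 1
    exact Subtype.ext r2
  refine ⟨s, fun j => ψ (γ j).toMul, fun x => Φ *ᵥ z x, hs, fun j => ps_dvd ι η h0 _ N _, hJ,
    fun i hi x' hx' => ⟨(2 ^ i : ℕ) • Φ, V, Φ *ᵥ z x', -(Δ • z x'), Δ * (2 ^ i : ℕ),
      mul_ne_zero hΔ (by positivity), fun x hx y yh hr => ?_⟩, fun x hx x' hx' y yh hr => ?_⟩
  · obtain ⟨v, hv1, hv2⟩ := key i hi x hx x' hx' y yh hr
    refine ⟨v, hv2, ?_, ?_⟩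
    · show Φ *ᵥ z x = _
      rw [Matrix.smul_mulVec, ← Matrix.mulVec_smul, hv1, Matrix.mulVec_sub]
      abel
    · show _ = _ + V *ᵥ (Φ *ᵥ z x)
      rw [Matrix.mulVec_mulVec, hV, Matrix.smul_mulVec, Matrix.one_mulVec, mul_smul, natCast_zsmul,
        hv1, smul_sub]
      abel
  · obtain ⟨v, hv1, hv2⟩ := key lev le_rfl x hx x' hx' y yh hr
    have e1 : Φ *ᵥ v = 0 := by
      funext j
      have f1 : ((2 ^ lev : ℕ) : ℤ) * (Φ *ᵥ v) j = (Φ *ᵥ z x) j - (Φ *ᵥ z x') j := by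
        rw [← Pi.sub_apply, ← Matrix.mulVec_sub, ← hv1, Matrix.mulVec_smul, Pi.smul_apply,
          nsmul_eq_mul]
      have f2 := abs_le.mp (hJ x hx j)
      have f3 := abs_le.mp (hJ x' hx' j)
      have f4 : (2 * J : ℤ) < ((2 ^ lev : ℕ) : ℤ) := by exact_mod_cast hd.hlev
      show (Φ *ᵥ v) j = 0
      by_contra hne0
      rcases lt_or_gt_of_ne hne0 with h | h <;> nlinarith
    have e2 : v = 0 := by
      have := congrArg (V *ᵥ ·) e1
      simp only [Matrix.mulVec_mulVec, hV, Matrix.smul_mulVec, Matrix.one_mulVec,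
        Matrix.mulVec_zero] at this
      exact (smul_eq_zero.mp this).resolve_left hΔ
    subst e2
    simp only [Pi.zero_apply, zpow_zero, Finset.prod_const_one, Units.val_one] at hv2
    rw [red_eq_one_iff, hr.2.1] at hv2
    have e3 : ‖ι ((x : K) - x')‖ ≤ (p : ℝ) ^ (-(N : ℤ)) := by
      have f1 : ι ((x : K) - x') = ι x' * (ι y ^ (2 ^ lev) - 1) := by
        rw [← hr.1, map_sub, map_mul, map_pow]; ring
      rw [f1, norm_mul, hF.unit x' hx', one_mul]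
      exact Coord.pow_le hε hv2 _
    have e4 := h3 p K K ι ((x : K) - x') N (fun _ => 2 * X)
      (x.isIntegral_coe.sub x'.isIntegral_coe) e3
      (fun φ => by
        rw [map_sub]
        have := norm_sub_le (φ x) (φ x')
        linarith [hF.hs x hx φ, hF.hs x' hx' φ])
      (by
        rw [finrank_self, pow_one, Finset.prod_const, Finset.card_univ, Embeddings.card K ℂ]
        exact hd.big)
    exact RingOfIntegers.ext (sub_eq_zero.mp e4)

end Pool.Agent.P.MP_657a03_nt
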