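import Pool.Agent.P.MP_657a03_nt.Iface

/-! The different of a multiquadratic extension. -/

set_option autoImplicit false

open NumberField Polynomial IsDedekindDomain

namespace Pool.Agent.P.MP_657a03_nt

namespace Diff

/-- Interpolation with a fixed denominator. -/
theorem interp {B ι : Type} [CommRing B] [IsDomain B] [DecidableEq ι] (x : ι → B) (x0 : B)
    (s : Finset ι) (hinj : Set.InjOn x s) :
    ∃ Δ : B, Δ ≠ 0 ∧ ∀ g : B[X], ∃ c : B, ∀ (e : B) (J : Ideal B),
      (∀ i ∈ s, e * g.eval (x i) ∈ J) → Δ * e * (g.eval x0 - c * ∏ i ∈ s, (x0 - x i)) ∈ J := by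
  induction s using Finset.induction_on with
  | empty => exact ⟨1, one_ne_zero, fun g => ⟨g.eval x0, fun e J _ => by simp⟩⟩
  | insert a s ha ih =>
    obtain ⟨Δ, hΔ, h⟩ := ih (hinj.mono (by simp))
    have hE : ∏ i ∈ s, (x i - x a) ≠ 0 := by
      refine Finset.prod_ne_zero_iff.2 fun i hi h0 => ha ?_
      have := hinj (by simp [hi]) (by simp) (sub_eq_zero.1 h0)
      rwa [← this]
    refine ⟨Δ * ∏ i ∈ s, (x i - x a), mul_ne_zero hΔ hE, fun g => ?_⟩
    obtain ⟨g1, hg1⟩ := X_sub_C_dvd_sub_C_eval (p := g) (a := x a)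
    have hev : ∀ t, g.eval t = g.eval (x a) + (t - x a) * g1.eval t := by
      intro t
      have := congrArg (eval t) hg1
      simp only [eval_sub, eval_C, eval_mul, eval_X] at this
      rw [← this]; ring
    obtain ⟨c, hc⟩ := h g1
    refine ⟨c, fun e J hJ => ?_⟩
    have ha' : e * g.eval (x a) ∈ J := hJ a (by simp)
    have h1 := hc (e * ∏ i ∈ s, (x i - x a)) J (fun i hi => by
      obtain ⟨d, hd⟩ := Finset.dvd_prod_of_mem (fun i => x i - x a) hi
      have h2 : e * (∏ i ∈ s, (x i - x a)) * g1.eval (x i) =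
          d * (e * g.eval (x i) - e * g.eval (x a)) := by
        rw [hd, hev (x i)]; ring
      rw [h2]
      exact J.mul_mem_left _ (J.sub_mem (hJ i (by simp [hi])) ha'))
    rw [Finset.prod_insert ha, hev x0]
    have h3 : Δ * (∏ i ∈ s, (x i - x a)) * e * (g.eval (x a) + (x0 - x a) * g1.eval x0 -
        c * ((x0 - x a) * ∏ i ∈ s, (x0 - x i))) =
        (Δ * ∏ i ∈ s, (x i - x a)) * (e * g.eval (x a)) + (x0 - x a) *
          (Δ * (e * ∏ i ∈ s, (x i - x a)) * (g1.eval x0 - c * ∏ i ∈ s, (x0 - x i))) := by ring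
    rw [h3]
    exact J.add_mem (J.mul_mem_left _ ha') (J.mul_mem_left _ h1)

theorem map_mem_pow {B : Type} [CommRing B] (w : Ideal B) (f : B →+* B)
    (hf : ∀ b, f b - b ∈ w) (n : ℕ) {r : B} (hr : r ∈ w ^ n) : f r ∈ w ^ n := by
  have h1 : Ideal.map f w ≤ w := by
    rw [Ideal.map_le_iff_le_comap]
    intro b hb
    have := w.add_mem (hf b) hb
    simpa using this
  have h2 : Ideal.map f (w ^ n) ≤ w ^ n := by
    rw [Ideal.map_pow]
    exact Ideal.pow_right_mono h1 n
  exact h2 (Ideal.mem_map_of_mem f hr)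

/-- Simultaneous approximation by a polynomial in the conjugates of a uniformiser. -/
theorem approx {B : Type} [CommRing B] [IsDedekindDomain B] (v : HeightOneSpectrum B)
    [Finite (B ⧸ v.asIdeal)] (π : B) (hπ : v.intValuation π = WithZero.exp (-1 : ℤ)) (n : ℕ) :
    ∀ b : B, ∃ g : B[X], ∀ f : B →+* B, (∀ b, f b - b ∈ v.asIdeal) →
      f b - g.eval (f π) ∈ v.asIdeal ^ n := by
  induction n with
  | zero => exact fun b => ⟨0, fun f _ => by simp⟩
  | succ n ih =>
    intro b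
    have := v.isMaximal
    let : Field (B ⧸ v.asIdeal) := Ideal.Quotient.field _
    let : Fintype (B ⧸ v.asIdeal) := Fintype.ofFinite _
    have hq : ((Fintype.card (B ⧸ v.asIdeal) : ℕ) : B) ∈ v.asIdeal := by
      rw [← Ideal.Quotient.eq_zero_iff_mem, map_natCast]
      exact Nat.cast_card_eq_zero _
    set q := Fintype.card (B ⧸ v.asIdeal)
    have hπw : π ∈ v.asIdeal := by
      have := (v.intValuation_le_pow_iff_mem π 1).1 (by rw [hπ]; simp)
      simpa using this
    have h1 : b - b ^ q ^ n ∈ v.asIdeal := by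
      rw [← Ideal.Quotient.eq_zero_iff_mem, map_sub, map_pow, FiniteField.pow_card_pow, sub_self]
    have h2 : v.intValuation (b - b ^ q ^ n) ≤ v.intValuation π := by
      rw [hπ]
      have := (v.intValuation_le_pow_iff_mem (b - b ^ q ^ n) 1).2 (by simpa using h1)
      simpa using this
    obtain ⟨y, hy⟩ := v.exists_intValuation_mul_sub_lt h2
      (Multiplicative.ofAdd (-((n + 1 : ℕ) : ℤ)))
    have hr : b - b ^ q ^ n - y * π ∈ v.asIdeal ^ (n + 1) :=
      (v.intValuation_le_pow_iff_mem _ _).1 hy.le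
    obtain ⟨g, hg⟩ := ih y
    refine ⟨C (b ^ q ^ n) + X * g, fun f hf => ?_⟩
    have h3 : f b ^ q ^ n - b ^ q ^ n ∈ v.asIdeal ^ (n + 1) :=
      SModEq.sub_mem.1 (SModEq.pow_pow_add_one hq (SModEq.sub_mem.2 (hf b)) n)
    have h4 := map_mem_pow _ f hf _ hr
    have h5 : f π ∈ v.asIdeal := by
      have := v.asIdeal.add_mem (hf π) hπw
      simpa using this
    have h6 : (f y - g.eval (f π)) * f π ∈ v.asIdeal ^ (n + 1) := by
      rw [pow_succ]
      exact Ideal.mul_mem_mul (hg f hf) h5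
    have h7 : f b - (C (b ^ q ^ n) + X * g).eval (f π) =
        (f b ^ q ^ n - b ^ q ^ n) + f (b - b ^ q ^ n - y * π) + (f y - g.eval (f π)) * f π := by
      rw [eval_add, eval_C, eval_mul, eval_X]
      simp only [map_sub, map_mul, map_pow]
      ring
    rw [h7]
    exact Ideal.add_mem _ (Ideal.add_mem _ h3 h4) h6

theorem eq_zero_of_mem_pow {B : Type} [CommRing B] [IsDedekindDomain B] (v : HeightOneSpectrum B)
    {r : B} (h : ∀ n : ℕ, r ∈ v.asIdeal ^ n) : r = 0 := by
  by_contra h0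
  obtain ⟨n, hn⟩ := WithZero.exists_exp_neg_natCast_lt (v.intValuation_ne_zero r h0)
  exact absurd ((v.intValuation_le_pow_iff_mem r n).2 (h n)) (not_le.2 hn)

/-- The automorphisms in the inertia group that change the sign of `y`. -/
theorem local_bound {B G : Type} [CommRing B] [IsDedekindDomain B] [DecidableEq G]
    (v : HeightOneSpectrum B) [Finite (B ⧸ v.asIdeal)] (π : B)
    (hπ : v.intValuation π = WithZero.exp (-1 : ℤ)) (φ : G → B →+* B)
    (hφ : ∀ σ τ, (∀ b, φ σ b = φ τ b) → σ = τ) (S : Finset G)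
    (hS : ∀ σ ∈ S, ∀ b, φ σ b - b ∈ v.asIdeal) (y : B) (hy : 2 * y ≠ 0)
    (hneg : ∀ σ ∈ S, φ σ y = -y) :
    v.intValuation (2 * y) ≤ ∏ σ ∈ S, v.intValuation (π - φ σ π) := by
  have hinj : Set.InjOn (fun σ => φ σ π) S := by
    intro σ hσ τ hτ h
    refine hφ σ τ fun b => sub_eq_zero.1 (eq_zero_of_mem_pow v fun n => ?_)
    obtain ⟨g, hg⟩ := approx v π hπ n b
    have h1 := hg _ (hS σ hσ)
    have h2 := hg _ (hS τ hτ)
    have h' : φ σ π = φ τ π := h
    rw [h'] at h1
    simpa using Ideal.sub_mem _ h1 h2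
  obtain ⟨Δ, hΔ, h⟩ := interp (fun σ => φ σ π) π S hinj
  obtain ⟨n, hn⟩ := WithZero.exists_exp_neg_natCast_lt
    (v.intValuation_ne_zero _ (mul_ne_zero hΔ hy))
  obtain ⟨g, hg⟩ := approx v π hπ n y
  obtain ⟨c, hc⟩ := h (g + C y)
  have h1 := hc 1 (v.asIdeal ^ n) (fun σ hσ => by
    have h2 := Ideal.neg_mem_iff _ |>.2 (hg _ (hS σ hσ))
    rw [hneg σ hσ] at h2
    have h3 : 1 * (g + C y).eval (φ σ π) = -(-y - g.eval (φ σ π)) := by
      simp only [eval_add, eval_C]; ring
    rw [h3]; exact h2)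
  have h4 := hg (RingHom.id B) (by simp)
  simp only [RingHom.id_apply] at h4
  set P := ∏ σ ∈ S, (π - φ σ π) with hP
  have h5 : Δ * (2 * y - c * P) ∈ v.asIdeal ^ n := by
    have h6 : Δ * (2 * y - c * P) =
        Δ * 1 * ((g + C y).eval π - c * P) + Δ * (y - g.eval π) := by
      simp only [eval_add, eval_C]; ring
    rw [h6]
    exact Ideal.add_mem _ h1 (Ideal.mul_mem_left _ _ h4)
  have h7 := lt_of_le_of_lt ((v.intValuation_le_pow_iff_mem _ n).2 h5) hn
  rw [map_mul, map_mul v.intValuation Δ] at h7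
  have h8 : v.intValuation (2 * y - c * P) < v.intValuation (2 * y) :=
    lt_of_mul_lt_mul_left' h7
  have h9 : v.intValuation (c * P) = v.intValuation (2 * y) := by
    have := Valuation.map_sub_eq_of_lt_left v.intValuation h8
    simpa using this
  rw [← map_prod, ← hP, ← h9, map_mul]
  exact mul_le_of_le_one_left' (v.intValuation_le_one c)

/-- A sign character is non-trivial on half of the subsets. -/
theorem half {B M : Type} [CommRing B] [IsDomain B] [CharZero B] [CommMonoid M] [DecidableEq B]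
    {n : ℕ} (q : Fin n → B) (f : B →+* B) (hq : ∀ s : Finset (Fin n), ∏ j ∈ s, q j ≠ 0)
    (hf : ∀ s : Finset (Fin n), f (∏ j ∈ s, q j) = ∏ j ∈ s, q j ∨
      f (∏ j ∈ s, q j) = -∏ j ∈ s, q j) (j : Fin n) (hj : f (q j) ≠ q j) (a : M) :
    ∏ s : Finset (Fin n), (if f (∏ j ∈ s, q j) ≠ ∏ j ∈ s, q j then a else 1) = a ^ 2 ^ (n - 1) := by
  have hj' : f (q j) = -q j := by
    have := hf {j}
    simp only [Finset.prod_singleton] at this
    exact this.resolve_left hj
  have hne : ∀ s : Finset (Fin n), -∏ j ∈ s, q j ≠ ∏ j ∈ s, q j := fun s h =>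
    hq s (by
      have h2 : (2 : B) * ∏ j ∈ s, q j = 0 := by linear_combination -h
      exact (mul_eq_zero.1 h2).resolve_left two_ne_zero)
  rw [← Finset.powerset_univ, ← Finset.insert_erase (Finset.mem_univ j),
    Finset.prod_powerset_insert (Finset.notMem_erase j _), ← Finset.prod_mul_distrib]
  rw [Finset.prod_congr rfl (g := fun _ => a), Finset.prod_const, Finset.card_powerset,
    Finset.card_erase_of_mem (Finset.mem_univ j), Finset.card_univ, Fintype.card_fin]
  intro s hs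
  have hjs : j ∉ s := fun h => by simpa using Finset.mem_powerset.1 hs h
  rcases hf s with h | h
  · have h1 : f (∏ i ∈ insert j s, q i) = -∏ i ∈ insert j s, q i := by
      rw [Finset.prod_insert hjs, map_mul, h, hj']; ring
    rw [if_neg (not_not.2 h), if_pos (by rw [h1]; exact hne _), one_mul]
  · have h1 : f (∏ i ∈ insert j s, q i) = ∏ i ∈ insert j s, q i := by
      rw [Finset.prod_insert hjs, map_mul, h, hj']; ring
    rw [if_pos (by rw [h]; exact hne _), if_neg (not_not.2 h1), mul_one]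

/-- Products of differences of conjugates lie in the different. -/
theorem prod_mem (K L : Type) [Field K] [NumberField K] [Field L] [NumberField L] [Algebra K L]
    [IsGalois K L] [DecidableEq (L ≃ₐ[K] L)] (x : (L ≃ₐ[K] L) → 𝓞 L) :
    ∏ σ ∈ Finset.univ.erase (1 : L ≃ₐ[K] L),
      (x σ - RingOfIntegers.mapRingHom (σ : L →+* L) (x σ)) ∈ differentIdeal (𝓞 K) (𝓞 L) := by
  have key : ∀ s : Finset (L ≃ₐ[K] L),
      ∀ z ∈ Submodule.traceDual (𝓞 K) K (1 : Submodule (𝓞 L) L),
      ∑ τ : L ≃ₐ[K] L, (∏ σ ∈ s, (τ (x σ : L) - σ (x σ : L))) * τ z ∈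
        (1 : Submodule (𝓞 L) L) := by
    intro s
    induction s using Finset.induction_on with
    | empty =>
      intro z hz
      simp only [Finset.prod_empty, one_mul]
      rw [← trace_eq_sum_automorphisms]
      obtain ⟨k, hk⟩ := Submodule.mem_traceDual.1 hz 1 (Submodule.mem_one.2 ⟨1, by simp⟩)
      rw [Algebra.traceForm_apply, mul_one] at hk
      rw [← hk, ← IsScalarTower.algebraMap_apply, IsScalarTower.algebraMap_apply (𝓞 K) (𝓞 L) L]
      exact Submodule.mem_one.2 ⟨_, rfl⟩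
    | insert a s ha ih =>
      intro z hz
      have h1 := ih _ (Submodule.smul_mem _ (x a) hz)
      have h2 := Submodule.smul_mem _ (RingOfIntegers.mapRingHom (a : L →+* L) (x a)) (ih z hz)
      have h3 := Submodule.sub_mem _ h1 h2
      rw [Finset.smul_sum, ← Finset.sum_sub_distrib] at h3
      refine (congrArg (· ∈ (1 : Submodule (𝓞 L) L))
        (Finset.sum_congr rfl fun τ _ => ?_)).mp h3
      rw [Finset.prod_insert ha, Algebra.smul_def, Algebra.smul_def, map_mul]
      have h4 : algebraMap (𝓞 L) L (RingOfIntegers.mapRingHom (a : L →+* L) (x a)) =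
        a (x a : L) := rfl
      have h5 : algebraMap (𝓞 L) L (x a) = (x a : L) := rfl
      rw [h4, h5]
      ring
  have hmem : algebraMap (𝓞 L) L (∏ σ ∈ Finset.univ.erase (1 : L ≃ₐ[K] L),
      (x σ - RingOfIntegers.mapRingHom (σ : L →+* L) (x σ))) ∈
      IsLocalization.coeSubmodule L (differentIdeal (𝓞 K) (𝓞 L)) := by
    rw [coeSubmodule_differentIdeal (𝓞 K) K, Submodule.mem_div_iff_forall_mul_mem]
    intro z hz
    have h1 := key (Finset.univ.erase 1) z hz
    rw [Finset.sum_eq_single (1 : L ≃ₐ[K] L)] at h1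
    · rw [map_prod]
      exact h1
    · intro τ _ hτ
      rw [Finset.prod_eq_zero (i := τ) (by simp [hτ]) (sub_self _), zero_mul]
    · simp
  obtain ⟨d, hd, hd'⟩ := (IsLocalization.mem_coeSubmodule _ _).1 hmem
  rwa [← RingOfIntegers.coe_injective hd']

end Diff

open Diff in
theorem diff : S_DIFF := by
  intro K L _ _ _ _ _ _ n m q hm hsq hgen hdvd
  classical
  set φ : (L ≃ₐ[K] L) → 𝓞 L →+* 𝓞 L := fun σ => RingOfIntegers.mapRingHom (σ : L →+* L) with hφ
  have hφc : ∀ σ (b : 𝓞 L), ((φ σ b : 𝓞 L) : L) = σ (b : L) := fun σ b => rfl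
  have hm' : (m : 𝓞 L) ≠ 0 := Nat.cast_ne_zero.2 hm
  have hq0 : ∀ s : Finset (Fin n), ∏ j ∈ s, q j ≠ 0 := fun s h => by
    have := hdvd s
    rw [h, zero_dvd_iff] at this
    exact hm' this
  have hsgn : ∀ σ (s : Finset (Fin n)), φ σ (∏ j ∈ s, q j) = ∏ j ∈ s, q j ∨
      φ σ (∏ j ∈ s, q j) = -∏ j ∈ s, q j := by
    intro σ s
    rw [← sq_eq_sq_iff_eq_or_eq_neg, ← map_pow, ← Finset.prod_pow, map_prod]
    refine Finset.prod_congr rfl fun j _ => ?_
    apply RingOfIntegers.coe_injective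
    obtain ⟨k, hk⟩ := hsq j
    have h1 : algebraMap (𝓞 L) L (q j ^ 2) = algebraMap K L k := by rw [hk, map_pow]
    have h2 : algebraMap (𝓞 L) L (φ σ (q j ^ 2)) = σ (algebraMap (𝓞 L) L (q j ^ 2)) := rfl
    rw [h2, h1, AlgEquiv.commutes]
  have hinj : ∀ σ τ, (∀ b, φ σ b = φ τ b) → σ = τ := by
    intro σ τ h
    have h1 : τ⁻¹ * σ = 1 := hgen _ fun j => by
      have h2 : σ (q j : L) = τ (q j : L) := by rw [← hφc, ← hφc, h]
      rw [AlgEquiv.mul_apply, h2, ← AlgEquiv.mul_apply, inv_mul_cancel, AlgEquiv.one_apply]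
    exact (inv_mul_eq_one.1 h1).symm
  by_contra hcon
  have hcol : (differentIdeal (𝓞 K) (𝓞 L)).colon {((2 * m) ^ 2 : 𝓞 L)} ≠ ⊤ := by
    intro h
    have h1 : (1 : 𝓞 L) ∈ (differentIdeal (𝓞 K) (𝓞 L)).colon {((2 * m) ^ 2 : 𝓞 L)} := by
      rw [h]; trivial
    rw [Submodule.mem_colon_singleton, one_smul] at h1
    exact hcon h1
  obtain ⟨w, hw, hle⟩ := Ideal.exists_le_maximal _ hcol
  have hw0 : w ≠ ⊥ := Ring.ne_bot_of_isMaximal_of_not_isField hw (RingOfIntegers.not_isField L)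
  let v : HeightOneSpectrum (𝓞 L) := ⟨w, hw.isPrime, hw0⟩
  have : Finite (𝓞 L ⧸ v.asIdeal) := Ideal.finiteQuotientOfFreeOfNeBot _ hw0
  obtain ⟨π, hπ⟩ := v.intValuation_exists_uniformizer
  let T : (L ≃ₐ[K] L) → Prop := fun σ => ∀ b, φ σ b - b ∈ v.asIdeal
  have hx : ∀ σ, ∃ x : 𝓞 L, v.intValuation (x - φ σ x) =
      if T σ then v.intValuation (π - φ σ π) else 1 := by
    intro σ
    by_cases hT : T σ
    · exact ⟨π, by rw [if_pos hT]⟩
    · obtain ⟨b, hb⟩ := not_forall.1 hT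
      refine ⟨b, ?_⟩
      rw [if_neg hT, Valuation.map_sub_swap]
      exact HeightOneSpectrum.intValuation_eq_one_iff.2 hb
  choose x hx using hx
  have hδ := prod_mem K L x
  set δ := ∏ σ ∈ Finset.univ.erase (1 : L ≃ₐ[K] L), (x σ - φ σ (x σ)) with hδdef
  have hloc : ∀ s : Finset (Fin n), v.intValuation (2 * m) ≤
      ∏ σ ∈ Finset.univ.erase (1 : L ≃ₐ[K] L),
        if φ σ (∏ j ∈ s, q j) ≠ ∏ j ∈ s, q j then v.intValuation (x σ - φ σ (x σ)) else 1 := by
    intro s
    have h1 := local_bound v π hπ φ hinj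
      ((Finset.univ.erase (1 : L ≃ₐ[K] L)).filter
        fun σ => T σ ∧ φ σ (∏ j ∈ s, q j) ≠ ∏ j ∈ s, q j)
      (fun σ hσ => (Finset.mem_filter.1 hσ).2.1) (∏ j ∈ s, q j)
      (mul_ne_zero two_ne_zero (hq0 s))
      (fun σ hσ => (hsgn σ s).resolve_left (Finset.mem_filter.1 hσ).2.2)
    rw [Finset.prod_filter] at h1
    obtain ⟨d, hd⟩ := hdvd s
    have h2 : v.intValuation (2 * m) ≤ v.intValuation (2 * ∏ j ∈ s, q j) := by
      rw [hd, ← mul_assoc, map_mul v.intValuation _ d]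
      exact mul_le_of_le_one_right' (v.intValuation_le_one d)
    refine h2.trans (h1.trans (le_of_eq (Finset.prod_congr rfl fun σ _ => ?_)))
    rw [hx σ]
    by_cases hT : T σ <;> by_cases hs : φ σ (∏ j ∈ s, q j) ≠ ∏ j ∈ s, q j <;> simp [hT]
  have hprod := Finset.prod_le_prod' (s := Finset.univ) fun s _ => hloc s
  rw [Finset.prod_const, Finset.card_univ, Fintype.card_finset, Fintype.card_fin,
    Finset.prod_comm] at hprod
  have hh : ∀ σ ∈ Finset.univ.erase (1 : L ≃ₐ[K] L), ∏ s : Finset (Fin n),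
      (if φ σ (∏ j ∈ s, q j) ≠ ∏ j ∈ s, q j then v.intValuation (x σ - φ σ (x σ)) else 1) =
        v.intValuation (x σ - φ σ (x σ)) ^ 2 ^ (n - 1) := by
    intro σ hσ
    have h1 : ¬ ∀ j, σ (q j : L) = (q j : L) := fun h => (Finset.mem_erase.1 hσ).1 (hgen σ h)
    obtain ⟨j, hj⟩ := not_forall.1 h1
    exact half q (φ σ) hq0 (hsgn σ) j (fun h => hj (by rw [← hφc, h])) _
  rw [Finset.prod_congr rfl hh, Finset.prod_pow, ← map_prod, ← hδdef] at hprod
  have hv : v.intValuation ((2 * m) ^ 2) ≤ v.intValuation δ := by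
    have h1 : v.intValuation ((2 * m) ^ 2) ^ 2 ^ (n - 1) ≤ v.intValuation (2 * m) ^ 2 ^ n := by
      rw [map_pow, ← pow_mul]
      refine pow_le_pow_right_of_le_one' (v.intValuation_le_one _) ?_
      rcases n with _ | n
      · simp
      · simp [pow_succ, mul_comm]
    exact (pow_le_pow_iff_left₀ zero_le zero_le (by positivity)).1 (h1.trans hprod)
  have h2m : ((2 * m) ^ 2 : 𝓞 L) ≠ 0 := pow_ne_zero _ (mul_ne_zero two_ne_zero hm')
  have hδ0 : δ ≠ 0 := by
    intro h
    rw [h, map_zero, le_zero_iff] at hv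
    exact v.intValuation_ne_zero _ h2m hv
  have hδL : algebraMap (𝓞 L) L δ ≠ 0 := by
    rwa [Ne, FaithfulSMul.algebraMap_eq_zero_iff]
  obtain ⟨b, d, hbd⟩ := v.exists_primeCompl_mul_eq_of_integer
    (algebraMap (𝓞 L) L ((2 * m) ^ 2) / algebraMap (𝓞 L) L δ) (by
      rw [map_div₀, HeightOneSpectrum.valuation_of_algebraMap,
        HeightOneSpectrum.valuation_of_algebraMap]
      exact div_le_one_of_le₀ hv zero_le)
  have hd : (d : 𝓞 L) * (2 * m) ^ 2 = b * δ := by
    apply RingOfIntegers.coe_injective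
    rw [map_mul, map_mul, ← hbd]
    field_simp
  refine d.2 (hle ?_)
  rw [Submodule.mem_colon_singleton, smul_eq_mul, hd]
  exact Ideal.mul_mem_left _ _ hδ

end Pool.Agent.P.MP_657a03_nt
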