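import Pool.Agent.P.MP_657a03_nt.Iface

/-!
A large family of small integers, congruent modulo the prime, with quotients units times powers
of `a / b`.
-/

set_option autoImplicit false

open NumberField NumberField.Units Module Real Matrix

namespace Pool.Agent.P.MP_657a03_nt

namespace Family

lemma norm_int (p : ℕ) [Fact p.Prime] (a : ℤ) (A : ℕ) (ha : a ≠ 0) (haA : |a| ≤ A) (hA : A < p) :
    ‖(a : ℚ_[p])‖ = 1 := by
  have h1 := Padic.norm_int_le_one (p := p) a
  by_contra h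
  have h2 : ‖(a : ℚ_[p])‖ < 1 := lt_of_le_of_ne h1 h
  rw [Padic.norm_intCast_lt_one_iff] at h2
  have h3 := Int.le_of_dvd (abs_pos.mpr ha) ((dvd_abs _ _).mpr h2)
  omega

lemma norm_small (h3 : S_DVD) (p : ℕ) [Fact p.Prime] (K : Type) [Field K] [NumberField K]
    (ι : K →+* ℚ_[p]) (β : 𝓞 K) (hβ : β ≠ 0) (hN : |((Algebra.norm ℤ β : ℤ) : ℝ)| < p) :
    ‖ι (β : K)‖ = 1 := by
  obtain ⟨h1, h2⟩ := h3 p K ι β
  by_contra h
  have h4 : ‖ι (β : K)‖ < 1 := lt_of_le_of_ne h1 h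
  have h5 : ‖ι (β : K)‖ ≤ (p : ℝ) ^ (-((1 : ℕ) : ℤ)) := by
    rw [Padic.norm_le_pow_iff_norm_lt_pow_add_one]
    simpa using h4
  have h6 := h2 1 h5
  rw [pow_one] at h6
  have h7 : Algebra.norm ℤ β ≠ 0 := by
    rwa [Ne, Algebra.norm_eq_zero_iff]
  have h8 := Int.le_of_dvd (abs_pos.mpr h7) ((dvd_abs _ _).mpr h6)
  have h9 : (p : ℝ) ≤ |((Algebra.norm ℤ β : ℤ) : ℝ)| := by exact_mod_cast h8
  linarith

lemma pow_inj (a b : ℕ) (ha : a ≠ 0) (hb : b ≠ 0) (hab : a ≠ b) (I j k : ℕ) (hj : j ≤ I)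
    (hk : k ≤ I) (h : a ^ j * b ^ (I - j) = a ^ k * b ^ (I - k)) : j = k := by
  wlog hjk : j ≤ k generalizing j k
  · exact (this k j hk hj h.symm (by omega)).symm
  obtain ⟨d, rfl⟩ := Nat.exists_eq_add_of_le hjk
  have e1 : I - j = (I - (j + d)) + d := by omega
  rw [e1, pow_add, pow_add] at h
  have h2 : (a ^ j * b ^ (I - (j + d))) * b ^ d = (a ^ j * b ^ (I - (j + d))) * a ^ d := by
    rw [← mul_assoc] at h
    rw [h]; ring
  have h3 : b ^ d = a ^ d := by
    apply Nat.eq_of_mul_eq_mul_left _ h2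
    positivity
  by_contra hd
  have hd0 : d ≠ 0 := by omega
  exact hab ((Nat.pow_left_injective hd0 h3).symm)

lemma absNorm_int (K : Type) [Field K] [NumberField K] (a : ℤ) :
    (Algebra.norm ℤ (a : 𝓞 K)).natAbs = a.natAbs ^ finrank ℤ (𝓞 K) := by
  have : (a : 𝓞 K) = algebraMap ℤ (𝓞 K) a := by simp
  rw [this, Algebra.norm_algebraMap, Int.natAbs_pow]

end Family

open Family in
theorem family (h1 : S_MINK) (h2 : S_IDEALS) (h3 : S_DVD) : S_FAMILY := by
  classical
  intro p _ K _ _ ι a b A m S τ I ha hb hab haA hbA hAp hAI hd hm hτ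
  obtain ⟨B, hB, hcard⟩ := h1 K m S τ hd hτ
  have hBne : B.Nonempty := by
    rw [← Finset.card_pos]
    have : 0 < (S + rank K).choose (rank K) := Nat.choose_pos (by omega)
    by_contra h0
    have h00 : B.card = 0 := by omega
    rw [h00] at hcard
    omega
  let x : 𝓞 K × ℕ → 𝓞 K := fun q => q.1 * (a : 𝓞 K) ^ q.2 * (b : 𝓞 K) ^ (I - q.2)
  let res : 𝓞 K → ℤ_[p] := fun y => ⟨ι (y : K), (h3 p K ι y).1⟩
  let key : 𝓞 K × ℕ → Ideal (𝓞 K) × ZMod p :=
    fun q => (Ideal.span {q.1}, PadicInt.toZMod (res (x q)))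
  let P : Finset (𝓞 K × ℕ) := B ×ˢ Finset.range I
  let T : Finset (Ideal (𝓞 K) × ZMod p) :=
    (B.image fun β => Ideal.span {β}) ×ˢ (Finset.univ : Finset (ZMod p))
  have hT : T.Nonempty := (hBne.image _).product Finset.univ_nonempty
  obtain ⟨t, -, ht⟩ := Finset.exists_max_image T (fun t => (P.filter fun q => key q = t).card) hT
  have hmaps : ∀ q ∈ P, key q ∈ T := by
    intro q hq
    rw [Finset.mem_product] at hq ⊢
    exact ⟨Finset.mem_image_of_mem _ hq.1, Finset.mem_univ _⟩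
  have hPT := Finset.card_le_mul_card_image_of_maps_to hmaps _ ht
  set Fb := P.filter fun q => key q = t with hFb
  have hmem : ∀ q ∈ Fb, q.1 ∈ B ∧ q.2 < I ∧ key q = t := by
    intro q hq
    rw [hFb, Finset.mem_filter, Finset.mem_product, Finset.mem_range] at hq
    exact ⟨hq.1.1, hq.1.2, hq.2⟩
  have haK : (a : 𝓞 K) ≠ 0 := by exact_mod_cast ha
  have hbK : (b : 𝓞 K) ≠ 0 := by exact_mod_cast hb
  have haK' : (a : K) ≠ 0 := by exact_mod_cast ha
  have hbK' : (b : K) ≠ 0 := by exact_mod_cast hb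
  have hxK : ∀ q, ((x q : 𝓞 K) : K) = (q.1 : K) * (a : K) ^ q.2 * (b : K) ^ (I - q.2) := by
    intro q
    simp [x]
  have hspan : ∀ q ∈ Fb, ∀ q' ∈ Fb, Ideal.span {q.1} = Ideal.span {q'.1} := by
    intro q hq q' hq'
    have := (hmem q hq).2.2.trans (hmem q' hq').2.2.symm
    exact congrArg Prod.fst this
  have hinj : Set.InjOn x Fb := by
    intro q hq q' hq' hx
    have hq1 := hmem q hq
    have hq2 := hmem q' hq'
    have hs := congrArg Ideal.absNorm (hspan q hq q' hq')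
    rw [Ideal.absNorm_span_singleton, Ideal.absNorm_span_singleton] at hs
    have hn := congrArg (fun y : 𝓞 K => (Algebra.norm ℤ y).natAbs) hx
    simp only [x, map_mul, map_pow, Int.natAbs_mul, Int.natAbs_pow, absNorm_int] at hn
    rw [hs, mul_assoc, mul_assoc] at hn
    have hN0 : (Algebra.norm ℤ q'.1).natAbs ≠ 0 := by
      rw [Ne, Int.natAbs_eq_zero, Algebra.norm_eq_zero_iff]
      exact (hB _ hq2.1).1
    have hn2 := Nat.eq_of_mul_eq_mul_left (Nat.pos_of_ne_zero hN0) hn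
    have hD : finrank ℤ (𝓞 K) ≠ 0 := Module.finrank_pos.ne'
    have hj : q.2 = q'.2 := by
      refine pow_inj _ _ (pow_ne_zero _ (Int.natAbs_ne_zero.mpr ha))
        (pow_ne_zero _ (Int.natAbs_ne_zero.mpr hb)) ?_ I _ _ hq1.2.1.le hq2.2.1.le hn2
      intro h
      apply hab
      have := Nat.pow_left_injective hD h
      rw [← Int.natCast_natAbs, ← Int.natCast_natAbs, this]
    have hβ : q.1 = q'.1 := by
      simp only [x] at hx
      rw [hj] at hx
      exact mul_right_cancel₀ (pow_ne_zero _ haK) (mul_right_cancel₀ (pow_ne_zero _ hbK) hx)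
    exact Prod.ext hβ hj
  refine ⟨Fb.image x, ⟨?_, ?_, ?_, ?_, ?_, ?_⟩, ?_⟩
  · exact Real.one_le_exp (by positivity)
  · intro y hy
    obtain ⟨q, hq, rfl⟩ := Finset.mem_image.mp hy
    exact mul_ne_zero (mul_ne_zero (hB _ (hmem q hq).1).1 (pow_ne_zero _ haK))
      (pow_ne_zero _ hbK)
  · intro y hy φ
    obtain ⟨q, hq, rfl⟩ := Finset.mem_image.mp hy
    have hq1 := hmem q hq
    rw [hxK]
    simp only [map_mul, map_pow, map_intCast, norm_mul, norm_pow, Complex.norm_intCast]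
    have e1 : ‖φ (q.1 : K)‖ ≤ exp τ := (hB _ hq1.1).2.1 φ
    have e2 : |(a : ℝ)| ≤ A := by exact_mod_cast haA
    have e3 : |(b : ℝ)| ≤ A := by exact_mod_cast hbA
    have e4 : |(a : ℝ)| ^ q.2 * |(b : ℝ)| ^ (I - q.2) ≤ exp τ := by
      calc _ ≤ (A : ℝ) ^ q.2 * (A : ℝ) ^ (I - q.2) := by gcongr
        _ = (A : ℝ) ^ I := by rw [← pow_add]; congr 1; omega
        _ ≤ _ := hAI
    calc _ = ‖φ (q.1 : K)‖ * (|(a : ℝ)| ^ q.2 * |(b : ℝ)| ^ (I - q.2)) := by ring
      _ ≤ exp τ * exp τ := by gcongr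
      _ = _ := by rw [← Real.exp_add]; congr 1; ring
  · intro y hy y' hy'
    obtain ⟨q, hq, rfl⟩ := Finset.mem_image.mp hy
    obtain ⟨q', hq', rfl⟩ := Finset.mem_image.mp hy'
    have hq1 := hmem q hq
    have hq2 := hmem q' hq'
    obtain ⟨u, hu⟩ := Ideal.span_singleton_eq_span_singleton.mp (hspan q' hq' q hq)
    refine ⟨u, (q.2 : ℤ) - q'.2, ?_, ?_⟩
    · rw [abs_le]; omega
    · rw [hxK, hxK, ← hu]
      have e1 : (b : K) ^ (I - q.2) = (b : K) ^ I / (b : K) ^ q.2 := by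
        rw [pow_sub₀ _ hbK' hq1.2.1.le, div_eq_mul_inv]
      have e2 : (b : K) ^ (I - q'.2) = (b : K) ^ I / (b : K) ^ q'.2 := by
        rw [pow_sub₀ _ hbK' hq2.2.1.le, div_eq_mul_inv]
      have e3 : (((a : ℚ) / b : ℚ) : K) = (a : K) / b := by push_cast; rfl
      rw [e1, e2, e3, zpow_sub₀ (div_ne_zero haK' hbK'), zpow_natCast, zpow_natCast, div_pow,
        div_pow]
      push_cast
      field_simp
  · intro y hy
    obtain ⟨q, hq, rfl⟩ := Finset.mem_image.mp hy
    have hq1 := hmem q hq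
    rw [hxK]
    simp only [map_mul, map_pow, map_intCast, norm_mul, norm_pow]
    rw [norm_small h3 p K ι _ (hB _ hq1.1).1 ((hB _ hq1.1).2.2.trans_lt hm),
      norm_int p a A ha haA hAp, norm_int p b A hb hbA hAp]
    simp
  · intro y hy y' hy'
    obtain ⟨q, hq, rfl⟩ := Finset.mem_image.mp hy
    obtain ⟨q', hq', rfl⟩ := Finset.mem_image.mp hy'
    have e1 := congrArg Prod.snd ((hmem q hq).2.2.trans (hmem q' hq').2.2.symm)
    have e2 : res (x q) - res (x q') ∈ RingHom.ker (PadicInt.toZMod (p := p)) := by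
      rw [RingHom.mem_ker, map_sub, sub_eq_zero]
      exact e1
    rw [PadicInt.ker_toZMod, IsLocalRing.mem_maximalIdeal, PadicInt.mem_nonunits] at e2
    exact e2
  · rw [Finset.card_image_of_injOn hinj]
    have e1 : ((B.image fun β => Ideal.span {β}).card : ℝ) ≤ exp m ^ 2 * 4 ^ finrank ℚ K := by
      apply h2 K
      intro J hJ
      obtain ⟨β, hβ, rfl⟩ := Finset.mem_image.mp hJ
      refine ⟨?_, ?_⟩
      · rw [Ne, Ideal.span_singleton_eq_bot]; exact (hB _ hβ).1
      · rw [Ideal.absNorm_span_singleton, Nat.cast_natAbs, Int.cast_abs]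
        exact (hB _ hβ).2.2
    have e2 : (T.card : ℝ) ≤ exp (2 * m) * 4 ^ finrank ℚ K * p := by
      have : exp (2 * (m : ℝ)) = exp m ^ 2 := by
        rw [← Real.exp_nat_mul]; norm_num
      rw [this, Finset.card_product, Finset.card_univ, ZMod.card]
      push_cast
      gcongr
    have e3 : (B.card : ℝ) * I ≤ Fb.card * T.card := by
      have : P.card = B.card * I := by rw [Finset.card_product, Finset.card_range]
      rw [this] at hPT
      exact_mod_cast hPT
    have e4 : ((S + rank K).choose (rank K) : ℝ) ≤ 2 ^ (m + rank K) * B.card := by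
      exact_mod_cast hcard
    calc _ ≤ (2 ^ (m + rank K) * B.card : ℝ) * I := by gcongr
      _ = 2 ^ (m + rank K) * (B.card * I : ℝ) := by ring
      _ ≤ 2 ^ (m + rank K) * (Fb.card * (exp (2 * m) * 4 ^ finrank ℚ K * p)) := by
        refine mul_le_mul_of_nonneg_left (e3.trans ?_) (by positivity)
        exact mul_le_mul_of_nonneg_left e2 (by positivity)
      _ = _ := by ring

end Pool.Agent.P.MP_657a03_nt
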