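import Pool.Agent.P.MP_657a03_nt.Iface

set_option autoImplicit false

open NumberField NumberField.Units Module Real

namespace Pool.Agent.P.MP_657a03_nt

namespace Final

theorem rank_bounds (K : Type) [Field K] [NumberField K] :
    rank K + 1 ≤ finrank ℚ K ∧ finrank ℚ K ≤ 2 * (rank K + 1) := by
  have h1 := InfinitePlace.card_add_two_mul_card_eq_rank K
  have h2 := InfinitePlace.card_eq_nrRealPlaces_add_nrComplexPlaces K
  have h3 : 0 < Fintype.card (InfinitePlace K) := Fintype.card_pos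
  unfold rank
  omega

theorem le_of_dvd (p A N : ℕ) (a b : ℤ) (hp : 2 ≤ p) (hA : 2 * A < p) (hab : |a| ≠ |b|)
    (ha : |a| ≤ A) (hb : |b| ≤ A) (h : (p : ℤ) ^ N ∣ a ^ (p - 1) - b ^ (p - 1)) : N ≤ p := by
  obtain ⟨n, rfl⟩ : ∃ n, p = n + 2 := ⟨p - 2, by omega⟩
  have e : n + 2 - 1 = n + 1 := rfl
  rw [e] at h
  have hne : a ^ (n + 1) - b ^ (n + 1) ≠ 0 := by
    intro h0
    apply hab
    have h1 : |a| ^ (n + 1) = |b| ^ (n + 1) := by
      rw [← abs_pow, ← abs_pow, sub_eq_zero.1 h0]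
    exact (pow_left_inj₀ (abs_nonneg a) (abs_nonneg b) (Nat.succ_ne_zero n)).1 h1
  have h1 : ((n + 2 : ℕ) : ℤ) ^ N ≤ |a ^ (n + 1) - b ^ (n + 1)| :=
    Int.le_of_dvd (abs_pos.2 hne) ((dvd_abs _ _).2 h)
  have h2 : |a ^ (n + 1) - b ^ (n + 1)| ≤ 2 * (A : ℤ) ^ (n + 1) := by
    have h3 := abs_sub (a ^ (n + 1)) (b ^ (n + 1))
    rw [abs_pow, abs_pow] at h3
    have h4 := pow_le_pow_left₀ (abs_nonneg a) ha (n + 1)
    have h5 := pow_le_pow_left₀ (abs_nonneg b) hb (n + 1)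
    linarith
  have h3 : (A : ℤ) ^ (n + 1) ≤ ((n + 2 : ℕ) : ℤ) ^ (n + 1) :=
    pow_le_pow_left₀ (by positivity) (by exact_mod_cast (by omega : A ≤ n + 2)) _
  have h4 : ((n + 2 : ℕ) : ℤ) ^ N ≤ ((n + 2 : ℕ) : ℤ) ^ (n + 2) := by
    have h5 : (0 : ℤ) ≤ ((n + 2 : ℕ) : ℤ) ^ (n + 1) := by positivity
    have h6 : (2 : ℤ) ≤ ((n + 2 : ℕ) : ℤ) := by exact_mod_cast hp
    rw [pow_succ _ (n + 1)]
    nlinarith
  exact (pow_le_pow_iff_right₀ (by exact_mod_cast (by omega : 1 < n + 2))).1 h4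

theorem tower_succ (j : ℕ) : tower (j + 1) = 2 ^ tower j := by
  unfold tower
  rw [Function.iterate_succ_apply']

theorem two_pow_ge (t : ℕ) (ht : 16 ≤ t) : 4096 * t ≤ 2 ^ t := by
  induction t, ht using Nat.le_induction with
  | base => norm_num
  | succ t ht ih =>
    rw [pow_succ]
    omega

theorem tower_ge (j : ℕ) : 16 * 4096 ^ j ≤ tower (j + 3) := by
  induction j with
  | zero => decide
  | succ j ih =>
    have h1 : 0 < 4096 ^ j := by positivity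
    have h2 := two_pow_ge (tower (j + 3)) (by omega)
    rw [show j + 1 + 3 = (j + 3) + 1 from rfl, tower_succ, pow_succ]
    omega

theorem tower_pos (j : ℕ) : 0 < tower j := by
  cases j with
  | zero => decide
  | succ j =>
    rw [tower_succ]
    positivity

theorem pow_le_tower (j : ℕ) : 4096 ^ j ≤ 4096 ^ 3 * tower j := by
  by_cases h : j ≤ 3
  · have h1 : 4096 ^ j ≤ 4096 ^ 3 := Nat.pow_le_pow_right (by norm_num) h
    have h2 := tower_pos j
    nlinarith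
  · obtain ⟨i, rfl⟩ : ∃ i, j = i + 3 := ⟨j - 3, by omega⟩
    have h1 := tower_ge i
    rw [pow_add, mul_comm]
    exact Nat.mul_le_mul_left _ (by omega)

theorem lt_tower (j : ℕ) : j < tower j := by
  induction j with
  | zero => decide
  | succ j ih =>
    rw [tower_succ]
    exact lt_of_le_of_lt ih Nat.lt_two_pow_self

/-- The growth of the height of the tower needed to reach `p`. -/
theorem growth (K0 : ℝ) (hK : 1 ≤ K0) : ∃ P : ℕ, ∀ p : ℕ, P < p → ∀ j : ℕ, tower (j + 1) < p →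
    K0 * 64 ^ (j + 2) * (320 * log (log p) + 24) ≤ log p ∧ 1 ≤ log p := by
  set R : ℝ := 2 * 64 ^ 5 with hR
  refine ⟨⌈exp ((1304 * K0 * R) ^ 4)⌉₊, fun p hp j hj => ?_⟩
  have hp' : exp ((1304 * K0 * R) ^ 4) ≤ p := by
    have := Nat.le_ceil (exp ((1304 * K0 * R) ^ 4))
    have h2 : ((⌈exp ((1304 * K0 * R) ^ 4)⌉₊ : ℕ) : ℝ) ≤ p := by exact_mod_cast hp.le
    linarith
  have hp0 : (0 : ℝ) < p := lt_of_lt_of_le (exp_pos _) hp'
  have hy : (1304 * K0 * R) ^ 4 ≤ log p := (le_log_iff_exp_le hp0).2 hp'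
  set y := log (p : ℝ) with hydef
  have hB : 1 ≤ 1304 * K0 * R := by
    rw [hR]
    nlinarith
  have hy1 : 1 ≤ y := le_trans (one_le_pow₀ hB) hy
  refine ⟨?_, hy1⟩
  set s := √(√y) with hs
  have hs2 : s ^ 2 = √y := sq_sqrt (sqrt_nonneg y)
  have hs4 : s ^ 4 = y := by
    rw [show s ^ 4 = (s ^ 2) ^ 2 by ring, hs2, sq_sqrt (by linarith)]
  have hs0 : 0 ≤ s := sqrt_nonneg _
  have hsB : 1304 * K0 * R ≤ s := by
    rw [← hs4] at hy
    exact (pow_le_pow_iff_left₀ (by linarith) hs0 (by norm_num)).1 hy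
  have hs1 : 1 ≤ s := hB.trans hsB
  have hlog : log y ≤ 4 * s := by
    rw [← hs4, log_pow]
    have := log_le_sub_one_of_pos (show 0 < s by linarith)
    push_cast
    linarith
  have ht : (tower j : ℝ) ≤ 2 * y := by
    rw [tower_succ] at hj
    have h1 : ((2 : ℝ)) ^ tower j ≤ p := by exact_mod_cast hj.le
    have h2 := log_le_log (by positivity) h1
    rw [log_pow] at h2
    have h3 := log_two_gt_d9
    have h4 : (0 : ℝ) ≤ tower j := by positivity
    nlinarith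
  have hw : (64 : ℝ) ^ (j + 2) ≤ R * s ^ 2 := by
    have h1 : ((4096 : ℝ)) ^ j ≤ 4096 ^ 3 * tower j := by exact_mod_cast pow_le_tower j
    have h2 : ((64 : ℝ) ^ (j + 2)) ^ 2 = 4096 ^ j * 4096 ^ 2 := by
      rw [← pow_mul, mul_comm, pow_mul, pow_add]
      norm_num
    have h3 : (R * s ^ 2) ^ 2 = 4 * 4096 ^ 5 * y := by
      rw [← hs4, hR]
      ring
    refine (pow_le_pow_iff_left₀ (by positivity) (by positivity) (two_ne_zero)).1 ?_
    rw [h2, h3]
    nlinarith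
  have hR0 : 0 ≤ R := by positivity
  have h5 : 320 * log y + 24 ≤ 1304 * s := by linarith
  have h6 : 0 ≤ 320 * log y + 24 := by
    have := log_nonneg hy1
    linarith
  calc K0 * 64 ^ (j + 2) * (320 * log y + 24) ≤ K0 * (R * s ^ 2) * (1304 * s) := by gcongr
    _ = (1304 * K0 * R) * s ^ 3 := by ring
    _ ≤ s * s ^ 3 := by gcongr
    _ = y := by rw [← hs4]; ring

end Final

open Final

theorem core (h1 : S_FAMILY) (h2 : S_MAIN) (h3 : S_NUM) : S_CORE := by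
  obtain ⟨C, hC, h3⟩ := h3
  refine ⟨C, hC, fun A => ?_⟩
  by_cases hA : A = 0
  · refine ⟨0, fun p _ _ K _ _ ι ρ a b N _ _ _ ha _ _ haA _ _ => ?_⟩
    exfalso
    apply ha
    rw [hA] at haA
    exact abs_nonpos_iff.1 (by exact_mod_cast haA)
  obtain ⟨P0, h3⟩ := h3 A (Nat.one_le_iff_ne_zero.2 hA)
  refine ⟨P0, fun p hp hpp K _ _ ι ρ a b N hρ hd hl ha hb hab haA hbA hdvd => ?_⟩
  by_contra hcon
  obtain ⟨hr1, hr2⟩ := rank_bounds K
  obtain ⟨m, S, τ, I, U, B1, B2, lev, J, Cc, T, Lc, c1, c2, c3, c4, c5, c6, c7, c8, c9, c10, c11,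
    c12, c13, c14, c15, c16, c17⟩ := h3 p hp (rank K) (finrank ℚ K) N ρ hr1 hr2 hρ hl
      (not_le.1 hcon)
  obtain ⟨L0, hF, hL0⟩ := h1 p K ι a b A m S τ I ha hb hab haA hbA (by omega) c4
    (hd.trans_lt c1) c2 c3
  have hp0 : (0 : ℝ) < p := by exact_mod_cast hpp.out.pos
  have hLc : Lc ≤ L0.card := by
    have h4 := c5.trans hL0
    have h5 := le_of_mul_le_mul_right h4 (by positivity)
    exact_mod_cast h5
  obtain ⟨L, hLs, hLcard⟩ := Finset.exists_subset_card_eq hLc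
  have hF' : Fam ι ((a : ℚ) / b) I (exp (2 * τ)) L :=
    ⟨hF.one_le, fun x hx => hF.ne x (hLs hx), fun x hx => hF.hs x (hLs hx),
      fun x hx x' hx' => hF.rel x (hLs hx) x' (hLs hx'), fun x hx => hF.unit x (hLs hx),
      fun x hx x' hx' => hF.cong x (hLs hx) x' (hLs hx')⟩
  have hD : Data ι a b A N I lev J (exp (2 * τ)) L :=
    ⟨c6, ha, hb, hab, haA, hbA, by omega, hdvd, hF', c8, by rw [log_exp]; exact c9, c10⟩
  refine h2 p K ι a b A N I lev J U B1 B2 Cc T (exp (2 * τ)) L hD ?_ c11 c12 ?_ ?_ ?_ ?_ c17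
    (le_of_dvd p A N a b hpp.out.two_le c7 hab haA hbA hdvd)
  · refine c4.trans (exp_le_exp.2 ?_)
    have : (0 : ℝ) ≤ τ := by positivity
    linarith
  · rw [hLcard]
    exact c13
  · rw [hLcard]
    exact c14
  · rw [log_exp]
    exact c15
  · rw [hLcard]
    exact c16

theorem final (h1 : S_CORE) (h2 : S_TOWER) : S_FINAL := by
  obtain ⟨C, hC, h1⟩ := h1
  obtain ⟨ρ0, hρ0, h2⟩ := h2
  set K0 : ℝ := C * ρ0 ^ 3 with hK0
  have hK : 1 ≤ K0 := one_le_mul_of_one_le_of_one_le hC (one_le_pow₀ hρ0)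
  set c : ℝ := (512 * K0)⁻¹ with hc
  have hc0 : 0 < c := by positivity
  have hc1 : c < 1 := inv_lt_one_of_one_lt₀ (by linarith)
  refine ⟨c, hc0, hc1, fun a b ha hb hab => ?_⟩
  obtain ⟨P1, h1⟩ := h1 (max a.natAbs b.natAbs)
  obtain ⟨P2, h3⟩ := growth K0 hK
  refine ⟨max (max P1 P2) 7, fun p hp hpp J hJ N hdvd => ?_⟩
  have hP1 : P1 < p := by omega
  have hP2 : P2 < p := by omega
  have hP7 : 7 < p := by omega
  have : Fact p.Prime := ⟨hpp⟩
  classical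
  have hex : ∃ J, p ≤ tower J := ⟨J, hJ⟩
  have hJ0 : Nat.find hex ≤ J := Nat.find_min' hex hJ
  have hsp := Nat.find_spec hex
  have hmin : ∀ k, k < Nat.find hex → tower k < p := fun k hk => not_le.1 (Nat.find_min hex hk)
  obtain ⟨j, hj⟩ : ∃ j, Nat.find hex = j + 2 := by
    refine ⟨Nat.find hex - 2, ?_⟩
    have h0 : tower 0 = 1 := rfl
    have h1' : tower 1 = 2 := rfl
    rcases hf : Nat.find hex with _ | _ | k
    · rw [hf] at hsp
      omega
    · rw [hf] at hsp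
      simp only [zero_add] at hsp
      omega
    · omega
  rw [hj] at hJ0 hsp hmin
  obtain ⟨hg, hy1⟩ := h3 p hP2 j (hmin _ (by omega))
  have hp0 : (0 : ℝ) < p := by exact_mod_cast hpp.pos
  set y := log (p : ℝ) with hy
  have hW : (0 : ℝ) < K0 * 64 ^ (j + 2) := by positivity
  have hW1 : (1 : ℝ) ≤ K0 * 64 ^ (j + 2) :=
    one_le_mul_of_one_le_of_one_le hK (one_le_pow₀ (by norm_num))
  set x := y / (K0 * 64 ^ (j + 2)) with hx
  have hly : 0 ≤ log y := log_nonneg hy1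
  have hx1 : 320 * log y + 24 ≤ x := by
    rw [hx, le_div_iff₀ hW]
    linarith
  have hxy : x ≤ y := div_le_self (by linarith) hW1
  have hyp : y ≤ p := by
    have := log_le_sub_one_of_pos hp0
    linarith
  have hfl : 24 ≤ ⌊x⌋₊ := Nat.le_floor (by push_cast; linarith)
  set d := Nat.log 2 (⌊x⌋₊ - 2) with hd
  have hd1 : 2 ^ d ≤ ⌊x⌋₊ - 2 := Nat.pow_log_le_self 2 (by omega)
  have hd2 : ⌊x⌋₊ - 2 < 2 ^ (d + 1) := Nat.lt_pow_succ_log_self (by norm_num) _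
  have hfx : (⌊x⌋₊ : ℝ) ≤ x := Nat.floor_le (by linarith)
  have hfx' : x < ⌊x⌋₊ + 1 := Nat.lt_floor_add_one x
  have hdp : d ≤ tower (j + 2) := by
    have h4 : d < 2 ^ d := Nat.lt_two_pow_self
    have h5 : ⌊x⌋₊ ≤ p := by exact_mod_cast (hfx.trans (hxy.trans hyp))
    omega
  obtain ⟨K, _, _, ι, hdeg, hdisc⟩ := h2 p hP7 (j + 2) d hdp
  obtain ⟨hr1, hr2⟩ := rank_bounds K
  rw [hdeg] at hr1 hr2
  have hr3 : ((rank K : ℝ) + 3) ≤ x := by
    have h4 : rank K + 3 ≤ ⌊x⌋₊ := by omega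
    have h5 : ((rank K + 3 : ℕ) : ℝ) ≤ ⌊x⌋₊ := by exact_mod_cast h4
    push_cast at h5
    linarith
  have hr4 : x ≤ 4 * (rank K : ℝ) + 12 := by
    have h4 : ⌊x⌋₊ + 1 ≤ 4 * rank K + 12 := by
      rw [pow_succ] at hd2
      omega
    have h5 : ((⌊x⌋₊ + 1 : ℕ) : ℝ) ≤ ((4 * rank K + 12 : ℕ) : ℝ) := by exact_mod_cast h4
    push_cast at h5
    linarith
  have hρ : (1 : ℝ) ≤ ρ0 * 4 ^ (j + 2) :=
    one_le_mul_of_one_le_of_one_le hρ0 (one_le_pow₀ (by norm_num))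
  have hρ3 : C * (ρ0 * 4 ^ (j + 2)) ^ 3 = K0 * 64 ^ (j + 2) := by
    rw [hK0, mul_pow, ← pow_mul, mul_comm (j + 2), pow_mul, mul_assoc]
    norm_num
  have hN := h1 p hP1 K ι (ρ0 * 4 ^ (j + 2)) a b N hρ hdisc (by
      rw [hρ3, mul_comm]
      exact (le_div_iff₀ hW).1 hr3) ha hb hab (by
      rw [← Int.natCast_natAbs]
      exact_mod_cast le_max_left _ _) (by
      rw [← Int.natCast_natAbs]
      exact_mod_cast le_max_right _ _) hdvd
  have hcJ : c ^ J * y ≤ x / 8 := by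
    have h4 : c ^ J ≤ c ^ (j + 2) := pow_le_pow_of_le_one hc0.le hc1.le hJ0
    have h5 : c ^ (j + 2) ≤ (8 * (K0 * 64 ^ (j + 2)))⁻¹ := by
      rw [hc, inv_pow]
      refine inv_anti₀ (by positivity) ?_
      rw [show 512 * K0 = (8 * K0) * 64 by ring, mul_pow, ← mul_assoc]
      gcongr
      exact le_self_pow₀ (by linarith) (by omega)
    have h6 : x / 8 = (8 * (K0 * 64 ^ (j + 2)))⁻¹ * y := by
      rw [hx]
      field_simp
    rw [h6]
    exact mul_le_mul_of_nonneg_right (h4.trans h5) (by linarith)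
  refine hN.trans ?_
  rw [rpow_def_of_pos hp0, ← hy]
  have h7 : (p : ℝ) * y ^ 40 * exp (-(rank K : ℝ)) = exp (y + 40 * log y - rank K) := by
    rw [sub_eq_add_neg, exp_add, exp_add, hy, exp_log hp0, ← hy,
      show (40 : ℝ) * log y = log (y ^ 40) by rw [log_pow]; norm_num, exp_log (by positivity)]
  rw [h7]
  refine exp_le_exp.2 ?_
  nlinarith

end Pool.Agent.P.MP_657a03_nt
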