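import Pool.Agent.P.MP_657a03_nt.Liou

/-! A uniform form of Kronecker's theorem. -/

set_option autoImplicit false

open NumberField NumberField.Units Module Real Finset

namespace Pool.Agent.P.MP_657a03_nt

namespace KronB

variable {K : Type} [Field K] [NumberField K]

lemma sum_log (y : K) (hy : y ≠ 0) :
    ∑ φ : K →+* ℂ, log ‖φ y‖ = log |((Algebra.norm ℚ y : ℚ) : ℝ)| := by
  rw [← log_prod fun φ _ => by simpa using hy, Liou.prod_emb]

lemma sum_unit (u : (𝓞 K)ˣ) : ∑ φ : K →+* ℂ, log ‖φ ((u : 𝓞 K) : K)‖ = 0 := by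
  rw [sum_log _ (by simp), ← Rat.cast_abs, Units.norm]
  simp

end KronB

open KronB

theorem kronB (h : S_COUNT) : S_KRON := by
  intro K _ _ a b A e y u l ha hb haA hbA he hy hl
  classical
  set D := finrank ℚ K with hD
  have hD0 : 0 < D := finrank_pos
  have hD1 : (0 : ℝ) < D := by exact_mod_cast hD0
  have he1 : (0 : ℝ) < e := by exact_mod_cast Nat.pos_of_ne_zero he
  have he2 : (0 : ℤ) < e := by exact_mod_cast Nat.pos_of_ne_zero he
  have hA1 : (1 : ℝ) ≤ A := by exact_mod_cast (Int.one_le_abs ha).trans haA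
  have haK : (a : K) ≠ 0 := by exact_mod_cast ha
  have hbK : (b : K) ≠ 0 := by exact_mod_cast hb
  have hu0 : ∀ φ : K →+* ℂ, ‖φ ((u : 𝓞 K) : K)‖ ≠ 0 := fun φ => by simp
  have hη : (((a : ℚ) / b : ℚ) : K) = (a : K) / b := by push_cast; rfl
  rw [hη] at hy
  have hη0 : (a : K) / b ≠ 0 := div_ne_zero haK hbK
  have hy0 : y ≠ 0 := by
    rintro rfl
    rw [zero_pow he] at hy
    exact mul_ne_zero (by simp) (zpow_ne_zero _ hη0) hy.symm
  have h1 : ∀ φ : K →+* ℂ, e * log ‖φ y‖ = log ‖φ ((u : 𝓞 K) : K)‖ + l * log ‖(a : ℂ) / b‖ := by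
    intro φ
    have h0 : ‖(a : ℂ) / b‖ ≠ 0 := by simp [ha, hb]
    rw [← log_pow, ← norm_pow, ← map_pow, hy, map_mul, map_zpow₀, norm_mul, norm_zpow, map_div₀,
      map_intCast, map_intCast, log_mul (hu0 φ) (zpow_ne_zero _ h0), log_zpow]
  have h2 : ∀ φ : K →+* ℂ, log ‖φ ((u : 𝓞 K) : K)‖ = e * lbar y φ := by
    intro φ
    have h3 := sum_congr rfl fun ψ (_ : ψ ∈ univ) => h1 ψ
    rw [← mul_sum, sum_add_distrib, sum_unit, sum_log y hy0, sum_const, card_univ, Embeddings.card,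
      nsmul_eq_mul, ← hD] at h3
    rw [lbar, mul_sub, h1, ← hD, ← mul_div_assoc, h3]
    field_simp
    ring
  set M : ℕ := (7 * A) ^ D with hM
  have hMr : (M : ℝ) = (7 * A : ℝ) ^ D := by rw [hM]; push_cast; rfl
  have hM0 : (0 : ℝ) < M := by rw [hMr]; positivity
  set r : ℕ → ℕ := fun k => ((k * l) % e).toNat with hr
  have hr1 : ∀ k : ℕ, (r k : ℤ) = (k * l) % e := fun k =>
    Int.toNat_of_nonneg (Int.emod_nonneg _ he2.ne')
  have hr2 : ∀ k, r k ≤ e := fun k => by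
    have := Int.emod_lt_of_pos (k * l) he2
    rw [← hr1] at this
    omega
  set Y : ℕ → K := fun k => b * y ^ k * ((a : K) / b) ^ (-((k * l) / e)) with hY
  have hYe : ∀ k, Y k ^ e = ((u : 𝓞 K) : K) ^ k * (a ^ r k * b ^ (e - r k)) := by
    intro k
    have e1 : ((a : K) / b) ^ r k = (((a : K) / b) ^ l) ^ k * (((a : K) / b) ^ (-((k * l) / e))) ^ e := by
      rw [← zpow_natCast, ← zpow_natCast, ← zpow_natCast, ← zpow_mul, ← zpow_mul, ← zpow_add₀ hη0,
        hr1, Int.emod_def]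
      congr 1
      ring
    have e2 : (b : K) ^ e = b ^ r k * b ^ (e - r k) := by rw [← pow_add, Nat.add_sub_cancel' (hr2 k)]
    have e3 : (a : K) ^ r k = ((a : K) / b) ^ r k * b ^ r k := by
      rw [← mul_pow, div_mul_cancel₀ _ hbK]
    rw [hY]
    dsimp only
    rw [mul_pow, mul_pow, ← pow_mul y, mul_comm k e, pow_mul y, hy, mul_pow, e2, e3, e1]
    ring
  have hYi : ∀ k, IsIntegral ℤ (Y k) := by
    intro k
    refine IsIntegral.of_pow (Nat.pos_of_ne_zero he) ?_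
    rw [hYe]
    exact ((u : 𝓞 K).isIntegral_coe.pow _).mul
      (((isIntegral_algebraMap (x := a)).pow _).mul ((isIntegral_algebraMap (x := b)).pow _))
  set c : ℕ → ℝ := fun k => |(a : ℝ)| ^ r k * |(b : ℝ)| ^ (e - r k) with hc
  have hc0 : ∀ k, 0 < c k := fun k => by
    have : (a : ℝ) ≠ 0 := by exact_mod_cast ha
    have : (b : ℝ) ≠ 0 := by exact_mod_cast hb
    positivity
  have hcA : ∀ k, c k ≤ (A : ℝ) ^ e := fun k => by
    have h3 : |(a : ℝ)| ≤ A := by exact_mod_cast haA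
    have h4 : |(b : ℝ)| ≤ A := by exact_mod_cast hbA
    calc c k ≤ (A : ℝ) ^ r k * (A : ℝ) ^ (e - r k) := by rw [hc]; dsimp only; gcongr
      _ = _ := by rw [← pow_add, Nat.add_sub_cancel' (hr2 k)]
  have hYn : ∀ k (φ : K →+* ℂ), ‖φ (Y k)‖ ^ e = ‖φ ((u : 𝓞 K) : K)‖ ^ k * c k := by
    intro k φ
    rw [← norm_pow, ← map_pow, hYe, hc]
    simp
  have hYs : ∀ k ≤ M, Hs (3 * A) (Y k) := by
    intro k hk φ
    refine (pow_le_pow_iff_left₀ (norm_nonneg _) (by positivity) he).mp ?_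
    rw [hYn, mul_pow]
    refine mul_le_mul ?_ (hcA k) (hc0 k).le (by positivity)
    have h3 : (k : ℝ) * lbar y φ ≤ 1 := by
      have h4 := (le_abs_self _).trans (hl φ).le
      rw [← hMr] at h4
      have h5 : (k : ℝ) ≤ M := by exact_mod_cast hk
      calc _ ≤ (k : ℝ) * (M : ℝ)⁻¹ := by gcongr
        _ ≤ M * (M : ℝ)⁻¹ := by gcongr
        _ = 1 := mul_inv_cancel₀ hM0.ne'
    rw [← exp_log (lt_of_le_of_ne (norm_nonneg _) (hu0 φ).symm), h2, ← exp_nat_mul]
    calc exp (k * (e * lbar y φ)) ≤ exp (e * 1) := exp_le_exp.mpr (by nlinarith)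
      _ = exp 1 ^ e := by rw [exp_nat_mul]
      _ ≤ 3 ^ e := by gcongr; linarith [exp_one_lt_d9]
  set Z : ℕ → 𝓞 K := fun k => ⟨Y k, hYi k⟩ with hZ
  have hcard : ((range (M + 1)).image Z).card < (range (M + 1)).card := by
    have h3 := h K (3 * A) ((range (M + 1)).image Z) (by positivity) fun x hx => by
      obtain ⟨k, hk, rfl⟩ := mem_image.mp hx
      exact hYs k (Nat.lt_succ_iff.mp (mem_range.mp hk))
    have h4 : (2 * (3 * A) + 1 : ℝ) ^ D ≤ M := by rw [hMr]; gcongr; linarith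
    have h5 : ((range (M + 1)).image Z).card ≤ M := by exact_mod_cast h3.trans h4
    rw [card_range]
    omega
  obtain ⟨k, -, k', -, hne, heq⟩ := exists_ne_map_eq_of_card_lt_of_maps_to hcard (f := Z)
    (fun k hk => mem_coe.mpr (mem_image_of_mem _ hk))
  have hYY : Y k = Y k' := congrArg Subtype.val heq
  have h5 : ∀ φ : K →+* ℂ, ((k : ℝ) - k') * log ‖φ ((u : 𝓞 K) : K)‖ = log (c k') - log (c k) := by
    intro φ
    have h6 := congrArg log ((hYn k φ).symm.trans (hYY ▸ hYn k' φ))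
    rw [log_mul (pow_ne_zero _ (hu0 φ)) (hc0 _).ne', log_mul (pow_ne_zero _ (hu0 φ)) (hc0 _).ne',
      log_pow, log_pow] at h6
    linarith
  have h6 : log (c k') - log (c k) = 0 := by
    have h7 := sum_congr rfl fun ψ (_ : ψ ∈ univ) => h5 ψ
    rw [← mul_sum, sum_unit, sum_const, card_univ, Embeddings.card, nsmul_eq_mul, ← hD,
      mul_zero] at h7
    exact (mul_eq_zero.mp h7.symm).resolve_left hD1.ne'
  refine (mem_torsion K).mpr fun w => ?_
  have h7 := h5 w.embedding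
  rw [h6] at h7
  have h8 := (mul_eq_zero.mp h7).resolve_left (sub_ne_zero.mpr (by exact_mod_cast hne))
  rw [← InfinitePlace.norm_embedding_eq]
  exact eq_one_of_pos_of_log_eq_zero (lt_of_le_of_ne (norm_nonneg _) (hu0 _).symm) h8

end Pool.Agent.P.MP_657a03_nt
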