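import Pool.Agent.P.MP_657a03_nt.Iface

/-!
A Schwarz lemma for exponential polynomials modulo a power of `p`.
-/

set_option autoImplicit false

open Finset Polynomial

namespace Pool.Agent.P.MP_657a03_nt

namespace Schwarz

section General

variable {S : Type} [CommRing S]

/-- The truncated exponential. -/
def ex (N : ℕ) (iv : ℕ → S) (x : S) : S := ∑ m ∈ range N, iv m * x ^ m

lemma map_ex {S' : Type} [CommRing S'] (φ : S →+* S') (N : ℕ) (iv : ℕ → S) (x : S) :
    φ (ex N iv x) = ex N (fun m => φ (iv m)) (φ x) := by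
  simp [ex, map_sum]

lemma iv_mul {N : ℕ} {iv : ℕ → S} (hiv : ∀ m < N, (m.factorial : S) * iv m = 1) (i j : ℕ)
    (h : i + j < N) : iv (i + j) * ((i + j).choose i : S) = iv i * iv j := by
  have h1 := hiv (i + j) h
  have h2 := hiv i (by omega)
  have h3 := hiv j (by omega)
  have h4 : (((i + j).choose i : ℕ) : S) * (i.factorial : S) * (j.factorial : S) =
      ((i + j).factorial : S) := by
    have := Nat.add_choose_mul_factorial_mul_factorial j i
    rw [add_comm j i] at this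
    rw [← this]; push_cast; ring
  calc iv (i + j) * ((i + j).choose i : S)
      = iv (i + j) * ((i + j).choose i : S) * ((i.factorial : S) * iv i) *
          ((j.factorial : S) * iv j) := by rw [h2, h3]; ring
    _ = ((((i + j).choose i : ℕ) : S) * (i.factorial : S) * (j.factorial : S) * iv (i + j)) *
          (iv i * iv j) := by ring
    _ = iv i * iv j := by rw [h4, h1, one_mul]

lemma ex_add {N : ℕ} {iv : ℕ → S} (hiv : ∀ m < N, (m.factorial : S) * iv m = 1) {π : S}
    (hπ : π ^ N = 0) {x y : S} (hx : π ∣ x) (hy : π ∣ y) :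
    ex N iv (x + y) = ex N iv x * ex N iv y := by
  have h1 : ex N iv (x + y) = ∑ m ∈ range N, ∑ k ∈ range (m + 1),
      (iv k * x ^ k) * (iv (m - k) * y ^ (m - k)) := by
    unfold ex
    refine sum_congr rfl fun m hm => ?_
    rw [add_pow, mul_sum]
    refine sum_congr rfl fun k hk => ?_
    have hk' : k ≤ m := by simpa [Nat.lt_succ_iff] using hk
    obtain ⟨j, rfl⟩ := Nat.exists_eq_add_of_le hk'
    have := iv_mul hiv k j (by simpa using hm)
    rw [Nat.add_sub_cancel_left]
    linear_combination (x ^ k * y ^ j) * this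
  rw [h1, sum_range_diag_flip N (fun i j => (iv i * x ^ i) * (iv j * y ^ j))]
  unfold ex
  rw [sum_mul_sum]
  refine sum_congr rfl fun i hi => ?_
  refine sum_subset (fun j hj => ?_) (fun j _ hj => ?_)
  · simp only [mem_range] at hj ⊢; omega
  · obtain ⟨a, rfl⟩ := hx
    obtain ⟨b, rfl⟩ := hy
    have hij : N ≤ i + j := by
      simp only [mem_range] at hj hi; omega
    obtain ⟨k, hk⟩ := Nat.exists_eq_add_of_le hij
    have : π ^ i * π ^ j = 0 := by rw [← pow_add, hk, pow_add, hπ, zero_mul]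
    rw [mul_pow, mul_pow]
    linear_combination (iv i * a ^ i * iv j * b ^ j) * this

lemma ex_approx {N : ℕ} {iv : ℕ → S} (hiv : ∀ m < N, (m.factorial : S) * iv m = 1) {π : S}
    (hπ : π ^ N = 0) {x : S} (hx : π ∣ x) : π * x ∣ ex N iv x - 1 - x := by
  rcases N with _ | _ | N
  · have h0 : (1 : S) = 0 := by simpa using hπ
    have : ex 0 iv x - 1 - x = 0 := by
      rw [← one_mul (ex 0 iv x - 1 - x), h0, zero_mul]
    rw [this]; exact dvd_zero _
  · obtain ⟨a, rfl⟩ := hx
    have h0 : π = 0 := by simpa using hπ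
    have h1 : iv 0 = 1 := by simpa using hiv 0 (by omega)
    simp [ex, h0, h1]
  · have h0 : iv 0 = 1 := by simpa using hiv 0 (by omega)
    have h1 : iv 1 = 1 := by simpa using hiv 1 (by omega)
    have : ex (N + 1 + 1) iv x - 1 - x = ∑ m ∈ range N, iv (m + 1 + 1) * x ^ (m + 1 + 1) := by
      unfold ex
      rw [sum_range_succ', sum_range_succ']
      simp [h0, h1]
    rw [this]
    refine dvd_sum fun m _ => ?_
    obtain ⟨a, ha⟩ := hx
    refine ⟨iv (m + 1 + 1) * a * x ^ m, ?_⟩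
    have : x ^ (m + 1 + 1) = x ^ m * x * x := by ring
    rw [this]
    nth_rewrite 3 [ha]
    ring

lemma ex_one_mod {N : ℕ} {iv : ℕ → S} (hiv : ∀ m < N, (m.factorial : S) * iv m = 1) {π : S}
    (hπ : π ^ N = 0) {x : S} (hx : π ∣ x) : π ∣ ex N iv x - 1 := by
  have h := (dvd_mul_right π x).trans (ex_approx hiv hπ hx)
  have : ex N iv x - 1 = (ex N iv x - 1 - x) + x := by ring
  rw [this]; exact dvd_add h hx

lemma ex_zero {N : ℕ} {iv : ℕ → S} (hiv : ∀ m < N, (m.factorial : S) * iv m = 1) {π : S}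
    (hπ : π ^ N = 0) : ex N iv 0 = 1 := by
  have h := ex_approx hiv hπ (dvd_zero π)
  rw [mul_zero, zero_dvd_iff] at h
  linear_combination h

lemma ex_surj {N : ℕ} {iv : ℕ → S} (hiv : ∀ m < N, (m.factorial : S) * iv m = 1) {π : S}
    (hπ : π ^ N = 0) {w : S} (hw : π ∣ w - 1) : ∃ a, ex N iv (π * a) = w := by
  have key : ∀ k : ℕ, ∃ a, π ^ (k + 1) ∣ ex N iv (π * a) - w := by
    intro k
    induction k with
    | zero =>
      refine ⟨0, ?_⟩
      rw [mul_zero, ex_zero hiv hπ, zero_add, pow_one]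
      exact (dvd_sub_comm).1 hw
    | succ k ih =>
      obtain ⟨a, t, ht⟩ := ih
      refine ⟨a - π ^ k * t, ?_⟩
      have e1 : π * (a - π ^ k * t) = π * a + π * (-(π ^ k * t)) := by ring
      rw [e1, ex_add hiv hπ (dvd_mul_right _ _) (dvd_mul_right _ _)]
      obtain ⟨b, hb⟩ := ex_one_mod hiv hπ (dvd_mul_right π a)
      obtain ⟨d, hd⟩ := ex_approx hiv hπ (dvd_mul_right π (-(π ^ k * t)))
      refine ⟨-(t * b) - t * d * ex N iv (π * a), ?_⟩
      linear_combination ht + ex N iv (π * a) * hd - π * (π ^ k * t) * hb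
  obtain ⟨a, t, ht⟩ := key N
  refine ⟨a, ?_⟩
  rw [pow_succ, hπ, zero_mul, zero_mul] at ht
  linear_combination ht

/-- The exponential as a homomorphism. -/
def exHom {N : ℕ} {iv : ℕ → S} (hiv : ∀ m < N, (m.factorial : S) * iv m = 1) {π : S}
    (hπ : π ^ N = 0) : Multiplicative S →* S where
  toFun x := ex N iv (π * x.toAdd)
  map_one' := by simpa using ex_zero hiv hπ
  map_mul' x y := by
    rw [toAdd_mul, mul_add, ex_add hiv hπ (dvd_mul_right _ _) (dvd_mul_right _ _)]

lemma ex_pow {N : ℕ} {iv : ℕ → S} (hiv : ∀ m < N, (m.factorial : S) * iv m = 1) {π : S}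
    (hπ : π ^ N = 0) (a : S) (n : ℕ) : ex N iv (π * a * n) = ex N iv (π * a) ^ n := by
  have := map_pow (exHom hiv hπ) (Multiplicative.ofAdd a) n
  simp only [exHom, MonoidHom.coe_mk, OneHom.coe_mk, toAdd_pow, toAdd_ofAdd, nsmul_eq_mul] at this
  rw [← this]; congr 1; ring

lemma ex_prod {N : ℕ} {iv : ℕ → S} (hiv : ∀ m < N, (m.factorial : S) * iv m = 1) {π : S}
    (hπ : π ^ N = 0) {s : ℕ} (w : Fin s → Sˣ) (a : Fin s → S)
    (ha : ∀ j, ex N iv (π * a j) = w j) (z : Fin s → ℤ) :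
    ex N iv (π * ∑ j, (z j : S) * a j) = ((∏ j, w j ^ z j : Sˣ) : S) := by
  have h1 : ∀ j, (exHom hiv hπ).toHomUnits (Multiplicative.ofAdd (a j)) = w j := by
    intro j
    ext
    rw [MonoidHom.coe_toHomUnits]
    exact ha j
  have h2 : (∏ j, w j ^ z j : Sˣ) =
      (exHom hiv hπ).toHomUnits (∏ j, Multiplicative.ofAdd (a j) ^ z j) := by
    rw [map_prod]
    exact prod_congr rfl fun j _ => by rw [map_zpow, h1]
  rw [h2, MonoidHom.coe_toHomUnits]
  change _ = ex N iv (π * Multiplicative.toAdd _)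
  rw [toAdd_prod]
  simp

/-- Every coefficient is divisible by the expected power. -/
def H (π : S) (e : ℕ) (Φ : S[X]) : Prop := ∀ m, π ^ (m + e) ∣ Φ.coeff m

lemma H_one {π t : S} {e : ℕ} {Ψ : S[X]} (h : H π e ((X - C t) * Ψ)) : H π (e + 1) Ψ := by
  have key : ∀ k m, Ψ.natDegree < m + k → π ^ (m + (e + 1)) ∣ Ψ.coeff m := by
    intro k
    induction k with
    | zero =>
      intro m hm
      rw [coeff_eq_zero_of_natDegree_lt (by simpa using hm)]
      exact dvd_zero _
    | succ k ih =>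
      intro m hm
      have h1 := h (m + 1)
      rw [sub_mul, coeff_sub, coeff_X_mul, coeff_C_mul] at h1
      have h2 := ih (m + 1) (by omega)
      have e1 : m + 1 + e = m + (e + 1) := by omega
      rw [e1] at h1
      have h3 : π ^ (m + (e + 1)) ∣ t * Ψ.coeff (m + 1) :=
        Dvd.dvd.mul_left ((pow_dvd_pow π (by omega)).trans h2) t
      simpa using dvd_add h1 h3
  intro m
  exact key (Ψ.natDegree + 1) m (by omega)

lemma H_pow {π t : S} (k : ℕ) : ∀ {e : ℕ} {Ψ : S[X]}, H π e ((X - C t) ^ k * Ψ) →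
    H π (e + k) Ψ := by
  induction k with
  | zero => intro e Ψ h; simpa using h
  | succ k ih =>
    intro e Ψ h
    rw [pow_succ', mul_assoc] at h
    have := ih (H_one h)
    rwa [add_assoc, add_comm 1 k] at this

lemma H_prod {π : S} (t : ℕ → S) (k U : ℕ) : ∀ {e : ℕ} {Ψ : S[X]},
    H π e ((∏ v ∈ range U, (X - C (t v)) ^ k) * Ψ) → H π (e + U * k) Ψ := by
  induction U with
  | zero => intro e Ψ h; simpa using h
  | succ U ih =>
    intro e Ψ h
    rw [prod_range_succ, mul_assoc] at h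
    have := H_pow k (ih h)
    rwa [add_assoc, ← Nat.succ_mul] at this

lemma H_eval {π : S} {e : ℕ} {Ψ : S[X]} (h : H π e Ψ) (u : S) : π ^ e ∣ Ψ.eval u := by
  rw [eval_eq_sum_range]
  exact dvd_sum fun m _ => Dvd.dvd.mul_right ((pow_dvd_pow π (by omega)).trans (h m)) _

lemma coeff_ex (N : ℕ) (iv : ℕ → S) (a : S) (j : ℕ) :
    (ex N (fun m => C (iv m)) (C a * X)).coeff j = if j < N then iv j * a ^ j else 0 := by
  unfold ex
  rw [finsetSum_coeff]
  have : ∀ m, (C (iv m) * (C a * X) ^ m : S[X]).coeff j = if j = m then iv j * a ^ j else 0 := by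
    intro m
    rw [mul_pow, ← C_pow, ← mul_assoc, ← C_mul, coeff_C_mul_X_pow]
    split_ifs with h
    · rw [h]
    · rfl
  simp [this]

lemma comp_ex {N : ℕ} {iv : ℕ → S} (hiv : ∀ m < N, (m.factorial : S) * iv m = 1) {π : S}
    (hπ : π ^ N = 0) (a t : S) :
    (ex N (fun m => C (iv m)) (C (π * a) * X)).comp (X + C t) =
      C (ex N iv (π * a * t)) * ex N (fun m => C (iv m)) (C (π * a) * X) := by
  have hiv' : ∀ m < N, (m.factorial : S[X]) * C (iv m) = 1 := by
    intro m hm
    rw [← C_eq_natCast, ← C_mul, hiv m hm, C_1]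
  have hπ' : (C π : S[X]) ^ N = 0 := by rw [← C_pow, hπ, C_0]
  have h1 := map_ex (compRingHom (X + C t)) N (fun m => C (iv m)) (C (π * a) * X)
  simp only [coe_compRingHom_apply, C_comp, mul_comp, X_comp] at h1
  rw [h1, map_ex C N iv (π * a * t), ← ex_add hiv' hπ']
  · congr 1
    simp only [C_mul]; ring
  · exact ⟨C (a * t), by simp only [C_mul]; ring⟩
  · exact ⟨C a * X, by simp only [C_mul]; ring⟩

lemma eval_ex (N : ℕ) (iv : ℕ → S) (a u : S) :
    (ex N (fun m => C (iv m)) (C a * X)).eval u = ex N iv (a * u) := by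
  have h1 := map_ex (evalRingHom u) N (fun m => C (iv m)) (C a * X)
  simpa using h1

lemma vanish {ι : Type} (L : Finset ι) {s : ℕ} (z : ι → Fin s → ℤ) (μ : Fin s → S)
    (c q : ι → S) (B : ℕ)
    (h : ∀ f : List (Fin s), f.length ≤ B → ∑ l ∈ L, c l * (wd z f l : ℤ) * q l = 0) (j : ℕ) :
    ∀ f : List (Fin s), f.length + j ≤ B →
      ∑ l ∈ L, c l * (wd z f l : ℤ) * q l * (∑ k, (z l k : S) * μ k) ^ j = 0 := by
  induction j with
  | zero => intro f hf; simpa using h f (by omega)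
  | succ j ih =>
    intro f hf
    have : ∑ l ∈ L, c l * (wd z f l : ℤ) * q l * (∑ k, (z l k : S) * μ k) ^ (j + 1) =
        ∑ k, μ k * ∑ l ∈ L, c l * (wd z (k :: f) l : ℤ) * q l *
          (∑ k, (z l k : S) * μ k) ^ j := by
      simp only [mul_sum]
      rw [sum_comm]
      refine sum_congr rfl fun l _ => ?_
      rw [pow_succ, mul_sum, mul_sum]
      refine sum_congr rfl fun k _ => ?_
      simp only [wd, List.map_cons, List.prod_cons, Int.cast_mul]
      ring
    rw [this]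
    exact sum_eq_zero fun k _ => by rw [ih (k :: f) (by simp; omega), mul_zero]

theorem general {N : ℕ} {iv : ℕ → S} (hiv : ∀ m < N, (m.factorial : S) * iv m = 1) {π : S}
    (hπ : π ^ N = 0) (h2 : IsUnit (2 : S)) {ι : Type} (L : Finset ι) {s : ℕ}
    (z : ι → Fin s → ℤ) (w : Fin s → Sˣ) (c q : ι → S) (U Δ T : ℕ)
    (hU : ∀ v < U, ∀ v' < U, v ≠ v' → IsUnit ((v : S) - (v' : S)))
    (hw : ∀ j, π ∣ (w j : S) - 1) (hq : ∀ l ∈ L, π ∣ q l - 1)
    (hsq : ∀ l ∈ L, q l ^ 2 = ((∏ j, w j ^ z l j : Sˣ) : S))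
    (hv : ∀ v < U, ∀ f : List (Fin s), f.length ≤ T + Δ →
      ∑ l ∈ L, c l * (wd z f l : ℤ) * q l ^ (2 * (2 * v + 1)) = 0)
    (u : ℕ) (f : List (Fin s)) (hf : f.length ≤ T) :
    π ^ (U * Δ) ∣ ∑ l ∈ L, c l * (wd z f l : ℤ) * q l ^ u := by
  choose a ha using fun j => ex_surj hiv hπ (hw j)
  obtain ⟨h, hh⟩ := h2.exists_right_inv
  set b : ι → S := fun l => ∑ k, (z l k : S) * (a k * h) with hb
  have hqb : ∀ l ∈ L, ex N iv (π * b l) = q l := by
    intro l hl
    have e1 : ex N iv (π * b l) ^ 2 = q l ^ 2 := by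
      rw [hsq l hl, ← ex_prod hiv hπ w a ha (z l), ← ex_pow hiv hπ]
      congr 1
      simp only [hb, mul_sum, sum_mul]
      refine sum_congr rfl fun k _ => ?_
      push_cast
      linear_combination (π * (z l k : S) * a k) * hh
    obtain ⟨d, hd⟩ := ex_one_mod hiv hπ (dvd_mul_right π (b l))
    obtain ⟨d', hd'⟩ := hq l hl
    have hn : IsNilpotent (π * (d + d')) := ⟨N, by rw [mul_pow, hπ, zero_mul]⟩
    have hun : IsUnit (ex N iv (π * b l) + q l) := by
      have := hn.isUnit_add_right_of_commute h2 (Commute.all _ _)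
      convert this using 1
      linear_combination hd + hd'
    have e2 : (ex N iv (π * b l) + q l) * (ex N iv (π * b l) - q l) = 0 := by
      linear_combination e1
    exact sub_eq_zero.1 (hun.mul_right_eq_zero.1 e2)
  set Φ : S[X] := ∑ l ∈ L, C (c l * (wd z f l : ℤ)) *
    ex N (fun m => C (iv m)) (C (π * b l) * X) with hΦ
  have hev : Φ.eval (u : S) = ∑ l ∈ L, c l * (wd z f l : ℤ) * q l ^ u := by
    rw [hΦ, eval_finsetSum]
    refine sum_congr rfl fun l hl => ?_
    rw [eval_mul, eval_C, eval_ex, ex_pow hiv hπ, hqb l hl]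
  have hH : H π 0 Φ := by
    intro m
    rw [hΦ, finsetSum_coeff]
    refine dvd_sum fun l _ => ?_
    rw [coeff_C_mul, coeff_ex]
    split_ifs
    · exact ⟨c l * (wd z f l : ℤ) * iv m * b l ^ m, by rw [mul_pow]; ring⟩
    · simp
  have hdv : ∀ v < U, (X - C (((2 * (2 * v + 1) : ℕ)) : S)) ^ Δ ∣ Φ := by
    intro v hvU
    rw [X_sub_C_pow_dvd_iff, Polynomial.X_pow_dvd_iff]
    intro j hj
    have e1 : (Φ.comp (X + C (((2 * (2 * v + 1) : ℕ)) : S))).coeff j =
        (if j < N then iv j else 0) * ∑ l ∈ L, c l * (wd z f l : ℤ) * q l ^ (2 * (2 * v + 1)) *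
          (∑ k, (z l k : S) * (π * (a k * h))) ^ j := by
      rw [hΦ, Polynomial.sum_comp, finsetSum_coeff, mul_sum]
      refine sum_congr rfl fun l hl => ?_
      rw [mul_comp, C_comp, comp_ex hiv hπ, ex_pow hiv hπ, hqb l hl, coeff_C_mul, coeff_C_mul,
        coeff_ex]
      have e2 : ∑ k, (z l k : S) * (π * (a k * h)) = π * b l := by
        simp only [hb, mul_sum]
        exact sum_congr rfl fun k _ => by ring
      rw [e2]
      split_ifs
      · ring
      · ring
    rw [e1, vanish L z (fun k => π * (a k * h)) c (fun l => q l ^ (2 * (2 * v + 1))) (T + Δ)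
      (hv v hvU) j f (by omega), mul_zero]
  obtain ⟨Ψ, hΨ⟩ : ∏ v ∈ range U, (X - C (((2 * (2 * v + 1) : ℕ)) : S)) ^ Δ ∣ Φ := by
    refine prod_dvd_of_coprime ?_ fun v hv => hdv v (mem_range.1 hv)
    intro v hv v' hv' hne
    refine IsCoprime.pow (isCoprime_X_sub_C_of_isUnit_sub ?_)
    have := (h2.mul h2).mul (hU v (by simpa using hv) v' (by simpa using hv') hne)
    convert this using 1
    push_cast; ring
  rw [← hev, hΨ, eval_mul]
  rw [hΨ] at hH
  have := H_eval (H_prod (fun v => (((2 * (2 * v + 1) : ℕ)) : S)) Δ U hH) (u : S)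
  rw [zero_add] at this
  exact this.mul_left _

end General

lemma unit_of_not_dvd (p N m : ℕ) (hp : p.Prime) (h : ¬ p ∣ m) : IsUnit (m : ZMod (p ^ N)) := by
  rw [ZMod.isUnit_iff_coprime]
  exact Nat.Coprime.pow_right N ((Nat.Prime.coprime_iff_not_dvd hp).2 h).symm

end Schwarz

theorem schwarz : S_SCHWARZ := by
  intro p N hp ι L s z w c q U Δ T hp2 hN hU hw hq hsq hv u f hf
  have hpp := hp.out
  have hfac : ∀ m < N, ∃ b : ZMod (p ^ N), (m.factorial : ZMod (p ^ N)) * b = 1 := by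
    intro m hm
    refine (Schwarz.unit_of_not_dvd p N _ hpp ?_).exists_right_inv
    rw [hpp.dvd_factorial]; omega
  choose! iv hiv using hfac
  have hπ : (p : ZMod (p ^ N)) ^ N = 0 := by
    rw [← Nat.cast_pow, ZMod.natCast_self]
  have h2 : IsUnit (2 : ZMod (p ^ N)) := by
    have := Schwarz.unit_of_not_dvd p N 2 hpp
      (fun h => hp2 ((Nat.prime_dvd_prime_iff_eq hpp Nat.prime_two).1 h))
    simpa using this
  have hlt : ∀ v v' : ℕ, v' < v → v < U → IsUnit ((v : ZMod (p ^ N)) - (v' : ZMod (p ^ N))) := by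
    intro v v' h1 h2
    rw [← Nat.cast_sub h1.le]
    exact Schwarz.unit_of_not_dvd p N _ hpp (Nat.not_dvd_of_pos_of_lt (by omega) (by omega))
  refine Schwarz.general hiv hπ h2 L z w c q U Δ T ?_ hw hq hsq hv u f hf
  intro v hv v' hv' hne
  rcases lt_or_gt_of_ne hne with h | h
  · rw [← neg_sub]; exact (hlt v' v h hv').neg
  · exact hlt v v' h hv

end Pool.Agent.P.MP_657a03_nt
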