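import Pool.Agent.P.MP_657a03_nt.Iface

set_option autoImplicit false

open NumberField Module Polynomial

namespace Pool.Agent.P.MP_657a03_nt

namespace Step

section core

variable {K L : Type} [Field K] [NumberField K] [Field L] [NumberField L] [Algebra K L]
  [IsGalois K L] {n : ℕ} (u : Fin n → K) (t : Fin n → L)

lemma pm (ht : ∀ j, t j * t j = algebraMap K L (u j)) (σ : L ≃ₐ[K] L) (j : Fin n) :
    σ (t j) = t j ∨ σ (t j) = - t j := by
  have h : σ (t j) * σ (t j) = t j * t j := by
    rw [← map_mul, ht j, AlgEquiv.commutes]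
  exact mul_self_eq_mul_self_iff.mp h

lemma ne0 (hsq : ∀ s : Finset (Fin n), IsSquare (∏ j ∈ s, u j) → s = ∅) (j : Fin n) :
    u j ≠ 0 := by
  intro h
  have := hsq {j} (by simp [h])
  simp at this

lemma sep (ht : ∀ j, t j * t j = algebraMap K L (u j))
    (hsq : ∀ s : Finset (Fin n), IsSquare (∏ j ∈ s, u j) → s = ∅) (s s' : Finset (Fin n))
    (h : ∀ σ : L ≃ₐ[K] L, σ ((∏ j ∈ s, t j) * ∏ j ∈ s', t j) = (∏ j ∈ s, t j) * ∏ j ∈ s', t j) :
    s = s' := by
  classical
  obtain ⟨c, hc⟩ := (IsGalois.mem_range_algebraMap_iff_fixed (F := K) _).mpr h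
  have h1 : (∏ j ∈ s, u j) * ∏ j ∈ s', u j = c * c := by
    apply (algebraMap K L).injective
    rw [map_mul, map_mul, hc, map_prod, map_prod]
    simp only [← ht, Finset.prod_mul_distrib]
    ring
  have h2 : (∏ j ∈ s, u j) * ∏ j ∈ s', u j =
      (∏ j ∈ symmDiff s s', u j) * ((∏ j ∈ s ∩ s', u j) * ∏ j ∈ s ∩ s', u j) := by
    rw [← Finset.prod_union_inter, ← mul_assoc]
    congr 1
    rw [← Finset.prod_union]
    · congr 1
      ext j
      simp only [Finset.mem_union, Finset.mem_symmDiff, Finset.mem_inter]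
      tauto
    · rw [Finset.disjoint_left]
      intro j
      simp only [Finset.mem_symmDiff, Finset.mem_inter]
      tauto
  have h3 : (∏ j ∈ s ∩ s', u j) ≠ 0 := Finset.prod_ne_zero_iff.mpr fun j _ => ne0 u hsq j
  have h4 : IsSquare (∏ j ∈ symmDiff s s', u j) := by
    refine ⟨c / ∏ j ∈ s ∩ s', u j, ?_⟩
    field_simp
    rw [h2] at h1
    linear_combination h1
  have h5 := hsq _ h4
  exact symmDiff_eq_bot.mp h5

/-- The sign character attached to one square root. -/
noncomputable def eps (ht : ∀ j, t j * t j = algebraMap K L (u j)) (h0 : ∀ j, t j ≠ 0)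
    (j : Fin n) : (L ≃ₐ[K] L) →* L where
  toFun σ := σ (t j) / t j
  map_one' := by simp [h0 j]
  map_mul' σ τ := by
    have := h0 j
    rw [AlgEquiv.mul_apply]
    rcases pm u t ht τ j with h | h <;> rw [h]
    · field_simp
    · rw [map_neg]; field_simp

lemma deg (ht : ∀ j, t j * t j = algebraMap K L (u j))
    (hsq : ∀ s : Finset (Fin n), IsSquare (∏ j ∈ s, u j) → s = ∅)
    (hgen : ∀ σ : L ≃ₐ[K] L, (∀ j, σ (t j) = t j) → σ = 1) : finrank K L = 2 ^ n := by
  classical
  have h0 : ∀ j, t j ≠ 0 := by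
    intro j h
    have h1 := ht j
    rw [h, mul_zero] at h1
    exact ne0 u hsq j ((algebraMap K L).injective (by rw [← h1, map_zero]))
  rw [← IsGalois.card_aut_eq_finrank, Nat.card_eq_fintype_card]
  apply le_antisymm
  · have hinj : Function.Injective
        (fun (σ : L ≃ₐ[K] L) (j : Fin n) => decide (σ (t j) = t j)) := by
      intro σ τ h
      have h1 : ∀ j, σ (t j) = τ (t j) := by
        intro j
        have h2 : σ (t j) = t j ↔ τ (t j) = t j := by
          simpa using congrFun h j
        rcases pm u t ht σ j with h3 | h3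
        · rw [h3, h2.mp h3]
        · rcases pm u t ht τ j with h4 | h4
          · rw [h4, h2.mpr h4]
          · rw [h3, h4]
      have h5 : τ⁻¹ * σ = 1 := hgen _ fun j => by
        rw [AlgEquiv.mul_apply, h1 j]
        exact τ.symm_apply_apply _
      exact (inv_mul_eq_one.mp h5).symm
    simpa using Fintype.card_le_of_injective _ hinj
  · let χ : Finset (Fin n) → ((L ≃ₐ[K] L) →* L) := fun s => ∏ j ∈ s, eps u t ht h0 j
    have hχ : ∀ s (σ : L ≃ₐ[K] L), σ (∏ j ∈ s, t j) = χ s σ * ∏ j ∈ s, t j := by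
      intro s σ
      simp only [χ, MonoidHom.finset_prod_apply, map_prod, ← Finset.prod_mul_distrib]
      refine Finset.prod_congr rfl fun j _ => ?_
      have := h0 j
      show σ (t j) = σ (t j) / t j * t j
      field_simp
    have hχ2 : ∀ s (σ : L ≃ₐ[K] L), χ s σ * χ s σ = 1 := by
      intro s σ
      simp only [χ, MonoidHom.finset_prod_apply, ← Finset.prod_mul_distrib]
      refine Finset.prod_eq_one fun j _ => ?_
      have := h0 j
      show σ (t j) / t j * (σ (t j) / t j) = 1
      rcases pm u t ht σ j with h | h <;> rw [h] <;> field_simp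
    have hinj : Function.Injective χ := by
      intro s s' h
      refine sep u t ht hsq s s' fun σ => ?_
      rw [map_mul, hχ, hχ, ← h]
      linear_combination ((∏ j ∈ s, t j) * ∏ j ∈ s', t j) * hχ2 s σ
    have hli := (linearIndependent_monoidHom (L ≃ₐ[K] L) L).comp χ hinj
    simpa using hli.fintype_card_le_finrank

end core

lemma bound (h : S_DIFF) {K L : Type} [Field K] [NumberField K] [Field L] [NumberField L]
    [Algebra K L] [IsGalois K L] {n m : ℕ} (u : Fin n → 𝓞 K) (t : Fin n → L) (hm : m ≠ 0)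
    (ht : ∀ j, t j * t j = algebraMap K L (u j))
    (hdv : ∀ s : Finset (Fin n), ∏ j ∈ s, u j ∣ (m : 𝓞 K) ^ 2)
    (hgen : ∀ σ : L ≃ₐ[K] L, (∀ j, σ (t j) = t j) → σ = 1) :
    (discr L).natAbs ≤ (2 * m) ^ (2 * finrank ℚ L) * (discr K).natAbs ^ finrank K L := by
  have hint : ∀ j, IsIntegral ℤ (t j) := by
    intro j
    refine IsIntegral.of_pow (n := 2) (by norm_num) ?_
    rw [sq, ht j]
    exact (u j).isIntegral_coe.algebraMap
  let q : Fin n → 𝓞 L := fun j => ⟨t j, hint j⟩
  have hq : ∀ j, q j ^ 2 = algebraMap (𝓞 K) (𝓞 L) (u j) := by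
    intro j
    apply RingOfIntegers.ext
    show t j ^ 2 = _
    rw [sq, ht j]
    rfl
  have hmem := h K L n m q hm (fun j => ⟨u j, by
      show _ = t j ^ 2
      rw [sq, ht j]⟩) hgen (fun s => by
    rw [← IsIntegrallyClosed.pow_dvd_pow_iff (n := 2) (by norm_num), ← Finset.prod_pow]
    simp only [hq]
    rw [← map_prod]
    have := map_dvd (algebraMap (𝓞 K) (𝓞 L)) (hdv s)
    simpa using this)
  rw [natAbs_discr_eq_absNorm_differentIdeal_mul_natAbs_discr_pow K (𝓞 K) L (𝓞 L)]
  refine Nat.mul_le_mul_right _ ?_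
  have h1 : Ideal.span {(((2 * m) ^ 2 : ℕ) : 𝓞 L)} ≤ differentIdeal (𝓞 K) (𝓞 L) := by
    rw [Ideal.span_singleton_le_iff_mem]
    simpa using hmem
  have h2 := Ideal.absNorm_dvd_absNorm_of_le h1
  rw [Ideal.absNorm_span_natCast, RingOfIntegers.rank, ← pow_mul] at h2
  exact Nat.le_of_dvd (by positivity) h2

end Step

theorem step (h : S_DIFF) : S_STEP := by
  intro p _ K _ _ ι n m u hm hs hsq hdv
  classical
  letI := ι.toAlgebra
  choose t ht using hs
  let f : K[X] := ∏ j, (X ^ 2 - C (u j : K))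
  have hf : f.map (algebraMap K ℚ_[p]) = ∏ j, ((X - C (t j)) * (X - C (- t j))) := by
    simp only [f, Polynomial.map_prod]
    refine Finset.prod_congr rfl fun j _ => ?_
    have : algebraMap K ℚ_[p] (u j : K) = t j * t j := ht j
    simp only [Polynomial.map_sub, Polynomial.map_pow, map_X, map_C, this, map_mul, map_neg]
    ring
  have hspl : (f.map (algebraMap K ℚ_[p])).Splits := by
    rw [hf]
    exact Splits.prod fun j _ => (Splits.X_sub_C _).mul (Splits.X_sub_C _)
  have hf0 : f ≠ 0 := by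
    refine Finset.prod_ne_zero_iff.mpr fun j _ => ?_
    exact X_pow_sub_C_ne_zero (by norm_num) _
  have hroot : ∀ x, x ∈ f.rootSet ℚ_[p] ↔ ∃ j, x = t j ∨ x = - t j := by
    intro x
    rw [mem_rootSet, aeval_def, eval₂_eq_eval_map, hf, eval_prod, Finset.prod_eq_zero_iff]
    simp only [hf0, ne_eq, not_false_eq_true, true_and, Finset.mem_univ, eval_mul, eval_sub,
      eval_X, eval_C, mul_eq_zero, sub_eq_zero]
  let L := IntermediateField.adjoin K (f.rootSet ℚ_[p])
  haveI : f.IsSplittingField K L := IntermediateField.adjoin_rootSet_isSplittingField hspl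
  haveI : FiniteDimensional K L := IsSplittingField.finiteDimensional L f
  haveI : Normal K L := Normal.of_isSplittingField f
  haveI : NumberField L := NumberField.of_module_finite K L
  haveI : IsGalois K L := {}
  let tL : Fin n → L := fun j =>
    ⟨t j, IntermediateField.subset_adjoin K _ ((hroot _).mpr ⟨j, Or.inl rfl⟩)⟩
  have htL : ∀ j, tL j * tL j = algebraMap K L (u j) := by
    intro j
    apply Subtype.ext
    exact (ht j).symm
  have hgen : ∀ σ : L ≃ₐ[K] L, (∀ j, σ (tL j) = tL j) → σ = 1 := by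
    intro σ hσ
    have : (σ : L →ₐ[K] L) = AlgHom.id K L := by
      apply IntermediateField.adjoin_algHom_ext
      intro x hx
      obtain ⟨j, rfl | rfl⟩ := (hroot x).mp hx
      · exact hσ j
      · have e : (⟨-t j, IntermediateField.subset_adjoin K _ hx⟩ : L) = - tL j := rfl
        rw [e, map_neg, map_neg]
        exact congrArg _ (hσ j)
    ext x
    exact congrArg Subtype.val (AlgHom.congr_fun this x)
  have hdeg : finrank K L = 2 ^ n := Step.deg (fun j => (u j : K)) tL htL hsq hgen
  refine ⟨L, inferInstance, inferInstance, L.val.toRingHom, ?_, ?_⟩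
  · rw [← hdeg, mul_comm, Module.finrank_mul_finrank]
  · rw [← hdeg]
    exact Step.bound h u tL hm htL hdv hgen

end Pool.Agent.P.MP_657a03_nt
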