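import Pool.Agent.P.MP_657a03_nt.Iface

/-!
Towers of multiquadratic extensions in which a given prime keeps a place of degree one.
-/

set_option autoImplicit false

open NumberField NumberField.Units Module Real Matrix

namespace Pool.Agent.P.MP_657a03_nt

namespace Tower

lemma lift_sq {p : ℕ} [Fact p.Prime] (hp : p ≠ 2) (x : ℤ_[p]) (hx : ‖x‖ = 1)
    (h : IsSquare (PadicInt.toZMod x)) : IsSquare x := by
  obtain ⟨r, hr⟩ := h
  obtain ⟨a, rfl⟩ := ZMod.ringHom_surjective (PadicInt.toZMod : ℤ_[p] →+* ZMod p) r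
  have key : ∀ z : ℤ_[p], PadicInt.toZMod z = 0 ↔ ‖z‖ < 1 := by
    intro z
    rw [← RingHom.mem_ker, PadicInt.ker_toZMod, IsLocalRing.mem_maximalIdeal,
      PadicInt.mem_nonunits]
  have h1 : ‖a ^ 2 - x‖ < 1 := by
    rw [← key, map_sub, map_pow, hr]; ring
  have ha : ‖a‖ = 1 := by
    refine le_antisymm (PadicInt.norm_le_one a) (not_lt.1 fun hlt => ?_)
    have h0 := (key a).2 hlt
    rw [h0, mul_zero, key, hx] at hr
    exact lt_irrefl _ hr
  have h2 : ‖(2 : ℤ_[p])‖ = 1 := by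
    have : ‖((2 : ℕ) : ℤ_[p])‖ = 1 :=
      PadicInt.norm_natCast_eq_one_iff.2 ((Nat.coprime_primes Fact.out Nat.prime_two).2 hp)
    simpa using this
  have hn : ‖(Polynomial.X ^ 2 - Polynomial.C x : Polynomial ℤ_[p]).aeval a‖ <
      ‖(Polynomial.X ^ 2 - Polynomial.C x : Polynomial ℤ_[p]).derivative.aeval a‖ ^ 2 := by
    have e1 : (Polynomial.X ^ 2 - Polynomial.C x : Polynomial ℤ_[p]).aeval a = a ^ 2 - x := by simp
    have e2 : (Polynomial.X ^ 2 - Polynomial.C x : Polynomial ℤ_[p]).derivative.aeval a = 2 * a := by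
      simp; norm_num
    rw [e1, e2, norm_mul, h2, ha]
    simpa using h1
  obtain ⟨z, hz, -⟩ := hensels_lemma hn
  refine ⟨z, ?_⟩
  have e : z ^ 2 - x = 0 := by simpa using hz
  linear_combination -e

lemma sq_mul {p : ℕ} [Fact p.Prime] (hp : p ≠ 2) {x y : ℚ_[p]} (hx : ‖x‖ = 1) (hy : ‖y‖ = 1)
    (h1 : ¬ IsSquare x) (h2 : ¬ IsSquare y) : IsSquare (x * y) := by
  let X : ℤ_[p] := ⟨x, hx.le⟩
  let Y : ℤ_[p] := ⟨y, hy.le⟩
  have up : ∀ Z : ℤ_[p], IsSquare Z → IsSquare (Z : ℚ_[p]) := by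
    rintro Z ⟨r, hr⟩
    exact ⟨r, by rw [hr]; simp⟩
  have hX : ¬ IsSquare (PadicInt.toZMod X) := fun h => h1 (up X (lift_sq hp X hx h))
  have hY : ¬ IsSquare (PadicInt.toZMod Y) := fun h => h2 (up Y (lift_sq hp Y hy h))
  have hX0 : PadicInt.toZMod X ≠ 0 := fun h => hX (h ▸ IsSquare.zero)
  have hY0 : PadicInt.toZMod Y ≠ 0 := fun h => hY (h ▸ IsSquare.zero)
  have h3 : IsSquare (PadicInt.toZMod (X * Y)) := by
    rw [map_mul, ← quadraticChar_one_iff_isSquare (mul_ne_zero hX0 hY0), map_mul,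
      quadraticChar_neg_one_iff_not_isSquare.2 hX, quadraticChar_neg_one_iff_not_isSquare.2 hY]
    norm_num
  have h4 : ‖X * Y‖ = 1 := by
    rw [norm_mul]
    change ‖x‖ * ‖y‖ = 1
    rw [hx, hy, one_mul]
  exact up _ (lift_sq hp _ h4 h3)

lemma sq_cancel {K : Type} [Field K] {a b : K} (hb : b ≠ 0) (m : ℕ)
    (h : IsSquare (a * b ^ (2 * m))) : IsSquare a := by
  obtain ⟨r, hr⟩ := h
  refine ⟨r / b ^ m, ?_⟩
  rw [div_mul_div_comm, ← hr, ← pow_add, ← two_mul, mul_div_cancel_right₀ _ (pow_ne_zero _ hb)]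

lemma indep {K : Type} [Field K] {n : ℕ} (g : Fin (n + 1) → K) (j0 : Fin (n + 1))
    (h0 : g j0 ≠ 0) (hg : ∀ s : Finset (Fin (n + 1)), IsSquare (∏ j ∈ s, g j) → s = ∅)
    (ε : Fin n → ℕ) (s : Finset (Fin n))
    (h : IsSquare (∏ j ∈ s, (g (j0.succAbove j) * g j0 ^ ε j))) : s = ∅ := by
  rw [Finset.prod_mul_distrib, Finset.prod_pow_eq_pow_sum] at h
  have e : ∏ j ∈ s, g (j0.succAbove j) = ∏ j ∈ s.map (Fin.succAboveEmb j0), g j := by
    rw [Finset.prod_map]; rfl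
  rw [e] at h
  rcases Nat.even_or_odd' (∑ j ∈ s, ε j) with ⟨m, hm | hm⟩
  · rw [hm] at h
    exact Finset.map_eq_empty.1 (hg _ (sq_cancel h0 m h))
  · rw [hm, pow_succ', ← mul_assoc] at h
    have hn : j0 ∉ s.map (Fin.succAboveEmb j0) := by simp
    have h2 := sq_cancel h0 m h
    rw [mul_comm, ← Finset.prod_insert hn] at h2
    exact absurd (hg _ h2) (Finset.insert_ne_empty _ _)

lemma norm_le_one (p : ℕ) [Fact p.Prime] (K : Type) [Field K] [NumberField K] (ι : K →+* ℚ_[p])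
    (x : 𝓞 K) : ‖ι (x : K)‖ ≤ 1 := by
  have h1 : IsIntegral ℤ (ι (x : K)) := x.isIntegral_coe.map ι.toIntAlgHom
  have h2 : IsIntegral ℤ_[p] (ι (x : K)) := h1.tower_top
  obtain ⟨y, hy⟩ := IsIntegrallyClosed.isIntegral_iff.1 h2
  rw [← hy]
  exact y.2

lemma norm_unit (p : ℕ) [Fact p.Prime] (K : Type) [Field K] [NumberField K] (ι : K →+* ℚ_[p])
    (u : (𝓞 K)ˣ) : ‖ι ((u : 𝓞 K) : K)‖ = 1 := by
  have h1 := norm_le_one p K ι u
  have h2 := norm_le_one p K ι (u⁻¹ : (𝓞 K)ˣ)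
  have h3 : ‖ι ((u : 𝓞 K) : K)‖ * ‖ι (((u⁻¹ : (𝓞 K)ˣ) : 𝓞 K) : K)‖ = 1 := by
    rw [← norm_mul, ← map_mul]
    have : ((u : 𝓞 K) : K) * (((u⁻¹ : (𝓞 K)ˣ) : 𝓞 K) : K) = 1 := by
      simp
    rw [this, map_one, norm_one]
  refine le_antisymm h1 ?_
  calc (1 : ℝ) = _ := h3.symm
    _ ≤ ‖ι ((u : 𝓞 K) : K)‖ * 1 := mul_le_mul_of_nonneg_left h2 (norm_nonneg _)
    _ = _ := mul_one _

/-- One step of the tower, from a family `G` of divisors of `c`. -/
lemma ext (h1 : S_STEP) (h2 : S_SEL) (p : ℕ) [Fact p.Prime] (hp : p ≠ 2) (K : Type) [Field K]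
    [NumberField K] (ι : K →+* ℚ_[p]) (N n c : ℕ) (hn : n + 1 ≤ N) (hc : c ≠ 0)
    (G : Fin N → 𝓞 K) (hG : ∀ j, ‖ι (G j : K)‖ = 1) (hd : ∀ j, G j ∣ (c : 𝓞 K))
    (hi : ∀ s : Finset (Fin N), IsSquare (∏ j ∈ s, (G j : K)) → s = ∅) :
    ∃ (L : Type) (_ : Field L) (_ : NumberField L) (_ : L →+* ℚ_[p]),
      finrank ℚ L = 2 ^ n * finrank ℚ K ∧
      (discr L).natAbs ≤ (2 * c ^ n) ^ (2 * finrank ℚ L) * (discr K).natAbs ^ (2 ^ n) := by
  have hi' : ∀ s : Finset (Fin (n + 1)),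
      IsSquare (∏ j ∈ s, (G (Fin.castLE hn j) : K)) → s = ∅ := by
    intro s hs
    have e : ∏ j ∈ s, (G (Fin.castLE hn j) : K) = ∏ j ∈ s.map (Fin.castLEEmb hn), (G j : K) := by
      rw [Finset.prod_map]; rfl
    rw [e] at hs
    exact Finset.map_eq_empty.1 (hi _ hs)
  obtain ⟨j0, ε, hε, hsq, hind⟩ :=
    h2 p K ι n (fun j => (G (Fin.castLE hn j) : K)) hp (fun j => hG _) hi'
  let u : Fin n → 𝓞 K := fun j =>
    G (Fin.castLE hn (j0.succAbove j)) * G (Fin.castLE hn j0) ^ ε j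
  have hu : ∀ j, (u j : K) =
      (G (Fin.castLE hn (j0.succAbove j)) : K) * (G (Fin.castLE hn j0) : K) ^ ε j := by
    intro j; simp [u]
  refine h1 p K ι n (c ^ n) u (pow_ne_zero _ hc) (fun j => ?_) (fun s hs => ?_) (fun s => ?_)
  · rw [hu]; exact hsq j
  · refine hind s ?_
    simpa only [hu] using hs
  · have h3 : ∀ j, u j ∣ (c : 𝓞 K) ^ 2 := by
      intro j
      rw [pow_two]
      refine mul_dvd_mul (hd _) ?_
      have := pow_dvd_pow_of_dvd_of_le (hd (Fin.castLE hn j0)) (hε j)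
      rwa [pow_one] at this
    calc ∏ j ∈ s, u j ∣ ∏ j, u j := Finset.prod_dvd_prod_of_subset _ _ _ (Finset.subset_univ _)
      _ ∣ ∏ _j : Fin n, (c : 𝓞 K) ^ 2 := Finset.prod_dvd_prod_of_dvd _ _ fun j _ => h3 j
      _ = ((c ^ n : ℕ) : 𝓞 K) ^ 2 := by
        rw [Finset.prod_const, Finset.card_univ, Fintype.card_fin, Nat.cast_pow, ← pow_mul,
          ← pow_mul, mul_comm]

lemma fund_indep (K : Type) [Field K] [NumberField K] (s : Finset (Fin (rank K)))
    (h : IsSquare (∏ j ∈ s, (((fundSystem K j : (𝓞 K)ˣ) : 𝓞 K) : K))) : s = ∅ := by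
  classical
  obtain ⟨r, hr⟩ := h
  let w : (𝓞 K)ˣ := ∏ j ∈ s, fundSystem K j
  have hw : ((w : 𝓞 K) : K) = r * r := by
    rw [← hr]; simp [w]
  have hint : IsIntegral ℤ r := by
    refine IsIntegral.of_pow (n := 2) (by norm_num) ?_
    rw [pow_two, ← hw]
    exact (w : 𝓞 K).isIntegral_coe
  let z : 𝓞 K := ⟨r, hint⟩
  have hz : z * z = (w : 𝓞 K) := by
    apply RingOfIntegers.ext
    rw [hw]; rfl
  have hu : IsUnit z := isUnit_of_mul_isUnit_left (hz ▸ w.isUnit)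
  obtain ⟨v, hv⟩ := hu
  have hvw : v * v = w := Units.ext (by rw [Units.val_mul, hv, hz])
  obtain ⟨⟨ζ, e⟩, he, -⟩ := exist_unique_eq_mul_prod K v
  have a1 : w = ((ζ * ζ : torsion K) : (𝓞 K)ˣ) * ∏ i, fundSystem K i ^ (e i + e i) := by
    simp only at he
    rw [← hvw, he]
    simp only [_root_.zpow_add, Finset.prod_mul_distrib, Subgroup.coe_mul]
    exact mul_mul_mul_comm _ _ _ _
  have a2 : w = ((1 : torsion K) : (𝓞 K)ˣ) *
      ∏ i, fundSystem K i ^ (if i ∈ s then (1 : ℤ) else 0) := by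
    have e1 : ∀ i, fundSystem K i ^ (if i ∈ s then (1 : ℤ) else 0) =
        if i ∈ s then fundSystem K i else 1 := by
      intro i; split_ifs <;> simp
    simp only [OneMemClass.coe_one, one_mul, e1, Finset.prod_ite_mem, Finset.univ_inter]
    rfl
  have a3 := (exist_unique_eq_mul_prod K w).unique
    (y₁ := (ζ * ζ, fun i => e i + e i)) (y₂ := (1, fun i => if i ∈ s then (1 : ℤ) else 0)) a1 a2
  refine Finset.eq_empty_of_forall_notMem fun j hj => ?_
  have a4 := congrFun (congrArg Prod.snd a3) j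
  simp only [hj, if_true] at a4
  omega

lemma primes_indep (s : Finset (Fin 4)) (h : IsSquare (∏ j ∈ s, (![2, 3, 5, 7] j : ℕ))) :
    s = ∅ := by
  obtain ⟨r, hr⟩ := h
  have h1 : ∏ j ∈ s, (![2, 3, 5, 7] j : ℕ) ∣ 210 := by
    have := Finset.prod_dvd_prod_of_subset s Finset.univ (fun j => (![2, 3, 5, 7] j : ℕ))
      (Finset.subset_univ _)
    simpa [Fin.prod_univ_four] using this
  have h2 : r * r ∣ 210 := hr ▸ h1
  have h3 : r ≤ 14 := by
    have := Nat.le_of_dvd (by norm_num) h2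
    nlinarith
  have h4 : r = 1 := by
    interval_cases r <;> first | rfl | omega
  refine Finset.eq_empty_of_forall_notMem fun j hj => ?_
  have h5 := Finset.dvd_prod_of_mem (fun j => (![2, 3, 5, 7] j : ℕ)) hj
  rw [hr, h4] at h5
  fin_cases j <;> simp at h5

lemma one_le_tower (J : ℕ) : 1 ≤ tower J := by
  cases J with
  | zero => exact le_rfl
  | succ J => unfold tower; rw [Function.iterate_succ_apply']; exact Nat.one_le_two_pow

lemma tower_succ (J : ℕ) : tower (J + 1) = 2 ^ tower J := by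
  unfold tower; rw [Function.iterate_succ_apply']

lemma cast_bound {L : Type} [Field L] [NumberField L] {B : ℕ} (h : (discr L).natAbs ≤ B) :
    |(discr L : ℝ)| ≤ B := by
  rw [← Int.cast_abs, ← Nat.cast_natAbs]
  exact_mod_cast h

lemma main (h1 : S_STEP) (h2 : S_SEL) (p : ℕ) [Fact p.Prime] (hp : 7 < p) (J : ℕ) :
    ∀ d : ℕ, d ≤ tower J + 2 → ∃ (K : Type) (_ : Field K) (_ : NumberField K) (_ : K →+* ℚ_[p]),
      finrank ℚ K = 2 ^ d ∧ (discr K).natAbs ≤ ((2 * 210 ^ 3) ^ 2 * 4 ^ J) ^ finrank ℚ K := by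
  induction J with
  | zero =>
    intro d hd
    have hd3 : d ≤ 3 := hd
    have hle : ∀ j : Fin 4, (![2, 3, 5, 7] j : ℕ) ≤ 7 ∧ 0 < (![2, 3, 5, 7] j : ℕ) ∧
        (![2, 3, 5, 7] j : ℕ) ∣ 210 := by decide
    have hc : ∀ m : ℕ, ((m : 𝓞 ℚ) : ℚ) = m := fun m => map_natCast (algebraMap (𝓞 ℚ) ℚ) m
    obtain ⟨L, i1, i2, ι, hL, hD⟩ := ext h1 h2 p (by omega) ℚ (Rat.castHom ℚ_[p]) 4 d 210
      (by omega) (by norm_num) (fun j => ((![2, 3, 5, 7] j : ℕ) : 𝓞 ℚ)) (fun j => by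
        rw [hc, map_natCast, Padic.norm_natCast_eq_one_iff]
        exact Nat.coprime_of_lt_prime (hle j).2.1.ne' (by have := (hle j).1; omega) Fact.out)
      (fun j => Nat.cast_dvd_cast (hle j).2.2) (fun s hs => by
        refine primes_indep s (Rat.isSquare_natCast_iff.1 ?_)
        simpa only [hc, Nat.cast_prod] using hs)
    refine ⟨L, i1, i2, ι, by simpa using hL, hD.trans ?_⟩
    rw [Rat.numberField_discr, Int.natAbs_one, one_pow, mul_one, pow_zero, mul_one, pow_mul]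
    have : 210 ^ d ≤ 210 ^ 3 := Nat.pow_le_pow_right (by norm_num) hd3
    gcongr
  | succ J ih =>
    intro d hd
    rcases le_or_gt d (tower J + 2) with h | h
    · obtain ⟨K, i1, i2, ι, hK, hD⟩ := ih d h
      refine ⟨K, i1, i2, ι, hK, hD.trans ?_⟩
      have : 4 ^ J ≤ 4 ^ (J + 1) := Nat.pow_le_pow_right (by norm_num) (Nat.le_succ _)
      gcongr
    obtain ⟨K, i1, i2, ι, hK, hD⟩ := ih _ le_rfl
    obtain ⟨n, rfl⟩ : ∃ n, d = n + (tower J + 2) := ⟨d - (tower J + 2), by omega⟩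
    have hr : n + 1 ≤ rank K := by
      have a1 := InfinitePlace.card_add_two_mul_card_eq_rank K
      have a2 := InfinitePlace.card_eq_nrRealPlaces_add_nrComplexPlaces K
      have a3 := one_le_tower J
      have a4 : 1 ≤ 2 ^ tower J := Nat.one_le_two_pow
      rw [hK, pow_add] at a1
      rw [tower_succ] at hd
      unfold Units.rank
      omega
    obtain ⟨L, j1, j2, ι', hL, hE⟩ := ext h1 h2 p (by omega) K ι (rank K) n 1 hr one_ne_zero
      (fun j => (fundSystem K j : (𝓞 K)ˣ)) (fun j => norm_unit p K ι _)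
      (fun j => (fundSystem K j).isUnit.dvd) (fund_indep K)
    refine ⟨L, j1, j2, ι', by rw [hL, hK, ← pow_add], hE.trans ?_⟩
    calc (2 * 1 ^ n) ^ (2 * finrank ℚ L) * (discr K).natAbs ^ 2 ^ n
        ≤ (2 * 1 ^ n) ^ (2 * finrank ℚ L) *
          (((2 * 210 ^ 3) ^ 2 * 4 ^ J) ^ finrank ℚ K) ^ 2 ^ n := by gcongr
      _ = _ := by
        rw [← pow_mul, mul_comm (finrank ℚ K), ← hL, one_pow, pow_mul, ← mul_pow]
        congr 1
        ring

end Tower

theorem sel : S_SEL := by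
  classical
  intro p _ K _ ι n g hp hg hi
  have h0 : ∀ j, g j ≠ 0 := by
    intro j h
    have := hg j
    rw [h, map_zero, norm_zero] at this
    exact zero_ne_one this
  by_cases h : ∀ j, IsSquare (ι (g j))
  · refine ⟨0, fun _ => 0, fun _ => Nat.zero_le _, fun j => ?_, Tower.indep g 0 (h0 0) hi _⟩
    simpa using h _
  · obtain ⟨j0, hj⟩ := not_forall.1 h
    refine ⟨j0, fun j => if IsSquare (ι (g (j0.succAbove j))) then 0 else 1, fun j => ?_,
      fun j => ?_, Tower.indep g j0 (h0 j0) hi _⟩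
    · beta_reduce
      split_ifs <;> omega
    · beta_reduce
      split_ifs with h'
      · simpa using h'
      · rw [pow_one, map_mul]
        exact Tower.sq_mul hp (hg _) (hg _) h' hj

theorem towerT (h1 : S_STEP) (h2 : S_SEL) : S_TOWER := by
  refine ⟨(2 * 210 ^ 3) ^ 2, by norm_num, fun p _ hp J d hd => ?_⟩
  obtain ⟨K, i1, i2, ι, hK, hD⟩ := Tower.main h1 h2 p hp J d (by omega)
  refine ⟨K, i1, i2, ι, hK, (Tower.cast_bound hD).trans (le_of_eq ?_)⟩
  simp only [Nat.cast_pow, Nat.cast_mul, Nat.cast_ofNat]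

end Pool.Agent.P.MP_657a03_nt
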