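import Pool.Agent.P.MP_657a03_nt.Main
import Pool.Agent.P.MP_657a03_nt.Ideals
import Pool.Agent.P.MP_657a03_nt.Liou
import Pool.Agent.P.MP_657a03_nt.Family
import Pool.Agent.P.MP_657a03_nt.Lat
import Pool.Agent.P.MP_657a03_nt.Coord
import Pool.Agent.P.MP_657a03_nt.Schwarz
import Pool.Agent.P.MP_657a03_nt.FieldK
import Pool.Agent.P.MP_657a03_nt.Diff
import Pool.Agent.P.MP_657a03_nt.Step
import Pool.Agent.P.MP_657a03_nt.Tower
import Pool.Agent.P.MP_657a03_nt.Final
import Pool.Agent.P.MP_657a03_nt.CountB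
import Pool.Agent.P.MP_657a03_nt.KronB
import Pool.Agent.P.MP_657a03_nt.MinkB
import Pool.Agent.P.MP_657a03_nt.Num

/-! All pieces put together. -/

set_option autoImplicit false

namespace Pool.Agent.P.MP_657a03_nt

theorem coreAll : S_CORE :=
  core (family minkB ideals dvd)
    (mainT (siegelB countB) (coord lat (kronB countB) (liou dvd)) schwarz (liou dvd) fieldK) num

theorem finalAll : S_FINAL := final coreAll (towerT (step diff) sel)

end Pool.Agent.P.MP_657a03_nt
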