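import Mathlib

/-!
Interface for an upper bound on the exponent of `p` in `a ^ (p - 1) - b ^ (p - 1)`.
Every `S_*` is proved in its own file.
-/

set_option autoImplicit false

open NumberField NumberField.Units Module Real Matrix

namespace Pool.Agent.P.MP_657a03_nt

/-- All complex conjugates of `x` have absolute value at most `X`. -/
def Hs {K : Type} [Field K] (X : ℝ) (x : K) : Prop := ∀ φ : K →+* ℂ, ‖φ x‖ ≤ X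

/-- The value at `x` of the monomial in the functions `F · j` given by the word `f`. -/
def wd {ι : Type} {s : ℕ} (F : ι → Fin s → ℤ) (f : List (Fin s)) (x : ι) : ℤ :=
  (f.map (F x)).prod

/-- The normalised logarithmic embedding. -/
noncomputable def lbar {K : Type} [Field K] [NumberField K] (y : K) (φ : K →+* ℂ) : ℝ :=
  log ‖φ y‖ - log |((Algebra.norm ℚ y : ℚ) : ℝ)| / finrank ℚ K

/-- A family of small integers of `K`, congruent modulo the prime given by `ι`, whose quotients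
are units times powers of `η`. -/
structure Fam {p : ℕ} [Fact p.Prime] {K : Type} [Field K] (ι : K →+* ℚ_[p]) (η : ℚ) (I : ℕ)
    (X : ℝ) (L : Finset (𝓞 K)) : Prop where
  one_le : 1 ≤ X
  ne : ∀ x ∈ L, x ≠ 0
  hs : ∀ x ∈ L, Hs X (x : K)
  rel : ∀ x ∈ L, ∀ x' ∈ L, ∃ (u : (𝓞 K)ˣ) (j : ℤ), |j| ≤ I ∧
    (x : K) = (x' : K) * ((u : 𝓞 K) : K) * ((η : ℚ) : K) ^ j
  unit : ∀ x ∈ L, ‖ι (x : K)‖ = 1
  cong : ∀ x ∈ L, ∀ x' ∈ L, ‖ι (x : K) - ι (x' : K)‖ < 1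

/-- `y` is the `2 ^ i`-th root of `x / x'` that is congruent to one, and `yh` is its image. -/
def Root {p : ℕ} [Fact p.Prime] {K : Type} [Field K] (ι : K →+* ℚ_[p]) (i : ℕ) (x x' : 𝓞 K)
    (y : K) (yh : ℤ_[p]) : Prop :=
  y ^ (2 ^ i) * (x' : K) = (x : K) ∧ (yh : ℚ_[p]) = ι y ∧ ‖yh - 1‖ < 1

/-- The tower of twos. -/
def tower (J : ℕ) : ℕ := (fun x : ℕ => 2 ^ x)^[J] 1

/-! ### Geometry of numbers, uniformly in the field -/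

def S_COUNT : Prop :=
  ∀ (K : Type) [Field K] [NumberField K] (X : ℝ) (F : Finset (𝓞 K)), 0 ≤ X →
    (∀ x ∈ F, Hs X (x : K)) → (F.card : ℝ) ≤ (2 * X + 1) ^ finrank ℚ K

def S_IDEALS : Prop :=
  ∀ (K : Type) [Field K] [NumberField K] (M : ℝ) (F : Finset (Ideal (𝓞 K))),
    (∀ I ∈ F, I ≠ ⊥ ∧ (Ideal.absNorm I : ℝ) ≤ M) → (F.card : ℝ) ≤ M ^ 2 * 4 ^ finrank ℚ K

def S_MINK : Prop :=
  ∀ (K : Type) [Field K] [NumberField K] (m S τ : ℕ), |(discr K : ℝ)| < exp (2 * m) →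
    (rank K + 1) * τ = S + m →
    ∃ B : Finset (𝓞 K), (∀ β ∈ B, β ≠ 0 ∧ Hs (exp τ) (β : K) ∧
        |((Algebra.norm ℤ β : ℤ) : ℝ)| ≤ exp m) ∧
      (S + rank K).choose (rank K) ≤ 2 ^ (m + rank K) * B.card

def S_DVD : Prop :=
  ∀ (p : ℕ) [Fact p.Prime] (K : Type) [Field K] [NumberField K] (ι : K →+* ℚ_[p]) (x : 𝓞 K),
    ‖ι (x : K)‖ ≤ 1 ∧
      ∀ M : ℕ, ‖ι (x : K)‖ ≤ (p : ℝ) ^ (-(M : ℤ)) → (p : ℤ) ^ M ∣ Algebra.norm ℤ x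

def S_LIOU : Prop :=
  ∀ (p : ℕ) [Fact p.Prime] (K K' : Type) [Field K] [NumberField K] [Field K'] [NumberField K']
    [Algebra K K'] (ι' : K' →+* ℚ_[p]) (y : K') (M : ℕ) (G : (K →+* ℂ) → ℝ),
    IsIntegral ℤ y → ‖ι' y‖ ≤ (p : ℝ) ^ (-(M : ℤ)) →
    (∀ φ : K' →+* ℂ, ‖φ y‖ ≤ G (φ.comp (algebraMap K K'))) →
    (∏ φ, G φ) ^ finrank K K' < (p : ℝ) ^ M → y = 0

def S_FAMILY : Prop :=
  ∀ (p : ℕ) [Fact p.Prime] (K : Type) [Field K] [NumberField K] (ι : K →+* ℚ_[p]) (a b : ℤ)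
    (A m S τ I : ℕ), a ≠ 0 → b ≠ 0 → |a| ≠ |b| → |a| ≤ A → |b| ≤ A → A < p →
    (A : ℝ) ^ I ≤ exp τ → |(discr K : ℝ)| < exp (2 * m) → exp m < p →
    (rank K + 1) * τ = S + m →
    ∃ L : Finset (𝓞 K), Fam ι ((a : ℚ) / b) I (exp (2 * τ)) L ∧
      ((S + rank K).choose (rank K) * I : ℝ) ≤
        L.card * (2 ^ (m + rank K) * exp (2 * m) * 4 ^ finrank ℚ K * p)

def S_SIEGEL : Prop :=
  ∀ (K : Type) [Field K] [NumberField K] (ι κ : Type) (L : Finset ι) (E : Finset κ)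
    (a : κ → ι → 𝓞 K) (Z : ℝ) (U C : ℕ), 1 ≤ Z → 0 < U → 0 < L.card →
    (∀ e ∈ E, ∀ l ∈ L, Hs Z (a e l : K)) → (U + 1) * (finrank ℚ K * E.card) ≤ L.card →
    3 * L.card * Z ≤ (C : ℝ) ^ U →
    ∃ c : ι → ℤ, (∃ l ∈ L, c l ≠ 0) ∧ (∀ l, |c l| ≤ C) ∧
      ∀ e ∈ E, ∑ l ∈ L, (c l : 𝓞 K) * a e l = 0

def S_KRON : Prop :=
  ∀ (K : Type) [Field K] [NumberField K] (a b : ℤ) (A e : ℕ) (y : K) (u : (𝓞 K)ˣ) (l : ℤ),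
    a ≠ 0 → b ≠ 0 → |a| ≤ A → |b| ≤ A → e ≠ 0 →
    y ^ e = ((u : 𝓞 K) : K) * (((a : ℚ) / b : ℚ) : K) ^ l →
    (∀ φ, |lbar y φ| < ((7 * A : ℝ) ^ finrank ℚ K)⁻¹) → u ∈ torsion K

/-! ### Coordinates -/

def S_LAT : Prop :=
  ∀ (G : Type) [AddCommGroup G] (r : ℕ) (κ : Type) [Fintype κ] (θ : G →+ (Fin r → ℤ))
    (ℓ : G →+ (κ → ℝ)) (ι : Type) (L : Finset ι) (g : ι → G) (μ R : ℝ), 0 < μ → 0 ≤ R →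
    (∀ y, θ y = 0 → ℓ y = 0) → (∀ y, θ y ≠ 0 → μ ≤ ‖ℓ y‖) → (∀ l ∈ L, ‖ℓ (g l)‖ ≤ R) →
    ∃ (s : ℕ) (γ : Fin s → G) (z : ι → Fin s → ℤ) (Φ V : Matrix (Fin s) (Fin s) ℤ) (Δ : ℤ),
      s ≤ r ∧ Δ ≠ 0 ∧ V * Φ = Δ • (1 : Matrix (Fin s) (Fin s) ℤ) ∧
      (∀ l ∈ L, ∀ j, (|(Φ *ᵥ z l) j| : ℝ) ≤ (2 * r * R / μ + 2) ^ Fintype.card κ) ∧
      (∀ l ∈ L, θ (g l) = ∑ j, z l j • θ (γ j)) ∧
      ∀ (k : ℕ) (y : G), k ≠ 0 → ∀ l ∈ L, ∀ l' ∈ L, θ (k • y) = θ (g l - g l') →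
        ∃ x : Fin s → ℤ, k • x = z l - z l' ∧ θ y = ∑ j, x j • θ (γ j)

/-- The standing hypotheses on the data. -/
structure Data {p : ℕ} [Fact p.Prime] {K : Type} [Field K] [NumberField K] (ι : K →+* ℚ_[p])
    (a b : ℤ) (A N I lev J : ℕ) (X : ℝ) (L : Finset (𝓞 K)) : Prop where
  deg : finrank ℚ K + 1 < p
  a0 : a ≠ 0
  b0 : b ≠ 0
  ab : |a| ≠ |b|
  aA : |a| ≤ A
  bA : |b| ≤ A
  Ap : A < p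
  dvd : (p : ℤ) ^ N ∣ a ^ (p - 1) - b ^ (p - 1)
  fam : Fam ι ((a : ℚ) / b) I X L
  big : (2 * X) ^ finrank ℚ K < (p : ℝ) ^ N
  hJ : (8 * (finrank ℚ K : ℝ) ^ 2 * log X * (7 * A) ^ finrank ℚ K + 2) ^ finrank ℚ K ≤ J
  hlev : 2 * J < 2 ^ lev

def S_COORD : Prop :=
  ∀ (p : ℕ) [Fact p.Prime] (K : Type) [Field K] [NumberField K] (ι : K →+* ℚ_[p]) (a b : ℤ)
    (A N I lev J : ℕ) (X : ℝ) (L : Finset (𝓞 K)), Data ι a b A N I lev J X L →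
    ∃ (s : ℕ) (w : Fin s → (ZMod (p ^ N))ˣ) (F : 𝓞 K → Fin s → ℤ), s ≤ rank K ∧
      (∀ j, (p : ZMod (p ^ N)) ∣ (w j : ZMod (p ^ N)) - 1) ∧ (∀ x ∈ L, ∀ j, |F x j| ≤ J) ∧
      (∀ i ≤ lev, ∀ x' ∈ L, ∃ (α β : Matrix (Fin s) (Fin s) ℤ) (α0 β0 : Fin s → ℤ) (Δ : ℤ),
        Δ ≠ 0 ∧ ∀ x ∈ L, ∀ (y : K) (yh : ℤ_[p]), Root ι i x x' y yh → ∃ z : Fin s → ℤ,
          PadicInt.toZModPow N yh = ((∏ j, w j ^ z j : (ZMod (p ^ N))ˣ) : ZMod (p ^ N)) ∧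
          F x = α0 + α *ᵥ z ∧ Δ • z = β0 + β *ᵥ F x) ∧
      ∀ x ∈ L, ∀ x' ∈ L, ∀ (y : K) (yh : ℤ_[p]), Root ι lev x x' y yh → x = x'

/-! ### The analytic and the algebraic steps -/

def S_SCHWARZ : Prop :=
  ∀ (p N : ℕ) [Fact p.Prime] (ι : Type) (L : Finset ι) (s : ℕ) (z : ι → Fin s → ℤ)
    (w : Fin s → (ZMod (p ^ N))ˣ) (c q : ι → ZMod (p ^ N)) (U Δ T : ℕ),
    p ≠ 2 → N ≤ p → U ≤ p → (∀ j, (p : ZMod (p ^ N)) ∣ (w j : ZMod (p ^ N)) - 1) →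
    (∀ l ∈ L, (p : ZMod (p ^ N)) ∣ q l - 1) →
    (∀ l ∈ L, q l ^ 2 = ((∏ j, w j ^ z l j : (ZMod (p ^ N))ˣ) : ZMod (p ^ N))) →
    (∀ v < U, ∀ f : List (Fin s), f.length ≤ T + Δ →
      ∑ l ∈ L, c l * (wd z f l : ℤ) * q l ^ (2 * (2 * v + 1)) = 0) →
    ∀ (u : ℕ) (f : List (Fin s)), f.length ≤ T →
      (p : ZMod (p ^ N)) ^ (U * Δ) ∣ ∑ l ∈ L, c l * (wd z f l : ℤ) * q l ^ u

def S_FIELD : Prop :=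
  ∀ (p : ℕ) [Fact p.Prime] (K : Type) [Field K] [NumberField K] (ι : K →+* ℚ_[p]) (η : ℚ) (e : ℕ),
    η ≠ 0 → e ≠ 0 →
    ∃ (K' : Type) (_ : Field K') (_ : NumberField K') (_ : Algebra K K') (ι' : K' →+* ℚ_[p]),
      finrank K K' ≤ 2 ^ (rank K + 2) ∧ (∀ y, ι' (algebraMap K K' y) = ι y) ∧
      ∀ (y : K) (u : (𝓞 K)ˣ) (l : ℤ) (q : ℚ_[p]), y ^ e = ((u : 𝓞 K) : K) * (η : K) ^ l →
        q ^ 2 = ι y → ∃ q' : K', ι' q' = q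

def S_MAIN : Prop :=
  ∀ (p : ℕ) [Fact p.Prime] (K : Type) [Field K] [NumberField K] (ι : K →+* ℚ_[p]) (a b : ℤ)
    (A N I lev J U B1 B2 C T : ℕ) (X : ℝ) (L : Finset (𝓞 K)), Data ι a b A N I lev J X L →
    (A : ℝ) ^ I ≤ X → (rank K + 3) * (2 * B1 + lev * B2) ≤ T → 0 < U →
    (U + 1) * (finrank ℚ K * (U * (T + rank K).choose (rank K))) ≤ L.card →
    3 * L.card * ((J : ℝ) ^ T * X ^ (2 * U)) ≤ (C : ℝ) ^ U →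
    12 * finrank ℚ K * log X ≤ B1 * log p →
    finrank ℚ K * log (L.card * C * (J : ℝ) ^ T) / U + 8 * finrank ℚ K * log A + log p <
      B2 * log p →
    2 ^ (rank K + 2) * U * (B1 + B2) ≤ N → N ≤ p → False

def S_NUM : Prop :=
  ∃ C : ℝ, 1 ≤ C ∧ ∀ A : ℕ, 1 ≤ A → ∃ P0 : ℕ, ∀ p : ℕ, P0 < p → ∀ (r D N : ℕ) (ρ : ℝ),
    r + 1 ≤ D → D ≤ 2 * (r + 1) → 1 ≤ ρ → C * ρ ^ 3 * (r + 3) ≤ log p →
    p * log p ^ 40 * exp (-r) < N →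
    ∃ m S τ I U B1 B2 lev J Cc T Lc : ℕ,
      ρ ^ D < exp (2 * m) ∧ exp m < p ∧ (r + 1) * τ = S + m ∧ (A : ℝ) ^ I ≤ exp τ ∧
      (Lc : ℝ) * (2 ^ (m + r) * exp (2 * m) * 4 ^ D * p) ≤ (S + r).choose r * I ∧
      D + 1 < p ∧ 2 * A < p ∧ (2 * exp (2 * τ)) ^ D < (p : ℝ) ^ N ∧
      (8 * (D : ℝ) ^ 2 * (2 * τ) * (7 * A) ^ D + 2) ^ D ≤ J ∧ 2 * J < 2 ^ lev ∧
      (r + 3) * (2 * B1 + lev * B2) ≤ T ∧ 0 < U ∧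
      (U + 1) * (D * (U * (T + r).choose r)) ≤ Lc ∧
      3 * Lc * ((J : ℝ) ^ T * exp (2 * τ) ^ (2 * U)) ≤ (Cc : ℝ) ^ U ∧
      12 * D * (2 * τ : ℝ) ≤ B1 * log p ∧
      D * log (Lc * Cc * (J : ℝ) ^ T) / U + 8 * D * log A + log p < B2 * log p ∧
      2 ^ (r + 2) * U * (B1 + B2) ≤ N

def S_CORE : Prop :=
  ∃ C : ℝ, 1 ≤ C ∧ ∀ A : ℕ, ∃ P0 : ℕ, ∀ p : ℕ, P0 < p → ∀ [Fact p.Prime] (K : Type) [Field K]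
    [NumberField K] (_ : K →+* ℚ_[p]) (ρ : ℝ) (a b : ℤ) (N : ℕ), 1 ≤ ρ →
    |(discr K : ℝ)| ≤ ρ ^ finrank ℚ K → C * ρ ^ 3 * (rank K + 3) ≤ log p →
    a ≠ 0 → b ≠ 0 → |a| ≠ |b| → |a| ≤ A → |b| ≤ A → (p : ℤ) ^ N ∣ a ^ (p - 1) - b ^ (p - 1) →
    (N : ℝ) ≤ p * log p ^ 40 * exp (-(rank K : ℝ))

/-! ### Towers of fields with slowly growing root discriminant -/

def S_DIFF : Prop :=
  ∀ (K L : Type) [Field K] [NumberField K] [Field L] [NumberField L] [Algebra K L] [IsGalois K L]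
    (n m : ℕ) (q : Fin n → 𝓞 L), m ≠ 0 →
    (∀ j, ((q j : 𝓞 L) : L) ^ 2 ∈ (algebraMap K L).range) →
    (∀ σ : L ≃ₐ[K] L, (∀ j, σ (q j : L) = (q j : L)) → σ = 1) →
    (∀ s : Finset (Fin n), ∏ j ∈ s, q j ∣ (m : 𝓞 L)) →
    ((2 * m) ^ 2 : 𝓞 L) ∈ differentIdeal (𝓞 K) (𝓞 L)

def S_STEP : Prop :=
  ∀ (p : ℕ) [Fact p.Prime] (K : Type) [Field K] [NumberField K] (ι : K →+* ℚ_[p]) (n m : ℕ)
    (u : Fin n → 𝓞 K), m ≠ 0 → (∀ j, IsSquare (ι (u j : K))) →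
    (∀ s : Finset (Fin n), IsSquare (∏ j ∈ s, (u j : K)) → s = ∅) →
    (∀ s : Finset (Fin n), ∏ j ∈ s, u j ∣ (m : 𝓞 K) ^ 2) →
    ∃ (L : Type) (_ : Field L) (_ : NumberField L) (_ : L →+* ℚ_[p]),
      finrank ℚ L = 2 ^ n * finrank ℚ K ∧
      (discr L).natAbs ≤ (2 * m) ^ (2 * finrank ℚ L) * (discr K).natAbs ^ (2 ^ n)

def S_SEL : Prop :=
  ∀ (p : ℕ) [Fact p.Prime] (K : Type) [Field K] (ι : K →+* ℚ_[p]) (n : ℕ) (g : Fin (n + 1) → K),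
    p ≠ 2 → (∀ j, ‖ι (g j)‖ = 1) → (∀ s : Finset (Fin (n + 1)), IsSquare (∏ j ∈ s, g j) → s = ∅) →
    ∃ (j0 : Fin (n + 1)) (ε : Fin n → ℕ), (∀ j, ε j ≤ 1) ∧
      (∀ j, IsSquare (ι (g (j0.succAbove j) * g j0 ^ ε j))) ∧
      ∀ s : Finset (Fin n), IsSquare (∏ j ∈ s, (g (j0.succAbove j) * g j0 ^ ε j)) → s = ∅

def S_TOWER : Prop :=
  ∃ ρ0 : ℝ, 1 ≤ ρ0 ∧ ∀ (p : ℕ) [Fact p.Prime], 7 < p → ∀ J d : ℕ, d ≤ tower J →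
    ∃ (K : Type) (_ : Field K) (_ : NumberField K) (_ : K →+* ℚ_[p]),
      finrank ℚ K = 2 ^ d ∧ |(discr K : ℝ)| ≤ (ρ0 * 4 ^ J) ^ finrank ℚ K

/-! ### Conclusion -/

def S_FINAL : Prop :=
  ∃ c : ℝ, 0 < c ∧ c < 1 ∧ ∀ a b : ℤ, a ≠ 0 → b ≠ 0 → |a| ≠ |b| → ∃ P0 : ℕ, ∀ p : ℕ, P0 < p →
    p.Prime → ∀ J : ℕ, p ≤ tower J → ∀ N : ℕ, (p : ℤ) ^ N ∣ a ^ (p - 1) - b ^ (p - 1) →
      (N : ℝ) ≤ (p : ℝ) ^ (1 - c ^ J)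

def S_REG : Prop :=
  ∀ (p : ℕ) [Fact p.Prime] (x : ℚ_[p]), p ≠ 2 → ‖x‖ < 1 →
    ‖∑' k : ℕ, (-1 : ℚ_[p]) ^ k * x ^ (k + 1) / ((k : ℚ_[p]) + 1)‖ = ‖x‖

end Pool.Agent.P.MP_657a03_nt
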