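import Pool.Agent.P.MP_657a03_nt.Iface

/-! From the exponent bound to the regulator. -/

set_option autoImplicit false

namespace Pool.Agent.P.MP_657a03_nt

theorem glue (h1 : S_FINAL) (h2 : S_REG) :
    ∃ c : ℝ, 0 < c ∧ c < 1 ∧ ∀ η : ℚ, η ≠ 0 → η ≠ 1 → η ≠ -1 → ∃ P₀ : ℕ, ∀ p : ℕ, P₀ < p →
      ∀ [Fact p.Prime], ∀ J : ℕ, p ≤ (fun x : ℕ => 2 ^ x)^[J] 1 →
        (p : ℝ) ^ (1 - (p : ℝ) ^ (1 - c ^ J)) ≤
          ‖(p : ℚ_[p])⁻¹ * ((((p - 1 : ℕ) : ℚ_[p]))⁻¹ *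
            ∑' k : ℕ, (-1 : ℚ_[p]) ^ k * ((η : ℚ_[p]) ^ (p - 1) - 1) ^ (k + 1) /
              ((k : ℚ_[p]) + 1))‖ := by
  obtain ⟨c, hc0, hc1, h⟩ := h1
  refine ⟨c, hc0, hc1, fun η h0 hη1 hη2 => ?_⟩
  have ha : η.num ≠ 0 := Rat.num_ne_zero.mpr h0
  have hb : (η.den : ℤ) ≠ 0 := by exact_mod_cast η.den_nz
  have hab : |η.num| ≠ |(η.den : ℤ)| := by
    intro h
    have hb' : (η.den : ℚ) ≠ 0 := by exact_mod_cast η.den_nz
    rcases abs_eq_abs.mp h with h | h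
    · apply hη1
      rw [← Rat.num_div_den η, h]
      push_cast
      exact div_self hb'
    · apply hη2
      rw [← Rat.num_div_den η, h]
      push_cast
      rw [neg_div, div_self hb']
  obtain ⟨P0, hP⟩ := h η.num η.den ha hb hab
  refine ⟨max P0 (max 2 (max η.num.natAbs η.den)), fun p hp _ J hJ => ?_⟩
  have hp' : p.Prime := Fact.out
  simp only [max_lt_iff] at hp
  obtain ⟨hp0, hp2, hpa, hpb⟩ := hp
  have hp1 : (1 : ℝ) < p := by exact_mod_cast hp'.one_lt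
  have unit : ∀ z : ℤ, z ≠ 0 → z.natAbs < p → ‖(z : ℚ_[p])‖ = 1 := by
    intro z hz hzp
    refine le_antisymm (Padic.norm_int_le_one z) (not_lt.mp fun h => ?_)
    rw [Padic.norm_intCast_lt_one_iff] at h
    have := Nat.le_of_dvd (Int.natAbs_pos.mpr hz) (Int.natCast_dvd.mp h)
    omega
  set z : ℤ := η.num ^ (p - 1) - (η.den : ℤ) ^ (p - 1) with hz
  have hz0 : z ≠ 0 := by
    intro h
    apply hab
    have h1 : |η.num| ^ (p - 1) = |(η.den : ℤ)| ^ (p - 1) := by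
      rw [← abs_pow, ← abs_pow, sub_eq_zero.mp h]
    exact (pow_left_inj₀ (abs_nonneg _) (abs_nonneg _) (by omega)).mp h1
  have hd := unit η.den hb (by simpa using hpb)
  have hd0 : ((η.den : ℤ) : ℚ_[p]) ≠ 0 := by exact_mod_cast hb
  have hx : ‖(η : ℚ_[p]) ^ (p - 1) - 1‖ = ‖(z : ℚ_[p])‖ := by
    have : (η : ℚ_[p]) ^ (p - 1) - 1 = (z : ℚ_[p]) / ((η.den : ℤ) : ℚ_[p]) ^ (p - 1) := by
      rw [Rat.cast_def, hz]
      push_cast at hd0 ⊢
      rw [div_pow, div_sub_one (pow_ne_zero _ hd0)]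
    rw [this, norm_div, norm_pow, hd, one_pow, div_one]
  have hdv : (p : ℤ) ∣ z := by
    have co : ∀ t : ℤ, t ≠ 0 → t.natAbs < p → t ^ (p - 1) ≡ 1 [ZMOD p] := by
      intro t ht htp
      refine Int.ModEq.pow_card_sub_one_eq_one hp' ?_
      rw [Int.isCoprime_iff_gcd_eq_one, Int.gcd_comm]
      exact (Nat.Prime.coprime_iff_not_dvd hp').mpr fun h =>
        absurd (Nat.le_of_dvd (Int.natAbs_pos.mpr ht) h) (by omega)
    exact ((co _ hb (by simpa using hpb)).trans (co _ ha hpa).symm).dvd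
  have hlt : ‖(η : ℚ_[p]) ^ (p - 1) - 1‖ < 1 := by
    rw [hx, Padic.norm_intCast_lt_one_iff]
    exact hdv
  have hpm : ‖((p - 1 : ℕ) : ℚ_[p])‖ = 1 := by
    have := unit ((p - 1 : ℕ) : ℤ) (by omega) (by simp; omega)
    rwa [Int.cast_natCast] at this
  rw [norm_mul, norm_mul, h2 p _ (by omega) hlt, norm_inv, norm_inv, hpm, Padic.norm_p, inv_inv,
    inv_one, one_mul, hx]
  have hN := hP p hp0 hp' J hJ (padicValInt p z) (padicValInt_dvd z)
  have hv : ‖(z : ℚ_[p])‖ = (p : ℝ) ^ (-(padicValInt p z : ℝ)) := by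
    have h1 : ((z : ℚ) : ℚ_[p]) = (z : ℚ_[p]) := Rat.cast_intCast z
    rw [← h1, Padic.eq_padicNorm, padicNorm.eq_zpow_of_nonzero (by exact_mod_cast hz0),
      padicValRat.of_int]
    push_cast
    rw [← Real.rpow_intCast]
    push_cast
    rfl
  rw [hv, sub_eq_add_neg, Real.rpow_add (by linarith), Real.rpow_one]
  gcongr
  exact hp1.le

end Pool.Agent.P.MP_657a03_nt
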