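import Pool.Agent.P.MP_657a03_nt.Iface

/-! A quantitative form of Kronecker's theorem. -/

set_option autoImplicit false

open NumberField NumberField.Units Module Real

namespace Pool.Agent.P.MP_657a03_nt

namespace Kron

variable {K : Type} [Field K] [NumberField K]

lemma norm_rat (q : ℚ) : Algebra.norm ℚ (q : K) = q ^ finrank ℚ K := by
  have := Algebra.norm_algebraMap (R := ℚ) (S := K) q
  simpa using this

lemma abs_norm (u : (𝓞 K)ˣ) (k : ℕ) (q : ℚ) :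
    |Algebra.norm ℚ (((u : 𝓞 K) : K) ^ k * (q : K))| = |q| ^ finrank ℚ K := by
  have h : |Algebra.norm ℚ ((u : 𝓞 K) : K)| = 1 := NumberField.Units.norm K u
  rw [map_mul, map_pow, norm_rat, abs_mul, abs_pow, abs_pow, h, one_pow, one_mul]

lemma phi_ne (u : (𝓞 K)ˣ) (φ : K →+* ℂ) : 0 < ‖φ ((u : 𝓞 K) : K)‖ := by
  rw [norm_pos_iff, map_ne_zero]
  exact_mod_cast u.ne_zero

lemma phi_rat (φ : K →+* ℂ) (q : ℚ) : ‖φ (q : K)‖ = |(q : ℝ)| := by
  rw [map_ratCast, Complex.norm_ratCast]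

lemma log_u {y : K} {e : ℕ} {u : (𝓞 K)ˣ} {q : ℚ} (hq : q ≠ 0)
    (h : y ^ e = ((u : 𝓞 K) : K) * (q : K)) (φ : K →+* ℂ) :
    log ‖φ ((u : 𝓞 K) : K)‖ = e * lbar y φ := by
  have hD : (0 : ℝ) < finrank ℚ K := by exact_mod_cast finrank_pos
  have hq' : (0 : ℝ) < |(q : ℝ)| := by positivity
  have h1 : e * log ‖φ y‖ = log ‖φ ((u : 𝓞 K) : K)‖ + log |(q : ℝ)| := by
    rw [← log_pow, ← norm_pow, ← map_pow, h, map_mul, norm_mul, phi_rat,
      log_mul (phi_ne u φ).ne' hq'.ne']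
  have h2 : |Algebra.norm ℚ y| ^ e = |q| ^ finrank ℚ K := by
    rw [← abs_pow, ← map_pow, h, ← abs_norm u 1 q, pow_one]
  have h3 : |((Algebra.norm ℚ y : ℚ) : ℝ)| ^ e = |(q : ℝ)| ^ finrank ℚ K := by
    exact_mod_cast h2
  have h4 : e * log |((Algebra.norm ℚ y : ℚ) : ℝ)| = finrank ℚ K * log |(q : ℝ)| := by
    rw [← log_pow, ← log_pow, h3]
  unfold lbar
  rw [mul_sub, ← mul_div_assoc, h4, mul_div_cancel_left₀ _ hD.ne', h1]
  ring

lemma tors {u : (𝓞 K)ˣ} {k k' : ℕ} {q q' : ℚ} (hq : q ≠ 0) (hk : k ≠ k')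
    (h : ((u : 𝓞 K) : K) ^ k * (q : K) = ((u : 𝓞 K) : K) ^ k' * (q' : K)) : u ∈ torsion K := by
  have h1 : |q| ^ finrank ℚ K = |q'| ^ finrank ℚ K := by
    rw [← abs_norm u k q, ← abs_norm u k' q', h]
  have h2 : |q| = |q'| :=
    (pow_left_inj₀ (abs_nonneg _) (abs_nonneg _) finrank_pos.ne').1 h1
  have h3 : |(q : ℝ)| = |(q' : ℝ)| := by exact_mod_cast h2
  have hq' : (0 : ℝ) < |(q : ℝ)| := by positivity
  rw [mem_torsion]
  intro w
  have h4 := congrArg (fun z => ‖w.embedding z‖) h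
  simp only [map_mul, map_pow, norm_mul, norm_pow, phi_rat, ← h3] at h4
  have h5 := mul_right_cancel₀ hq'.ne' h4
  rw [← InfinitePlace.norm_embedding_eq]
  by_contra hne
  exact hk (pow_right_injective₀ (phi_ne u w.embedding) hne h5)

lemma exists_int {a b : ℤ} {e : ℕ} {y : K} {u : (𝓞 K)ˣ} {l : ℤ} (ha : a ≠ 0) (hb : b ≠ 0)
    (he : e ≠ 0) (h : y ^ e = ((u : 𝓞 K) : K) * (((a : ℚ) / b : ℚ) : K) ^ l) (k : ℕ) :
    ∃ (x : 𝓞 K) (r s : ℕ), r + s = e ∧
      (x : K) ^ e = ((u : 𝓞 K) : K) ^ k * (((a ^ r * b ^ s : ℤ) : ℚ) : K) := by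
  have he' : (e : ℤ) ≠ 0 := by exact_mod_cast he
  obtain ⟨r, hr⟩ := Int.eq_ofNat_of_zero_le (Int.emod_nonneg (k * l) he')
  have hlt : (r : ℤ) < e := hr ▸ Int.emod_lt_of_pos _ (by positivity)
  obtain ⟨s, hs⟩ : ∃ s, r + s = e := ⟨e - r, by omega⟩
  set m : ℤ := k * l / e with hm
  have hkl : (k : ℤ) * l = e * m + r := by rw [← hr, hm, Int.mul_ediv_add_emod]
  set η : K := (((a : ℚ) / b : ℚ) : K) with hη
  have ha' : (a : K) ≠ 0 := by exact_mod_cast ha
  have hb' : (b : K) ≠ 0 := by exact_mod_cast hb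
  have hη' : η = (a : K) / b := by rw [hη]; push_cast; rfl
  have hη0 : η ≠ 0 := by rw [hη']; exact div_ne_zero ha' hb'
  have key : ((b : K) * y ^ k * η ^ (-m)) ^ e =
      ((u : 𝓞 K) : K) ^ k * (((a ^ r * b ^ s : ℤ) : ℚ) : K) := by
    have e1 : (η ^ l) ^ k * (η ^ (-m)) ^ e = η ^ r := by
      rw [← zpow_natCast, ← zpow_natCast, ← zpow_natCast, ← zpow_mul, ← zpow_mul,
        ← zpow_add₀ hη0]
      congr 1
      linear_combination hkl
    have e2 : (b : K) ^ e * η ^ r = (a : K) ^ r * (b : K) ^ s := by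
      rw [← hs, hη', div_pow, pow_add]
      field_simp
    rw [mul_pow, mul_pow, ← pow_mul, mul_comm k e, pow_mul, h, mul_pow]
    push_cast
    rw [← e2, ← e1]
    ring
  have hint : IsIntegral ℤ ((b : K) * y ^ k * η ^ (-m)) := by
    refine IsIntegral.of_pow (Nat.pos_of_ne_zero he) ?_
    rw [key]
    refine ((u : 𝓞 K).isIntegral_coe.pow k).mul ?_
    have : IsIntegral ℤ (algebraMap ℤ K (a ^ r * b ^ s)) := isIntegral_algebraMap
    simpa using this
  exact ⟨⟨_, hint⟩, r, s, hs, key⟩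

end Kron

open Kron in
theorem kron (h : S_COUNT) : S_KRON := by
  intro K _ _ a b A e y u l ha hb haA hbA he hy hl
  classical
  choose x r s hrs hx using exists_int ha hb he hy
  have hA : (1 : ℝ) ≤ A := by
    have : (1 : ℤ) ≤ A := le_trans (Int.one_le_abs ha) haA
    exact_mod_cast this
  have hq : ((a : ℚ) / b) ^ l ≠ 0 :=
    zpow_ne_zero _ (div_ne_zero (by exact_mod_cast ha) (by exact_mod_cast hb))
  have hy' : y ^ e = ((u : 𝓞 K) : K) * ((((a : ℚ) / b) ^ l : ℚ) : K) := by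
    rw [hy, Rat.cast_zpow]
  set M : ℕ := (7 * A) ^ finrank ℚ K with hM
  have hM' : (M : ℝ) = (7 * A : ℝ) ^ finrank ℚ K := by rw [hM]; push_cast; rfl
  have hM0 : (0 : ℝ) < M := by rw [hM']; positivity
  have hc := h K (exp 1 * A) ((Finset.range (M + 1)).image x) (by positivity) (by
    intro z hz φ
    obtain ⟨k, hk, rfl⟩ := Finset.mem_image.1 hz
    have hk' : (k : ℝ) ≤ M := by exact_mod_cast Nat.lt_succ_iff.1 (Finset.mem_range.1 hk)
    refine le_of_pow_le_pow_left₀ he (by positivity) ?_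
    rw [← norm_pow, ← map_pow, hx, map_mul, map_pow, norm_mul, norm_pow, phi_rat, mul_pow]
    refine mul_le_mul ?_ ?_ (abs_nonneg _) (by positivity)
    · rw [← exp_log (phi_ne u φ), ← exp_nat_mul, ← exp_nat_mul, log_u hq hy' φ, exp_le_exp]
      have h1 : lbar y φ ≤ (M : ℝ)⁻¹ := by
        rw [hM']; exact (le_abs_self _).trans (hl φ).le
      have h2 : (k : ℝ) * lbar y φ ≤ 1 := by
        calc (k : ℝ) * lbar y φ ≤ k * (M : ℝ)⁻¹ := by gcongr
          _ ≤ M * (M : ℝ)⁻¹ := by gcongr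
          _ = 1 := mul_inv_cancel₀ hM0.ne'
      calc (k : ℝ) * (e * lbar y φ) = e * (k * lbar y φ) := by ring
        _ ≤ e * 1 := by gcongr
    · have a1 : |(a : ℝ)| ≤ A := by exact_mod_cast haA
      have b1 : |(b : ℝ)| ≤ A := by exact_mod_cast hbA
      push_cast
      rw [abs_mul, abs_pow, abs_pow, ← hrs k, pow_add]
      gcongr)
  have hc' : ((Finset.range (M + 1)).image x).card ≤ M := by
    have h1 : (2 * (exp 1 * A) + 1 : ℝ) ≤ 7 * A := by
      nlinarith [exp_one_lt_d9]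
    have h2 : (((Finset.range (M + 1)).image x).card : ℝ) ≤ M := by
      rw [hM']
      exact hc.trans (pow_le_pow_left₀ (by positivity) h1 _)
    exact_mod_cast h2
  obtain ⟨k, -, k', -, hne, hkk⟩ := Finset.exists_ne_map_eq_of_card_lt_of_maps_to
    (s := Finset.range (M + 1)) (t := (Finset.range (M + 1)).image x) (f := x)
    (by rw [Finset.card_range]; omega) fun k hk => Finset.mem_image_of_mem x hk
  refine tors (q := ((a ^ r k * b ^ s k : ℤ) : ℚ)) (q' := ((a ^ r k' * b ^ s k' : ℤ) : ℚ))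
    (by exact_mod_cast mul_ne_zero (pow_ne_zero _ ha) (pow_ne_zero _ hb)) hne ?_
  rw [← hx, ← hx, hkk]

end Pool.Agent.P.MP_657a03_nt
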