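import Pool.Agent.P.MP_657a03_nt.MainA

/-! The analytic step and the Liouville step in the form used by the main induction. -/

set_option autoImplicit false

open NumberField NumberField.Units Module Real Matrix Finset

namespace Pool.Agent.P.MP_657a03_nt.MainB

open MainA

/-- Vanishing at the first `U` odd points to order `T`. -/
def Van {I K : Type} [Field K] {s : ℕ} (L : Finset I) (c : I → ℤ) (F : I → Fin s → ℤ) (Y : I → K)
    (U T : ℕ) : Prop :=
  ∀ v < U, ∀ f : List (Fin s), f.length ≤ T →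
    ∑ x ∈ L, ((c x : K) * Y x ^ (2 * v + 1)) * (wd F f x : ℤ) = 0

theorem Van.mono {I K : Type} [Field K] {s : ℕ} {L : Finset I} {c : I → ℤ} {F : I → Fin s → ℤ}
    {Y : I → K} {U T T' : ℕ} (h : Van L c F Y U T) (hT : T' ≤ T) : Van L c F Y U T' :=
  fun v hv f hf => h v hv f (hf.trans hT)

theorem sa (hS : S_SCHWARZ) {p : ℕ} [Fact p.Prime] {I K : Type} [Field K] [CharZero K]
    (ι : K →+* ℚ_[p]) {N s : ℕ} (hp : p ≠ 2) (hN : N ≤ p) (w : Fin s → (ZMod (p ^ N))ˣ)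
    (hw : ∀ j, (p : ZMod (p ^ N)) ∣ (w j : ZMod (p ^ N)) - 1) (F : I → Fin s → ℤ) (L : Finset I)
    (α β : Matrix (Fin s) (Fin s) ℤ) (α0 β0 : Fin s → ℤ) (Δ0 : ℤ) (hΔ0 : Δ0 ≠ 0) (Y : I → K)
    (Yh qh : I → ℤ_[p]) (hY : ∀ x ∈ L, (Yh x : ℚ_[p]) = ι (Y x))
    (hq : ∀ x ∈ L, qh x ^ 2 = Yh x ∧ ‖qh x - 1‖ < 1)
    (hz : ∀ x ∈ L, ∃ z : Fin s → ℤ,
      PadicInt.toZModPow N (Yh x) = ((∏ j, w j ^ z j : (ZMod (p ^ N))ˣ) : ZMod (p ^ N)) ∧
      F x = α0 + α *ᵥ z ∧ Δ0 • z = β0 + β *ᵥ F x)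
    (c : I → ℤ) (U Δ T : ℕ) (hU : U ≤ p) (hM : U * Δ ≤ N) (hV : Van L c F Y U (T + Δ)) (u : ℕ)
    (f : List (Fin s)) (hf : f.length ≤ T) :
    ‖∑ x ∈ L, ((c x * wd F f x : ℤ) : ℚ_[p]) * (qh x : ℚ_[p]) ^ u‖ ≤
      (p : ℝ) ^ (-((U * Δ : ℕ) : ℤ)) := by
  classical
  choose! z hz1 hz2 hz3 using hz
  set red := PadicInt.toZModPow (p := p) N with hred
  have h1 : ∀ v < U, ∀ g : List (Fin s), g.length ≤ T + Δ →
      ∑ x ∈ L, (c x : ZMod (p ^ N)) * (wd z g x : ℤ) * red (qh x) ^ (2 * (2 * v + 1)) = 0 := by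
    intro v hv g hg
    have a1 := trans (⊥ : Ideal K) L F z Δ0 β0 β hz3 g (T + Δ)
      (fun x => (c x : K) * Y x ^ (2 * v + 1))
      (fun f hf => by rw [Ideal.mem_bot]; exact hV v hv f hf) hg
    rw [Ideal.mem_bot, mul_eq_zero] at a1
    have a2 := a1.resolve_left (pow_ne_zero _ (by exact_mod_cast hΔ0))
    have a3 : ∑ x ∈ L, (c x : ℤ_[p]) * (wd z g x : ℤ) * qh x ^ (2 * (2 * v + 1)) = 0 := by
      have := congrArg ι a2
      rw [map_sum, map_zero] at this
      rw [← PadicInt.coe_eq_zero, PadicInt.coe_sum, ← this]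
      refine sum_congr rfl fun x hx => ?_
      rw [pow_mul, (hq x hx).1]
      simp only [map_mul, map_intCast, map_pow, PadicInt.coe_mul, PadicInt.coe_pow,
        PadicInt.coe_intCast, hY x hx]
      ring
    have := congrArg red a3
    simpa only [map_sum, map_mul, map_intCast, map_pow, map_zero] using this
  have h2 := hS p N I L s z w (fun x => (c x : ZMod (p ^ N))) (fun x => red (qh x)) U Δ T hp hN hU
    hw (fun x hx => dvd_red N _ (hq x hx).2)
    (fun x hx => by rw [← hz1 x hx, ← map_pow, (hq x hx).1]) h1 u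
  have h3 := trans (Ideal.span {(p : ZMod (p ^ N)) ^ (U * Δ)}) L z F 1 α0 α
    (fun x hx => by rw [one_smul]; exact hz2 x hx) f T
    (fun x => (c x : ZMod (p ^ N)) * red (qh x) ^ u)
    (fun g hg => by
      rw [Ideal.mem_span_singleton]
      have := h2 g hg
      convert this using 2 with x
      ring) hf
  rw [Ideal.mem_span_singleton, Int.cast_one, one_pow, one_mul] at h3
  have h4 := norm_le_of_dvd hM (∑ x ∈ L, ((c x * wd F f x : ℤ) : ℤ_[p]) * qh x ^ u) (by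
    rw [map_sum]
    convert h3 using 2 with x
    simp only [map_mul, map_intCast, map_pow, Int.cast_mul]
    ring)
  rw [PadicInt.norm_def, PadicInt.coe_sum] at h4
  simpa only [PadicInt.coe_mul, PadicInt.coe_pow, PadicInt.coe_intCast] using h4

theorem sum_log_nonneg {K : Type} [Field K] [NumberField K] (x : 𝓞 K) (hx : x ≠ 0) :
    0 ≤ ∑ φ : K →+* ℂ, log ‖φ (x : K)‖ := by
  have h0 : ∀ φ : K →+* ℂ, ‖φ (x : K)‖ ≠ 0 := fun φ => by
    simpa using hx
  rw [← log_prod fun φ _ => h0 φ]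
  apply log_nonneg
  have h1 := congr_arg (‖·‖) (Algebra.norm_eq_prod_embeddings ℚ ℂ (x : K))
  simp only [norm_prod] at h1
  rw [← Fintype.prod_equiv (RingHom.equivRatAlgHom K ℂ) (fun f => ‖f (x : K)‖)
      (fun φ => ‖φ (x : K)‖) fun _ => by simp [RingHom.equivRatAlgHom_apply]] at h1
  rw [← h1, ← Algebra.coe_norm_int, eq_ratCast, Rat.cast_intCast, Complex.norm_intCast]
  have : Algebra.norm ℤ x ≠ 0 := Algebra.norm_ne_zero_iff.mpr hx
  exact_mod_cast Int.one_le_abs this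

theorem int_den (a b : ℤ) (ha : a ≠ 0) (hb : b ≠ 0) (n : ℕ) (j : ℤ) (hj : |j| ≤ n) :
    ∃ m : ℤ, ((a * b : ℤ) : ℚ) ^ n * ((a : ℚ) / b) ^ j = m := by
  have ha' : (a : ℚ) ≠ 0 := by exact_mod_cast ha
  have hb' : (b : ℚ) ≠ 0 := by exact_mod_cast hb
  obtain ⟨h1, h2⟩ := abs_le.mp hj
  refine ⟨a ^ ((n : ℤ) + j).toNat * b ^ ((n : ℤ) - j).toNat, ?_⟩
  push_cast
  rw [← zpow_natCast (a : ℚ) (_ : ℤ).toNat, ← zpow_natCast (b : ℚ) (_ : ℤ).toNat,
    Int.toNat_of_nonneg (by omega), Int.toNat_of_nonneg (by omega), zpow_add₀ ha', zpow_sub₀ hb',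
    div_zpow, mul_pow, zpow_natCast, zpow_natCast]
  field_simp

theorem lb (hL : S_LIOU) {p : ℕ} [Fact p.Prime] {K K' : Type} [Field K] [NumberField K] [Field K']
    [NumberField K'] [Algebra K K'] (ι : K →+* ℚ_[p]) (ι' : K' →+* ℚ_[p]) {a b : ℤ} {A I : ℕ}
    {X : ℝ} {L : Finset (𝓞 K)} (ha : a ≠ 0) (hb : b ≠ 0) (haA : |a| ≤ A) (hbA : |b| ≤ A)
    (hF : Fam ι ((a : ℚ) / b) I X L) (hAX : (A : ℝ) ^ I ≤ X) (L' : Finset (𝓞 K)) (hL' : L' ⊆ L)
    (x0 : 𝓞 K) (hx0 : x0 ∈ L) (i e : ℕ) (he : 2 ^ i ≤ e) (s : 𝓞 K → K')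
    (hs : ∀ x ∈ L', s x ^ e * algebraMap K K' (x0 : K) = algebraMap K K' (x : K))
    (n : 𝓞 K → ℤ) (B : ℝ) (hB : 1 ≤ B) (hn : ∀ x ∈ L', (|n x| : ℝ) ≤ B) (u M Q : ℕ)
    (hQ : finrank K K' ≤ Q)
    (hnorm : ‖ι' (∑ x ∈ L', (n x : K') * s x ^ u)‖ ≤ (p : ℝ) ^ (-(M : ℤ)))
    (hineq : Q * (finrank ℚ K * log (L.card * B) +
      u * (2 * finrank ℚ K * log A + 3 * finrank ℚ K * log X / 2 ^ i)) < M * log p) :
    ∑ x ∈ L', (n x : K') * s x ^ u = 0 := by
  have hp : (0 : ℝ) < p := by exact_mod_cast (Fact.out : p.Prime).pos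
  have hA : (1 : ℝ) ≤ A := by
    have := (Int.one_le_abs ha).trans haA
    exact_mod_cast this
  have hX := hF.one_le
  have hlX : 0 ≤ log X := log_nonneg hX
  have hlA : 0 ≤ log (A : ℝ) := log_nonneg hA
  have hcard : (1 : ℝ) ≤ L.card := by exact_mod_cast card_pos.mpr ⟨x0, hx0⟩
  have hE : 0 ≤ log (L.card * B) := log_nonneg (by nlinarith)
  have h2i : 0 < 2 ^ i := by positivity
  have he0 : 0 < e := h2i.trans_le he
  have hx0' : (x0 : K) ≠ 0 := by simpa using hF.ne x0 hx0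
  set k := I / 2 ^ i + 1 with hk
  set d : ℤ := (a * b) ^ k with hd
  have hd0 : d ≠ 0 := pow_ne_zero _ (mul_ne_zero ha hb)
  have hke : I ≤ k * e := by
    have := Nat.lt_div_mul_add (a := I) h2i
    calc I ≤ k * 2 ^ i := by rw [hk, add_mul]; omega
      _ ≤ k * e := Nat.mul_le_mul_left _ he
  -- integrality
  have hint : ∀ x ∈ L', IsIntegral ℤ ((d : K') * s x) := by
    intro x hx
    obtain ⟨v, j, hj, hv⟩ := hF.rel x (hL' hx) x0 hx0
    obtain ⟨m, hm⟩ := int_den a b ha hb (k * e) j (hj.trans (by exact_mod_cast hke))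
    have h1 : s x ^ e = algebraMap K K' (((v : 𝓞 K) : K) * (((a : ℚ) / b : ℚ) : K) ^ j) := by
      have := hs x hx
      rw [hv, mul_assoc, map_mul, mul_comm] at this
      exact mul_left_cancel₀ ((map_ne_zero _).mpr hx0') this
    have h2 : ((d : K') * s x) ^ e = algebraMap K K' (((v : 𝓞 K) : K) * (m : K)) := by
      have h3 : (((a * b : ℤ) : K)) ^ (k * e) * (((a : ℚ) / b : ℚ) : K) ^ j = (m : K) := by
        exact_mod_cast congrArg (Rat.cast : ℚ → K) hm
      rw [mul_pow, h1, ← map_intCast (algebraMap K K'), ← map_pow, ← map_mul, ← h3, hd]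
      congr 1
      push_cast
      ring
    refine IsIntegral.of_pow he0 ?_
    rw [h2]
    exact ((RingOfIntegers.isIntegral_coe _).mul
      (isIntegral_algebraMap (R := ℤ) (A := K) (x := m))).map (algebraMap K K').toIntAlgHom
  set δ : ℝ := 2 * log A + 2 * log X / 2 ^ i with hδ
  have hdδ : (|d| : ℝ) ≤ exp δ := by
    have h1 : (|d| : ℝ) ≤ ((A : ℝ) ^ 2) ^ k := by
      rw [hd]
      push_cast
      rw [abs_pow, abs_mul, sq]
      have h1 : |(a : ℝ)| ≤ A := by exact_mod_cast haA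
      have h2 : |(b : ℝ)| ≤ A := by exact_mod_cast hbA
      gcongr
    refine h1.trans ?_
    rw [← exp_log (x := ((A : ℝ) ^ 2) ^ k) (by positivity), exp_le_exp, log_pow, log_pow, hδ, hk]
    have h2 : (I : ℝ) * log A ≤ log X := by
      rw [← log_pow]; exact log_le_log (by positivity) hAX
    have h3 : ((I / 2 ^ i : ℕ) : ℝ) ≤ I / 2 ^ i := by
      simpa using Nat.cast_div_le (α := ℝ) (m := I) (n := 2 ^ i)
    have h4 : ((I / 2 ^ i : ℕ) : ℝ) * log A ≤ log X / 2 ^ i := by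
      calc _ ≤ (I / 2 ^ i : ℝ) * log A := by gcongr
        _ = I * log A / 2 ^ i := by ring
        _ ≤ _ := by gcongr
    push_cast
    have : 2 * log X / 2 ^ i = 2 * (log X / 2 ^ i) := by ring
    linarith
  set g : (K →+* ℂ) → ℝ := fun φ => (log X - log ‖φ (x0 : K)‖) / 2 ^ i with hg
  have hsz : ∀ φ : K' →+* ℂ, ∀ x ∈ L', ‖φ (s x)‖ ≤ exp (g (φ.comp (algebraMap K K'))) := by
    intro φ x hx
    set ψ := φ.comp (algebraMap K K') with hψ
    have h0 : 0 < ‖ψ (x0 : K)‖ := by simpa using hx0'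
    have h1 : ‖φ (s x)‖ ^ e * ‖ψ (x0 : K)‖ ≤ X := by
      have := congrArg (fun t => ‖φ t‖) (hs x hx)
      simp only [map_mul, map_pow, norm_mul, norm_pow] at this
      exact this.le.trans (hF.hs x (hL' hx) ψ)
    have h2 : log ‖ψ (x0 : K)‖ ≤ log X := log_le_log h0 (hF.hs x0 hx0 ψ)
    have hg0 : 0 ≤ g ψ := div_nonneg (by linarith) (by positivity)
    by_contra hc
    push Not at hc
    have h3 : exp (g ψ) ^ e < ‖φ (s x)‖ ^ e := pow_lt_pow_left₀ hc (exp_pos _).le he0.ne'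
    have h4 : exp (g ψ) ^ (2 ^ i) ≤ exp (g ψ) ^ e := pow_le_pow_right₀ (one_le_exp hg0) he
    have h5 : exp (g ψ) ^ (2 ^ i) * ‖ψ (x0 : K)‖ = X := by
      rw [← exp_nat_mul, hg]
      push_cast
      rw [mul_div_cancel₀ _ (by positivity), exp_sub, exp_log (by linarith), exp_log h0,
        div_mul_cancel₀ _ h0.ne']
    nlinarith
  have key := hL p K K' ι' ((d : K') ^ u * ∑ x ∈ L', (n x : K') * s x ^ u) M
    (fun φ => exp (log (L.card * B) + u * (δ + g φ))) ?_ ?_ ?_ ?_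
  · exact (mul_eq_zero.mp key).resolve_left (pow_ne_zero _ (by exact_mod_cast hd0))
  · rw [mul_sum]
    refine IsIntegral.sum _ fun x hx => ?_
    have : (d : K') ^ u * ((n x : K') * s x ^ u) = (n x : K') * ((d : K') * s x) ^ u := by ring
    rw [this]
    exact (isIntegral_algebraMap (R := ℤ) (A := K') (x := n x)).mul ((hint x hx).pow u)
  · rw [map_mul, norm_mul, map_pow, map_intCast, norm_pow]
    have : ‖(d : ℚ_[p])‖ ^ u ≤ 1 := pow_le_one₀ (norm_nonneg _) (Padic.norm_int_le_one d)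
    exact (mul_le_of_le_one_left (norm_nonneg _) this).trans hnorm
  · intro φ
    rw [map_mul, norm_mul, map_pow, map_intCast, norm_pow, map_sum, exp_add,
      exp_log (by positivity), exp_nat_mul, exp_add, mul_pow, Complex.norm_intCast]
    have h1 : ‖∑ x ∈ L', φ ((n x : K') * s x ^ u)‖ ≤
        L.card * B * exp (g (φ.comp (algebraMap K K'))) ^ u := by
      refine (norm_sum_le _ _).trans ((sum_le_card_nsmul _ _
        (B * exp (g (φ.comp (algebraMap K K'))) ^ u) fun x hx => ?_).trans ?_)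
      · rw [map_mul, norm_mul, map_pow, norm_pow, map_intCast, Complex.norm_intCast]
        have := hsz φ x hx
        have := hn x hx
        gcongr
      · rw [nsmul_eq_mul, mul_assoc]
        have : (L'.card : ℝ) ≤ L.card := by exact_mod_cast card_le_card hL'
        gcongr
    calc _ ≤ exp δ ^ u * (L.card * B * exp (g (φ.comp (algebraMap K K'))) ^ u) := by gcongr
      _ = _ := by ring
  · rw [← exp_sum, ← exp_nat_mul, ← exp_log (x := (p : ℝ) ^ M) (by positivity), exp_lt_exp,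
      log_pow]
    refine lt_of_le_of_lt ?_ hineq
    have h1 : ∑ φ, g φ ≤ finrank ℚ K * log X / 2 ^ i := by
      rw [hg, ← sum_div, sum_sub_distrib, sum_const, card_univ, Embeddings.card, nsmul_eq_mul]
      have := sum_log_nonneg x0 (hF.ne x0 hx0)
      gcongr
      linarith
    have h2 : ∑ φ : K →+* ℂ, (log (L.card * B) + u * (δ + g φ)) ≤ finrank ℚ K * log (L.card * B) +
        u * (2 * finrank ℚ K * log A + 3 * finrank ℚ K * log X / 2 ^ i) := by
      rw [sum_add_distrib, ← mul_sum, sum_add_distrib, sum_const, sum_const, card_univ,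
        Embeddings.card, nsmul_eq_mul, nsmul_eq_mul, hδ]
      have : (finrank ℚ K : ℝ) * (2 * log A + 2 * log X / 2 ^ i) + finrank ℚ K * log X / 2 ^ i =
        2 * finrank ℚ K * log A + 3 * finrank ℚ K * log X / 2 ^ i := by ring
      refine add_le_add le_rfl (mul_le_mul_of_nonneg_left ?_ (Nat.cast_nonneg u))
      linarith
    have h3 : (finrank K K' : ℝ) ≤ Q := by exact_mod_cast hQ
    calc _ ≤ (finrank K K' : ℝ) * (finrank ℚ K * log (L.card * B) +
        u * (2 * finrank ℚ K * log A + 3 * finrank ℚ K * log X / 2 ^ i)) := by gcongr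
      _ ≤ _ := by gcongr

end Pool.Agent.P.MP_657a03_nt.MainB
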