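import Pool.Agent.P.MP_657a03_nt.MainB

/-! One level of the descent. -/

set_option autoImplicit false

open NumberField NumberField.Units Module Real Matrix Finset

namespace Pool.Agent.P.MP_657a03_nt.MainC

open MainA MainB

/-- The state of the descent at level `i`. -/
structure St {p : ℕ} [Fact p.Prime] {K : Type} [Field K] (ι : K →+* ℚ_[p]) (L : Finset (𝓞 K))
    (c : 𝓞 K → ℤ) (i : ℕ) where
  L' : Finset (𝓞 K)
  x0 : 𝓞 K
  Y : 𝓞 K → K
  Yh : 𝓞 K → ℤ_[p]
  sub : L' ⊆ L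
  mem : x0 ∈ L'
  nz : c x0 ≠ 0
  root : ∀ x ∈ L', Root ι i x x0 (Y x) (Yh x)

theorem norm_eq_one {p : ℕ} [Fact p.Prime] {q : ℤ_[p]} (h : ‖q - 1‖ < 1) : ‖q‖ = 1 := by
  have := PadicInt.norm_add_eq_max_of_ne (q := q - 1) (r := 1) (by rw [norm_one]; exact h.ne)
  rw [sub_add_cancel, norm_one] at this
  rw [this, max_eq_right h.le]

theorem level (hS : S_SCHWARZ) (hL : S_LIOU) (hF : S_FIELD) {p : ℕ} [Fact p.Prime] {K : Type}
    [Field K] [NumberField K] (ι : K →+* ℚ_[p]) {a b : ℤ} {A N I lev J : ℕ} {X : ℝ}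
    {L : Finset (𝓞 K)} (hD : Data ι a b A N I lev J X L) (hAX : (A : ℝ) ^ I ≤ X) (hN : N ≤ p)
    {s : ℕ} (w : Fin s → (ZMod (p ^ N))ˣ) (F : 𝓞 K → Fin s → ℤ)
    (hw : ∀ j, (p : ZMod (p ^ N)) ∣ (w j : ZMod (p ^ N)) - 1) (c : 𝓞 K → ℤ) (T : ℕ) (B : ℝ)
    (hB : 1 ≤ B)
    (hcB : ∀ x ∈ L, ∀ f : List (Fin s), f.length ≤ T → (|((c x * wd F f x : ℤ) : ℝ)|) ≤ B)
    (i : ℕ) (hi : i < lev)
    (hco : ∀ x' ∈ L, ∃ (α β : Matrix (Fin s) (Fin s) ℤ) (α0 β0 : Fin s → ℤ) (Δ : ℤ),
      Δ ≠ 0 ∧ ∀ x ∈ L, ∀ (y : K) (yh : ℤ_[p]), Root ι i x x' y yh → ∃ z : Fin s → ℤ,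
        PadicInt.toZModPow N yh = ((∏ j, w j ^ z j : (ZMod (p ^ N))ˣ) : ZMod (p ^ N)) ∧
        F x = α0 + α *ᵥ z ∧ Δ • z = β0 + β *ᵥ F x)
    (U Δ T' : ℕ) (hU : 0 < U) (hΔ : 0 < Δ) (hT : T' + (rank K + 3) * Δ ≤ T)
    (hineq : finrank ℚ K * log (L.card * B) / U +
      4 * (2 * finrank ℚ K * log A + 3 * finrank ℚ K * log X / 2 ^ i) < Δ * log p)
    (hM : 2 ^ (rank K + 2) * U * Δ ≤ N) (st : St ι L c i)
    (hV : Van st.L' c F st.Y U (T' + (rank K + 3) * Δ)) :
    ∃ st' : St ι L c (i + 1), Van st'.L' c F st'.Y U T' := by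
  classical
  have hp2 : p ≠ 2 := by
    have := hD.deg
    have : 0 < finrank ℚ K := finrank_pos
    omega
  have hx0 := st.sub st.mem
  obtain ⟨α, β, α0, β0, Δ0, hΔ0, hz⟩ := hco st.x0 hx0
  choose! qh hq using fun x (hx : x ∈ st.L') => exists_sqrt hp2 (st.Yh x) (st.root x hx).2.2
  set E : ℝ := finrank ℚ K * log (L.card * B) with hE
  set h : ℝ := 2 * finrank ℚ K * log A + 3 * finrank ℚ K * log X / 2 ^ i with hh
  have hA : (1 : ℝ) ≤ A := by
    have := (Int.one_le_abs hD.a0).trans hD.aA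
    exact_mod_cast this
  have hlX : 0 ≤ log X := log_nonneg hD.fam.one_le
  have hlA : 0 ≤ log (A : ℝ) := log_nonneg hA
  have hcard : (1 : ℝ) ≤ L.card := by exact_mod_cast card_pos.mpr ⟨_, hx0⟩
  have hE0 : 0 ≤ E := mul_nonneg (Nat.cast_nonneg _) (log_nonneg (by nlinarith))
  have hh0 : 0 ≤ h := by positivity
  have hU' : (0 : ℝ) < U := by exact_mod_cast hU
  have hineq' : E + 4 * U * h < U * Δ * log p := by
    have := mul_lt_mul_of_pos_left hineq hU'
    rw [mul_add, mul_div_cancel₀ _ hU'.ne'] at this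
    linarith
  -- the analytic step at stage `t`
  have ana : ∀ t ≤ rank K + 2, ∀ T1, Van st.L' c F st.Y (2 ^ t * U) (T1 + Δ) → ∀ u,
      ∀ f : List (Fin s), f.length ≤ T1 →
      ‖∑ x ∈ st.L', ((c x * wd F f x : ℤ) : ℚ_[p]) * (qh x : ℚ_[p]) ^ u‖ ≤
        (p : ℝ) ^ (-((2 ^ t * U * Δ : ℕ) : ℤ)) := by
    intro t ht T1 hV1 u f hf
    have h1 : 2 ^ t * U * Δ ≤ N :=
      le_trans (by gcongr; norm_num) hM
    exact sa hS ι hp2 hN w hw F st.L' α β α0 β0 Δ0 hΔ0 st.Y st.Yh qh
      (fun x hx => (st.root x hx).2.1) hq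
      (fun x hx => hz x (st.sub hx) _ _ (st.root x hx)) c (2 ^ t * U) Δ T1
      (le_trans (Nat.le_mul_of_pos_right _ hΔ) (h1.trans hN)) h1 hV1 u f hf
  -- doubling
  have dbl : ∀ t ≤ rank K + 2,
      Van st.L' c F st.Y (2 ^ t * U) (T' + (rank K + 3 - t) * Δ) := by
    intro t
    induction t with
    | zero => intro _; simpa using hV
    | succ t ih =>
      intro ht v hv f hf
      have e1 : T' + (rank K + 3 - t) * Δ = (T' + (rank K + 3 - (t + 1)) * Δ) + Δ := by
        have : rank K + 3 - t = (rank K + 3 - (t + 1)) + 1 := by omega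
        rw [this]; ring
      have h1 := ana t (by omega) _ (e1 ▸ ih (by omega)) (2 * (2 * v + 1)) f hf
      have hfT : f.length ≤ T := by
        refine hf.trans (le_trans ?_ hT)
        gcongr
        omega
      have h2 := lb hL ι ι hD.a0 hD.b0 hD.aA hD.bA hD.fam hAX st.L' st.sub st.x0 hx0 i (2 ^ i)
        le_rfl st.Y (fun x hx => (st.root x hx).1) (fun x => c x * wd F f x) B hB
        (fun x hx => hcB x (st.sub hx) f hfT) (2 * v + 1) (2 ^ t * U * Δ) 1
        (by rw [finrank_self]) (by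
          rw [map_sum]
          convert h1 using 3 with x hx
          rw [map_mul, map_intCast, map_pow, pow_mul, ← PadicInt.coe_pow, (hq x hx).1,
            (st.root x hx).2.1]) (by
          rw [← hE, ← hh]
          have h3 : ((2 * v + 1 : ℕ) : ℝ) ≤ 4 * (2 ^ t * U) := by
            have : 2 * v + 1 ≤ 4 * (2 ^ t * U) := by rw [pow_succ] at hv; nlinarith
            exact_mod_cast this
          have h4 : (1 : ℝ) ≤ 2 ^ t := one_le_pow₀ (by norm_num)
          have h5 := mul_lt_mul_of_pos_left hineq' (by positivity : (0 : ℝ) < 2 ^ t)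
          have h6 := mul_le_mul_of_nonneg_right h3 hh0
          have h7 := mul_le_mul_of_nonneg_right h4 hE0
          push_cast at h6 ⊢
          nlinarith)
      rw [← h2]
      refine sum_congr rfl fun x _ => ?_
      push_cast
      ring
  -- the half points
  have hη : ((a : ℚ) / b) ≠ 0 := div_ne_zero (by exact_mod_cast hD.a0) (by exact_mod_cast hD.b0)
  obtain ⟨K', _, _, _, ι', hdeg, hcomp, hsq⟩ := hF p K ι _ (2 ^ lev) hη (by positivity)
  have hx0' : (st.x0 : K) ≠ 0 := by simpa using hD.fam.ne _ hx0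
  have hex : ∀ x ∈ st.L', ∃ q' : K', ι' q' = qh x := by
    intro x hx
    obtain ⟨v, j, -, hv⟩ := hD.fam.rel x (st.sub hx) _ hx0
    have h1 := (st.root x hx).1
    rw [hv, mul_assoc, mul_comm] at h1
    have h2 := mul_left_cancel₀ hx0' h1
    refine hsq (st.Y x) (v ^ 2 ^ (lev - i)) (j * (2 ^ (lev - i) : ℕ)) _ ?_ ?_
    · have : 2 ^ lev = 2 ^ i * 2 ^ (lev - i) := by rw [← pow_add]; congr 1; omega
      rw [this, pow_mul, h2, mul_pow, _root_.zpow_mul, zpow_natCast]
      simp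
    · rw [← PadicInt.coe_pow, (hq x hx).1, (st.root x hx).2.1]
  choose! σ hσ using hex
  have hσ2 : ∀ x ∈ st.L', σ x ^ 2 = algebraMap K K' (st.Y x) := by
    intro x hx
    apply ι'.injective
    rw [map_pow, hσ x hx, hcomp, ← PadicInt.coe_pow, (hq x hx).1, (st.root x hx).2.1]
  have hσe : ∀ x ∈ st.L', σ x ^ 2 ^ (i + 1) * algebraMap K K' (st.x0 : K) =
      algebraMap K K' (x : K) := by
    intro x hx
    rw [pow_succ', pow_mul, hσ2 x hx, ← map_pow, ← map_mul, (st.root x hx).1]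
  have half : ∀ v < U, ∀ f : List (Fin s), f.length ≤ T' →
      ∑ x ∈ st.L', ((c x * wd F f x : ℤ) : K') * σ x ^ (2 * v + 1) = 0 := by
    intro v hv f hf
    have h0 := dbl (rank K + 2) le_rfl
    rw [show rank K + 3 - (rank K + 2) = 1 by omega, one_mul] at h0
    have h1 := ana _ le_rfl _ h0 (2 * v + 1) f hf
    refine lb hL ι ι' hD.a0 hD.b0 hD.aA hD.bA hD.fam hAX st.L' st.sub st.x0 hx0 i (2 ^ (i + 1))
      (by gcongr <;> omega) σ hσe (fun x => c x * wd F f x) B hB
      (fun x hx => hcB x (st.sub hx) f (by omega)) (2 * v + 1) (2 ^ (rank K + 2) * U * Δ) _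
      hdeg ?_ ?_
    · rw [map_sum]
      convert h1 using 3 with x hx
      rw [map_mul, map_intCast, map_pow, hσ x hx]
    · rw [← hE, ← hh]
      have h3 : ((2 * v + 1 : ℕ) : ℝ) ≤ 4 * U := by
        have : 2 * v + 1 ≤ 4 * U := by omega
        exact_mod_cast this
      have h5 := mul_lt_mul_of_pos_left hineq' (by positivity : (0 : ℝ) < 2 ^ (rank K + 2))
      have h6 := mul_le_mul_of_nonneg_left (add_le_add_left
        (mul_le_mul_of_nonneg_right h3 hh0) E) (by positivity : (0 : ℝ) ≤ 2 ^ (rank K + 2))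
      push_cast at h6 ⊢
      nlinarith
  -- separation of the classes
  have hq1 : ‖qh st.x0‖ = 1 := norm_eq_one (hq _ st.mem).2
  have hq0 : (qh st.x0 : ℚ_[p]) ≠ 0 := by
    intro h0
    rw [PadicInt.norm_def, h0, norm_zero] at hq1
    exact zero_ne_one hq1
  have hσ0 : σ st.x0 ≠ 0 := by
    intro h0
    apply hq0
    rw [← hσ _ st.mem, h0, map_zero]
  have hW : ∀ x, σ x / σ st.x0 ∈ (algebraMap K K').range →
      ∃ y, algebraMap K K' y = σ x / σ st.x0 := fun x hx => hx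
  choose! W hW using hW
  have hY0 : st.Y st.x0 ^ 2 ^ i = 1 := by
    have := (st.root _ st.mem).1
    exact mul_right_cancel₀ hx0' (by rw [this, one_mul])
  have hqi : qh st.x0 * (qh st.x0).inv = 1 := PadicInt.mul_inv hq1
  refine ⟨⟨st.L'.filter fun x => σ x / σ st.x0 ∈ (algebraMap K K').range, st.x0, W,
    fun x => qh x * (qh st.x0).inv, (filter_subset _ _).trans st.sub, ?_, st.nz, ?_⟩, ?_⟩
  · exact mem_filter.mpr ⟨st.mem, by rw [div_self hσ0]; exact one_mem _⟩
  · intro x hx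
    obtain ⟨hx, hx'⟩ := mem_filter.mp hx
    refine ⟨?_, ?_, ?_⟩
    · apply (algebraMap K K').injective
      have h1 : σ st.x0 ^ 2 ^ (i + 1) = 1 := by
        rw [pow_succ', pow_mul, hσ2 _ st.mem, ← map_pow, hY0, map_one]
      rw [map_mul, map_pow, hW x hx', div_pow, h1, div_one, hσe x hx]
    · rw [← hcomp, hW x hx', map_div₀, hσ x hx, hσ _ st.mem, eq_div_iff hq0, ← PadicInt.coe_mul,
        mul_assoc, mul_comm (qh st.x0).inv, hqi, mul_one]
    · have h1 : qh x * (qh st.x0).inv - 1 =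
          ((qh x - 1) - (qh st.x0 - 1)) * (qh st.x0).inv := by
        rw [sub_sub_sub_cancel_right, sub_mul, hqi]
      rw [h1, norm_mul]
      refine (mul_le_of_le_one_right (norm_nonneg _) (PadicInt.norm_le_one _)).trans_lt ?_
      rw [sub_eq_add_neg]
      refine (PadicInt.nonarchimedean _ _).trans_lt (max_lt (hq x hx).2 ?_)
      rw [norm_neg]
      exact (hq _ st.mem).2
  · intro v hv f hf
    dsimp only
    have h1 : ∑ x ∈ st.L', ((c x * wd F f x : ℤ) : K) • (σ x / σ st.x0) ^ (2 * v + 1) = 0 := by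
      have := congrArg (· / σ st.x0 ^ (2 * v + 1)) (half v hv f hf)
      simp only [zero_div, sum_div] at this
      rw [← this]
      refine sum_congr rfl fun x _ => ?_
      rw [Algebra.smul_def, map_intCast, div_pow, mul_div_assoc]
    have : FiniteDimensional K K' := Module.Finite.of_restrictScalars_finite ℚ K K'
    have h2 := congrArg (Algebra.trace K K') h1
    rw [map_sum, map_zero, ← sum_filter_add_sum_filter_not st.L'
      (fun x => σ x / σ st.x0 ∈ (algebraMap K K').range),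
      sum_eq_zero (s := filter (fun x => ¬ σ x / σ st.x0 ∈ (algebraMap K K').range) _),
      add_zero] at h2
    · have h3 : (finrank K K' : K) ≠ 0 := by exact_mod_cast finrank_pos.ne'
      apply mul_left_cancel₀ h3
      rw [mul_zero, ← h2, mul_sum]
      refine sum_congr rfl fun x hx => ?_
      rw [map_smul, ← hW x (mem_filter.mp hx).2, ← map_pow (algebraMap K K'),
        Algebra.trace_algebraMap]
      simp only [smul_eq_mul, nsmul_eq_mul]
      push_cast
      ring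
    · intro x hx
      obtain ⟨hx, hx'⟩ := mem_filter.mp hx
      have h4 : (σ x / σ st.x0) ^ 2 = algebraMap K K' (st.Y x / st.Y st.x0) := by
        rw [div_pow, hσ2 x hx, hσ2 _ st.mem, map_div₀]
      rw [map_smul, tr0 (a := (st.Y x / st.Y st.x0) ^ (2 * v + 1)), smul_zero]
      · rw [← pow_mul, mul_comm, pow_mul, h4, map_pow]
      · intro h5
        apply hx'
        by_cases h6 : σ x / σ st.x0 = 0
        · rw [h6]; exact zero_mem _
        have h7 : σ x / σ st.x0 = (σ x / σ st.x0) ^ (2 * v + 1) *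
            algebraMap K K' ((st.Y x / st.Y st.x0) ^ v)⁻¹ := by
          rw [map_inv₀, map_pow, ← h4, ← pow_mul, pow_succ', mul_assoc,
            mul_inv_cancel₀ (pow_ne_zero _ h6), mul_one]
        rw [h7]
        exact mul_mem h5 ⟨_, rfl⟩

end Pool.Agent.P.MP_657a03_nt.MainC
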