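import Pool.Agent.P.MP_657a03_nt.Iface

/-!
The `p`-adic logarithm preserves the norm on the open unit disc when `p` is odd.
-/

set_option autoImplicit false

namespace Pool.Agent.P.MP_657a03_nt

namespace Reg

lemma inv_norm_le (p : ℕ) [hp : Fact p.Prime] (n : ℕ) (hn : n ≠ 0) :
    ‖(n : ℚ_[p])‖⁻¹ ≤ n := by
  have hn' : (n : ℚ_[p]) ≠ 0 := by exact_mod_cast hn
  rw [Padic.norm_eq_zpow_neg_valuation hn', Padic.valuation_natCast, ← zpow_neg, neg_neg,
    zpow_natCast]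
  have h := Nat.le_of_dvd (Nat.pos_of_ne_zero hn) (pow_padicValNat_dvd (p := p) (n := n))
  exact_mod_cast h

lemma term_le (p : ℕ) [hp : Fact p.Prime] (x : ℚ_[p]) (hx : ‖x‖ ≤ 1 / 3) (k : ℕ) :
    ‖(-1 : ℚ_[p]) ^ k * x ^ (k + 1) / ((k : ℚ_[p]) + 1)‖ ≤ ‖x‖ * ((k + 1) * (1 / 3) ^ k) := by
  have h := inv_norm_le p (k + 1) (Nat.succ_ne_zero k)
  push_cast at h
  rw [norm_div, norm_mul, norm_pow, norm_neg, norm_one, one_pow, one_mul, norm_pow, div_eq_mul_inv,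
    pow_succ]
  calc ‖x‖ ^ k * ‖x‖ * ‖(k : ℚ_[p]) + 1‖⁻¹ ≤ (1 / 3) ^ k * ‖x‖ * (k + 1) := by gcongr
    _ = _ := by ring

lemma small (k : ℕ) : ((k : ℝ) + 1 + 1) * (1 / 3) ^ (k + 1) ≤ 2 / 3 := by
  induction k with
  | zero => norm_num
  | succ k ih =>
    push_cast
    rw [pow_succ]
    have h : (0 : ℝ) ≤ (1 / 3) ^ (k + 1) := by positivity
    have hk : (0 : ℝ) ≤ k := by positivity
    nlinarith [mul_nonneg hk h]

end Reg

open Reg in
theorem reg : S_REG := by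
  intro p hp x hp2 hx
  have hp3 : (3 : ℝ) ≤ p := by
    have := hp.out.two_le
    exact_mod_cast (by omega : 3 ≤ p)
  have hx3 : ‖x‖ ≤ 1 / 3 := by
    have h1 : ‖x‖ ≤ (p : ℝ) ^ (-1 : ℤ) := by
      rw [Padic.norm_le_pow_iff_norm_lt_pow_add_one]
      simpa using hx
    refine h1.trans ?_
    rw [zpow_neg_one, one_div]
    exact inv_anti₀ (by norm_num) hp3
  rcases eq_or_ne x 0 with rfl | hx0
  · simp
  have hs : Summable fun k : ℕ => (-1 : ℚ_[p]) ^ k * x ^ (k + 1) / ((k : ℚ_[p]) + 1) := by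
    refine Summable.of_norm_bounded (g := fun k : ℕ => ‖x‖ * ((k + 1) * (1 / 3) ^ k)) ?_
      (term_le p x hx3)
    refine Summable.mul_left _ ?_
    have h1 : Summable fun k : ℕ => (k : ℝ) ^ 1 * (1 / 3 : ℝ) ^ k :=
      summable_pow_mul_geometric_of_norm_lt_one 1 (by norm_num)
    have h2 : Summable fun k : ℕ => (1 / 3 : ℝ) ^ k :=
      summable_geometric_of_lt_one (by norm_num) (by norm_num)
    refine (h1.add h2).congr fun k => ?_
    ring
  rw [hs.tsum_eq_zero_add]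
  have hpos : 0 < ‖x‖ := norm_pos_iff.mpr hx0
  have ht : ‖∑' k : ℕ, (-1 : ℚ_[p]) ^ (k + 1) * x ^ (k + 1 + 1) / (((k + 1 : ℕ) : ℚ_[p]) + 1)‖
      ≤ ‖x‖ * (2 / 3) := by
    refine IsUltrametricDist.norm_tsum_le_of_forall_le_of_nonneg (by positivity) fun k => ?_
    refine (term_le p x hx3 (k + 1)).trans ?_
    push_cast
    exact mul_le_mul_of_nonneg_left (small k) hpos.le
  have h0 : (-1 : ℚ_[p]) ^ 0 * x ^ (0 + 1) / (((0 : ℕ) : ℚ_[p]) + 1) = x := by simp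
  rw [h0, IsUltrametricDist.norm_add_eq_max_of_norm_ne_norm (by linarith), max_eq_left (by linarith)]

end Pool.Agent.P.MP_657a03_nt
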